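import Pool.Agent.L0h1.KD.BX

/-!
# Project EV (helper74): even discriminants, statements

The prime `2` is added to the set of the primes: it is a split prime of type `t` (`2` or `3`). The
primes are the elements of `Option ℕ`; `none` is the prime two.
-/

set_option autoImplicit false

open scoped Classical

namespace Pool.Agent.L0h74.EV

open Finset
open Pool.Agent.Y703.CX (sm la jj XX eL zz kk)
open Pool.Agent.Y703.CQ (nr sg c2)
open Pool.Agent.N973.ND (Pr m7 uu ty kd Gv RecA SA)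
open Pool.Agent.N916.GB (HB ps)
open Pool.Agent.L0h1.KD (n0)

/-- one if two is not a square modulo the prime -/
def n2 (p : ℕ) : ZMod 2 := if p % 8 = 3 ∨ p % 8 = 5 then 1 else 0

/-- the data: the type of two, the symbols -/
structure Dt where
  /-- the type of two -/
  t : ℕ
  /-- the symbols of the odd primes -/
  A : ℕ → ℕ → ZMod 2
  /-- the symbol of two and a prime -/
  A2 : ℕ → ZMod 2
  /-- the diagonal -/
  b : ℕ → ZMod 2
  /-- the diagonal at two -/
  b2 : ZMod 2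

/-- the type of a prime -/
def tyO (t : ℕ) : Option ℕ → ℕ
  | none => t
  | some p => ty p

/-- one if the prime splits -/
def m7O : Option ℕ → ℕ
  | none => 1
  | some p => m7 p

/-- one if the prime is of type `1` or `3` -/
def uO (t : ℕ) : Option ℕ → ZMod 2
  | none => if t = 3 then 1 else 0
  | some p => uu p

/-- the symbols: `nO x y` is zero if `y` (or `x` with a sign) is a square modulo the other -/
noncomputable def nO (t : ℕ) : Option ℕ → Option ℕ → ZMod 2
  | none, none => 0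
  | none, some p => n2 p + (if t = 3 then uu p else 0)
  | some p, none => n2 p
  | some p, some q => nr p q

/-- the form -/
noncomputable def eO (d : Dt) : Option ℕ → Option ℕ → ZMod 2
  | none, none => 0
  | none, some p => d.A2 p
  | some p, none => d.A2 p
  | some p, some q => d.A p q + nr q p

/-- the diagonal -/
def bO (d : Dt) : Option ℕ → ZMod 2
  | none => d.b2
  | some p => d.b p

section
variable {V : Type} [Fintype V]

/-- the good systems attached to a family of primes -/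
def GRO (d : Dt) (r : V → Option ℕ) : Prop :=
  Gv (univ.filter fun i => m7O (r i) = 1) (univ.filter fun i => tyO d.t (r i) = 2 ∨ tyO d.t (r i) = 1)
    (fun i j => nO d.t (r j) (r i)) (fun i j => if i = j then 0 else eO d (r i) (r j))
    (fun i => bO d (r i))

end

/-- the good sets -/
def GdO (d : Dt) (S : Finset (Option ℕ)) : Prop := GRO d fun i : S => (i : Option ℕ)

/-- the good sets of odd primes (the prime two is added) -/
def GdE (d : Dt) (S : Finset ℕ) : Prop := GdO d (insertNone S)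

/-- `kd` with the prime two -/
noncomputable def kE (t : ℕ) (S : Finset ℕ) : ℤ := kd S + if t = 3 then 1 else 0

/-- the labels of the large primes with respect to the small ones and two are not degenerate -/
def NdE (S₀ S₁ : Finset ℕ) : Prop :=
  ∀ (w : ℕ → ZMod 2) (c : ZMod 2), ((∃ u ∈ S₀, w u ≠ 0) ∨ c ≠ 0) →
    ∃ p ∈ S₁, ty p = 2 ∧ ∑ u ∈ S₀, w u * nr p u + c * n2 p ≠ 0

/-- the class of the sets of primes -/
def Cl (u a : ℕ) (S : Finset ℕ) : Prop := (∀ p ∈ S, Pr p) ∧ (∏ p ∈ S, p) % u = a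

/-- the sets of the class with product at most `X` -/
noncomputable def SE (u a X : ℕ) : Finset (Finset ℕ) :=
  (range (X + 1)).powerset.filter fun S => Cl u a S ∧ ∏ p ∈ S, p ≤ X

/-- the regular sets -/
noncomputable def RE (u a t X z H k V : ℕ) : Finset (Finset ℕ) :=
  (SE u a X).filter fun S => Set.InjOn (jj H) (la z S : Set ℕ) ∧ S.card ≤ k ∧
    (∏ p ∈ sm z S, p) * ∏ p ∈ la z S, XX H (jj H p) ≤ X ∧ 2 * (V : ℤ) ≤ kE t S ∧
    3 * kE t S + 3 * (V : ℤ) ≤ (n0 z S : ℤ)

/-- BX: the count in a box; the type `τ` of the primes is fixed. -/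
def S_BXE : Prop := ∀ (d : Dt) (ι : Type) [Fintype ι]
  [LinearOrder ι] (τ : ι → ℕ) (C : ι → Finset ℕ) (X : ι → ℕ) (κ : ℝ) (S₀ : Finset ℕ) (m V : ℕ),
  (d.t = 2 ∨ d.t = 3) → RecA d.A → 0 ≤ κ → (∀ i, (C i).card ≤ X i) → HB C X κ →
  (∀ v ∈ S₀, Pr v) →
  (∀ i, ∀ p ∈ C i, Pr p ∧ p ∉ S₀ ∧ ty p = τ i) →
  (∀ i l, i ≠ l → Disjoint (C i) (C l)) →
  kE d.t S₀ + ((univ.filter fun i => τ i = 3).card : ℤ) -
      ((univ.filter fun i => τ i = 1).card : ℤ) =
    2 * m → 1 ≤ V → V ≤ m → 6 * m + 3 * V ≤ (univ.filter fun i => τ i = 0).card →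
  |(((Fintype.piFinset C).filter fun p => NdE S₀ (univ.image p) ∧
        GdE d (S₀ ∪ univ.image p)).card : ℝ) -
      c2 * (((Fintype.piFinset C).filter fun p => NdE S₀ (univ.image p)).card : ℝ)| ≤
    3 * (1 / 2 : ℝ) ^ V * (((Fintype.piFinset C).filter fun p => NdE S₀ (univ.image p)).card : ℝ) +
    3 * 2 ^ ((2 * S₀.card + 3) * Fintype.card ι + (ps ι).card) * (κ * ∏ j, (X j : ℝ))

/-- KY: the sum over the boxes. -/
def S_KYE : Prop := ∃ C : ℝ, 1 ≤ C ∧ ∀ (d : Dt), (d.t = 2 ∨ d.t = 3) → RecA d.A →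
  ∀ (u a X z H k V N : ℕ) (κ : ℝ), 4 ∣ u → 1 ≤ u → a % 4 = (if d.t = 3 then 3 else 1) → 1 ≤ X → 1 ≤ H →
  1 ≤ z → 1 ≤ V → 0 ≤ κ → C ≤ κ ^ 12 * z → (H : ℝ) * Real.log X < N →
  |(((RE u a d.t X z H k V).filter fun S => NdE (sm z S) (la z S) ∧ GdE d S).card : ℝ) -
      c2 * (((RE u a d.t X z H k V).filter fun S => NdE (sm z S) (la z S)).card : ℝ)| ≤
    3 * (1 / 2 : ℝ) ^ V * ((RE u a d.t X z H k V).card : ℝ) +
    (9 * (u * N) + 9 : ℝ) ^ k * (3 ^ (16 * k ^ 2 + 16) * κ) * (X * (1 + Real.log X))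

/-- BAD: few sets have degenerate labels. -/
def S_BADE : Prop := ∀ ε : ℝ, 0 < ε → ∃ X₀ : ℕ, ∀ X : ℕ, X₀ ≤ X →
  (((SA X).filter fun S => S.card ≤ kk X ∧ ¬ NdE (sm (zz X) S) (la (zz X) S)).card : ℝ) ≤ ε * X

/-- FINAL: the natural density of the good numbers in an odd class modulo a power of two -/
def S_DENE : Prop := ∀ (d : Dt) (k a : ℕ), RecA d.A → a < 2 ^ (k + 2) →
  ((d.t = 2 ∧ a % 4 = 1) ∨ (d.t = 3 ∧ a % 4 = 3)) → Filter.Tendsto
  (fun X : ℕ => (((Icc 1 X).filter fun D => Squarefree D ∧ D % 2 ^ (k + 2) = a ∧ ¬ 7 ∣ D ∧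
      GdE d D.primeFactors).card : ℝ) /
    (((Icc 1 X).filter fun D => Squarefree D ∧ D % 2 ^ (k + 2) = a ∧ ¬ 7 ∣ D).card : ℝ))
  Filter.atTop (nhds (c2 / 2))

end Pool.Agent.L0h74.EV
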