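import Mathlib
import Pool.Agent.L0h74.S4

set_option autoImplicit false

/-!
The distribution of the number of prime factors `p ≡ 3 mod 4` with `(p/7) = 1` minus the number of
those with `(p/7) = -1`, for the square-free numbers prime to `7` in an odd residue class modulo a
power `u` of two (after `Pool/Agent/L0h74/S4`).
-/

namespace Pool.Agent.L0h74.EV

open Finset Filter
open scoped Topology
open Pool.Agent.L0h74.S4 (cnt_crt G fp fp_cases abs_fp fp_two fp_seven mm PP ze norm_ze norm_exp_sub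
  G_sq G_one G_zero norm_G_le LP av norm_av KK main_factor KK_ge KK_le sum_sq_PP sum_sq_LP err
  prod_av prime_sums LL yy th tendsto_LL tendsto_yy tendsto_ratio props th_sq tendsto_th
  tendsto_log_LL_div tendsto_th_log levy_half)

/-- the base set -/
def Base (u a X : ℕ) : Finset ℕ := (Icc 1 X).filter (fun n => n % u = a ∧ n % 7 ≠ 0)

/-- an odd class modulo a power of two -/
structure Co (u a : ℕ) : Prop where
  pw : ∃ k, u = 2 ^ (k + 1)
  lt : a < u
  odd : a % 2 = 1

section
variable {u a : ℕ}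

theorem Co.pos (h : Co u a) : 0 < u := by
  obtain ⟨k, hk⟩ := h.pw
  rw [hk]
  positivity

theorem Co.cop (h : Co u a) {d : ℕ} (hd : Nat.Coprime d 14) : Nat.Coprime u d := by
  obtain ⟨k, hk⟩ := h.pw
  have hc2 : Nat.Coprime d 2 := Nat.Coprime.coprime_dvd_right (by norm_num) hd
  rw [hk]
  exact Nat.Coprime.pow_left _ hc2.symm

theorem Co.two_dvd (h : Co u a) : 2 ∣ u := by
  obtain ⟨k, hk⟩ := h.pw
  rw [hk, pow_succ]
  exact Dvd.intro_left _ rfl

theorem Co.modd (h : Co u a) {n : ℕ} (hn : n % u = a) : n % 2 = 1 := by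
  have h1 : n % u % 2 = n % 2 := Nat.mod_mod_of_dvd n h.two_dvd
  rw [← h1, hn, h.odd]

theorem cnt_dvd (h : Co u a) (X d : ℕ) (hd : 0 < d) (hc : Nat.Coprime d 14) :
    |(((Base u a X).filter (fun n => d ∣ n)).card : ℝ) - 6 / (7 * u) * (X / d)| ≤ 2 := by
  have hu := h.pos
  have hc7 : Nat.Coprime d 7 := Nat.Coprime.coprime_dvd_right (by norm_num) hc
  have hc4 : Nat.Coprime u d := h.cop hc
  have hcu7 : Nat.Coprime u 7 := by
    obtain ⟨k, hk⟩ := h.pw
    rw [hk]
    exact Nat.Coprime.pow_left _ (by norm_num)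
  have hc47 : Nat.Coprime u (7 * d) := Nat.Coprime.mul_right hcu7 hc4
  have h1 := cnt_crt u d a X hu hd h.lt hc4
  have h2 := cnt_crt u (7 * d) a X hu (by positivity) h.lt hc47
  have h3 : ((Base u a X).filter (fun n => d ∣ n)).card +
      ((Icc 1 X).filter (fun n => n % u = a ∧ (7 * d) ∣ n)).card =
      ((Icc 1 X).filter (fun n => n % u = a ∧ d ∣ n)).card := by
    rw [← Finset.card_union_of_disjoint]
    · congr 1
      ext n
      simp only [Base, mem_union, mem_filter]
      constructor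
      · rintro (⟨⟨h1, h2, h3⟩, h4⟩ | ⟨h1, h2, h3⟩)
        · exact ⟨h1, h2, h4⟩
        · exact ⟨h1, h2, (Dvd.intro_left 7 rfl).trans h3⟩
      · rintro ⟨h1, h2, h3⟩
        by_cases h7 : n % 7 = 0
        · right
          exact ⟨h1, h2, Nat.Coprime.mul_dvd_of_dvd_of_dvd hc7.symm (Nat.dvd_of_mod_eq_zero h7) h3⟩
        · left
          exact ⟨⟨h1, h2, h7⟩, h3⟩
    · rw [Finset.disjoint_left]
      intro n hn1 hn2
      simp only [Base, mem_filter] at hn1 hn2
      exact hn1.1.2.2 (Nat.mod_eq_zero_of_dvd ((Dvd.intro d rfl).trans hn2.2.2))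
  have h3' : (((Base u a X).filter (fun n => d ∣ n)).card : ℝ) =
      (((Icc 1 X).filter (fun n => n % u = a ∧ d ∣ n)).card : ℝ) -
      (((Icc 1 X).filter (fun n => n % u = a ∧ (7 * d) ∣ n)).card : ℝ) := by
    rw [eq_sub_iff_add_eq]; exact_mod_cast h3
  have hd0 : (0 : ℝ) < d := by exact_mod_cast hd
  have hu0 : (0 : ℝ) < u := by exact_mod_cast hu
  have e1 : (6 : ℝ) / (7 * u) * (X / d) = X / ((u : ℕ) * d) - X / ((u : ℕ) * ((7 * d : ℕ) : ℝ)) := by
    push_cast
    field_simp
    ring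
  rw [h3', e1]
  rw [abs_le] at h1 h2 ⊢
  constructor <;> linarith [h1.1, h1.2, h2.1, h2.2]

theorem dens_le (h : Co u a) : (6 : ℝ) / (7 * u) ≤ 1 := by
  have hu : 1 ≤ u := h.pos
  have hu1 : (1 : ℝ) ≤ u := by exact_mod_cast hu
  rw [div_le_one (by positivity)]
  linarith

theorem dens_pos (h : Co u a) : (0 : ℝ) < 6 / (7 * u) := by
  have hu0 : (0 : ℝ) < u := by exact_mod_cast h.pos
  positivity

lemma cnt_dvd2 (h : Co u a) (X d : ℕ) (hd : 0 < d) (hc : Nat.Coprime d 14) {s : ℝ} (hs0 : 0 ≤ s)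
    (hs1 : s ≤ 1) :
    |(((Base u a X).filter (fun n => d ∣ n)).card : ℝ) - 6 / (7 * u) * (X / d)| ≤
      2 * ((X : ℝ) / d) ^ s := by
  have hd0 : (0 : ℝ) < d := by exact_mod_cast hd
  by_cases h' : (1 : ℝ) ≤ X / d
  · have h1 : 1 ≤ ((X : ℝ) / d) ^ s := Real.one_le_rpow h' hs0
    have := cnt_dvd h X d hd hc
    linarith
  · rw [not_le] at h'
    have h0 : (0 : ℝ) ≤ X / d := by positivity
    have h1 : (X : ℝ) / d ≤ ((X : ℝ) / d) ^ s := by
      rcases h0.eq_or_lt with h2 | h2
      · rw [← h2]; exact Real.rpow_nonneg le_rfl _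
      · calc (X : ℝ) / d = ((X : ℝ) / d) ^ (1 : ℝ) := (Real.rpow_one _).symm
          _ ≤ ((X : ℝ) / d) ^ s := Real.rpow_le_rpow_of_exponent_ge h2 h'.le hs1
    have h3 : (((Base u a X).filter (fun n => d ∣ n)).card : ℝ) = 0 := by
      have : (Base u a X).filter (fun n => d ∣ n) = ∅ := by
        apply Finset.filter_eq_empty_iff.2
        intro n hn hdn
        simp only [Base, mem_filter, mem_Icc] at hn
        have h4 := Nat.le_of_dvd (by omega) hdn
        have h5 : (d : ℝ) ≤ X := by exact_mod_cast h4.trans hn.1.2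
        rw [div_lt_one hd0] at h'
        linarith
      rw [this]; simp
    have hd1 := dens_le h
    have hd2 := dens_pos h
    rw [h3, zero_sub, abs_neg, abs_of_nonneg (by positivity)]
    have h4 : 0 ≤ ((X : ℝ) / d) ^ s := Real.rpow_nonneg h0 _
    have h5 : 6 / (7 * (u : ℝ)) * (X / d) ≤ 1 * (X / d) := mul_le_mul_of_nonneg_right hd1 h0
    linarith

theorem rankin (hco : Co u a) (X : ℕ) {s : ℝ} (hs0 : 0 ≤ s) (hs1 : s ≤ 1) (f g : ℕ → ℂ)
    (P : Finset ℕ) (hP : ∀ p ∈ P, p.Prime ∧ p ≠ 2 ∧ p ≠ 7) :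
    ∀ d : ℕ, 0 < d → Nat.Coprime d 14 → (∀ p ∈ P, ¬ p ∣ d) →
      ‖∑ n ∈ (Base u a X).filter (fun n => d ∣ n), ∏ p ∈ P, G f g p n -
        6 / (7 * u) * ((X : ℂ) / d) * ∏ p ∈ P, (1 + f p / p + g p / (p : ℂ) ^ 2)‖ ≤
      2 * ((X : ℝ) / d) ^ s *
        ∏ p ∈ P, (1 + ‖f p‖ * (p : ℝ) ^ (-s) + ‖g p‖ * ((p : ℝ) ^ 2) ^ (-s)) := by
  classical
  induction P using Finset.induction_on with
  | empty =>
    intro d hd hc _
    simp only [Finset.prod_empty, mul_one]
    have h1 := cnt_dvd2 hco X d hd hc hs0 hs1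
    have h2 : ∑ n ∈ (Base u a X).filter (fun n => d ∣ n), (1 : ℂ) - 6 / (7 * u) * ((X : ℂ) / d) =
        (((((Base u a X).filter (fun n => d ∣ n)).card : ℝ) - 6 / (7 * u) * (X / d) : ℝ) : ℂ) := by
      push_cast
      simp
    rw [h2, Complex.norm_real, Real.norm_eq_abs]
    exact h1
  | insert p P hpP ih =>
    intro d hd hc hpd
    have hpp := (hP p (mem_insert_self _ _)).1
    have hp2 := (hP p (mem_insert_self _ _)).2.1
    have hp7 := (hP p (mem_insert_self _ _)).2.2
    have ih' := ih (fun q hq => hP q (mem_insert_of_mem hq))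
    have hpd' : ¬ p ∣ d := hpd p (mem_insert_self _ _)
    have hpos := hpp.pos
    have hp14 : Nat.Coprime p 14 := by
      rw [hpp.coprime_iff_not_dvd]
      intro h
      have : p ∣ 2 * 7 := by simpa using h
      rcases (hpp.dvd_mul).1 this with h | h
      · exact hp2 ((Nat.prime_dvd_prime_iff_eq hpp Nat.prime_two).1 h)
      · exact hp7 ((Nat.prime_dvd_prime_iff_eq hpp (by norm_num)).1 h)
    have hcop1 : Nat.Coprime d p := (hpp.coprime_iff_not_dvd.2 hpd').symm
    have hcop2 : Nat.Coprime d (p ^ 2) := Nat.Coprime.pow_right 2 hcop1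
    have hq1 : ∀ q ∈ P, ¬ q ∣ d * p := by
      intro q hq h
      have hqp := (hP q (mem_insert_of_mem hq)).1
      rcases (hqp.dvd_mul).1 h with h | h
      · exact hpd q (mem_insert_of_mem hq) h
      · have := (Nat.prime_dvd_prime_iff_eq hqp hpp).1 h
        subst this
        exact hpP hq
    have hq2 : ∀ q ∈ P, ¬ q ∣ d * p ^ 2 := by
      intro q hq h
      have hqp := (hP q (mem_insert_of_mem hq)).1
      rcases (hqp.dvd_mul).1 h with h | h
      · exact hpd q (mem_insert_of_mem hq) h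
      · have := (Nat.prime_dvd_prime_iff_eq hqp hpp).1 (hqp.dvd_of_dvd_pow h)
        subst this
        exact hpP hq
    have i0 := ih' d hd hc (fun q hq => hpd q (mem_insert_of_mem hq))
    have i1 := ih' (d * p) (by positivity) (Nat.Coprime.mul_left hc hp14) hq1
    have i2 := ih' (d * p ^ 2) (by positivity)
      (Nat.Coprime.mul_left hc (Nat.Coprime.pow_left 2 hp14)) hq2
    set W : ℕ → ℂ := fun n => ∏ q ∈ P, G f g q n with hW
    set E : ℂ := ∏ q ∈ P, (1 + f q / q + g q / (q : ℂ) ^ 2) with hE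
    set R : ℝ := ∏ q ∈ P, (1 + ‖f q‖ * (q : ℝ) ^ (-s) + ‖g q‖ * ((q : ℝ) ^ 2) ^ (-s)) with hR
    have hsum : ∑ n ∈ (Base u a X).filter (fun n => d ∣ n), ∏ q ∈ insert p P, G f g q n =
        ∑ n ∈ (Base u a X).filter (fun n => d ∣ n), W n +
        f p * ∑ n ∈ (Base u a X).filter (fun n => d * p ∣ n), W n +
        g p * ∑ n ∈ (Base u a X).filter (fun n => d * p ^ 2 ∣ n), W n := by
      have e1 : (Base u a X).filter (fun n => d * p ∣ n) =
          ((Base u a X).filter (fun n => d ∣ n)).filter (fun n => p ∣ n) := by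
        ext n
        simp only [mem_filter]
        constructor
        · rintro ⟨h1, h2⟩
          exact ⟨⟨h1, (Dvd.intro p rfl).trans h2⟩, (Dvd.intro_left d rfl).trans h2⟩
        · rintro ⟨⟨h1, h2⟩, h3⟩
          exact ⟨h1, Nat.Coprime.mul_dvd_of_dvd_of_dvd hcop1 h2 h3⟩
      have e2 : (Base u a X).filter (fun n => d * p ^ 2 ∣ n) =
          ((Base u a X).filter (fun n => d ∣ n)).filter (fun n => p ^ 2 ∣ n) := by
        ext n
        simp only [mem_filter]
        constructor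
        · rintro ⟨h1, h2⟩
          exact ⟨⟨h1, (Dvd.intro (p ^ 2) rfl).trans h2⟩, (Dvd.intro_left d rfl).trans h2⟩
        · rintro ⟨⟨h1, h2⟩, h3⟩
          exact ⟨h1, Nat.Coprime.mul_dvd_of_dvd_of_dvd hcop2 h2 h3⟩
      rw [e1, e2, Finset.sum_filter (s := (Base u a X).filter (fun n => d ∣ n)) (fun n => p ∣ n),
        Finset.sum_filter (s := (Base u a X).filter (fun n => d ∣ n)) (fun n => p ^ 2 ∣ n),
        Finset.mul_sum, Finset.mul_sum, ← Finset.sum_add_distrib, ← Finset.sum_add_distrib]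
      apply Finset.sum_congr rfl
      intro n _
      rw [Finset.prod_insert hpP]
      simp only [hW, G]
      by_cases h1 : p ∣ n <;> by_cases h2 : p ^ 2 ∣ n <;> simp [h1, h2] <;> ring
    rw [hsum, Finset.prod_insert hpP, Finset.prod_insert hpP]
    have hp0 : (p : ℂ) ≠ 0 := by exact_mod_cast hpp.ne_zero
    have hd0 : (d : ℂ) ≠ 0 := by exact_mod_cast hd.ne'
    have hu0 : (u : ℂ) ≠ 0 := by exact_mod_cast hco.pos.ne'
    have key : ∑ n ∈ (Base u a X).filter (fun n => d ∣ n), W n +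
        f p * ∑ n ∈ (Base u a X).filter (fun n => d * p ∣ n), W n +
        g p * ∑ n ∈ (Base u a X).filter (fun n => d * p ^ 2 ∣ n), W n -
        6 / (7 * u) * ((X : ℂ) / d) * ((1 + f p / p + g p / (p : ℂ) ^ 2) * E) =
        (∑ n ∈ (Base u a X).filter (fun n => d ∣ n), W n - 6 / (7 * u) * ((X : ℂ) / d) * E) +
        f p * (∑ n ∈ (Base u a X).filter (fun n => d * p ∣ n), W n -
          6 / (7 * u) * ((X : ℂ) / ((d * p : ℕ) : ℂ)) * E) +
        g p * (∑ n ∈ (Base u a X).filter (fun n => d * p ^ 2 ∣ n), W n -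
          6 / (7 * u) * ((X : ℂ) / ((d * p ^ 2 : ℕ) : ℂ)) * E) := by
      push_cast
      field_simp
      ring
    rw [key]
    have hdr : (0 : ℝ) < d := by exact_mod_cast hd
    have hpr : (0 : ℝ) < p := by exact_mod_cast hpos
    have hXd : (0 : ℝ) ≤ (X : ℝ) / d := by positivity
    have f1 : ((X : ℝ) / ((d * p : ℕ) : ℝ)) ^ s = ((X : ℝ) / d) ^ s * (p : ℝ) ^ (-s) := by
      push_cast
      rw [← div_div, Real.div_rpow hXd hpr.le, Real.rpow_neg hpr.le]
      rfl
    have f2 : ((X : ℝ) / ((d * p ^ 2 : ℕ) : ℝ)) ^ s = ((X : ℝ) / d) ^ s * ((p : ℝ) ^ 2) ^ (-s) := by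
      push_cast
      rw [← div_div, Real.div_rpow hXd (by positivity), Real.rpow_neg (by positivity)]
      rfl
    calc _ ≤ ‖∑ n ∈ (Base u a X).filter (fun n => d ∣ n), W n -
            6 / (7 * u) * ((X : ℂ) / d) * E‖ +
          ‖f p‖ * ‖∑ n ∈ (Base u a X).filter (fun n => d * p ∣ n), W n -
          6 / (7 * u) * ((X : ℂ) / ((d * p : ℕ) : ℂ)) * E‖ +
          ‖g p‖ * ‖∑ n ∈ (Base u a X).filter (fun n => d * p ^ 2 ∣ n), W n -
          6 / (7 * u) * ((X : ℂ) / ((d * p ^ 2 : ℕ) : ℂ)) * E‖ := by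
          refine (norm_add_le _ _).trans (add_le_add ((norm_add_le _ _).trans ?_) ?_)
          · rw [norm_mul]
          · rw [norm_mul]
      _ ≤ 2 * ((X : ℝ) / d) ^ s * R + ‖f p‖ * (2 * ((X : ℝ) / ((d * p : ℕ) : ℝ)) ^ s * R) +
          ‖g p‖ * (2 * ((X : ℝ) / ((d * p ^ 2 : ℕ) : ℝ)) ^ s * R) := by
          gcongr
      _ = _ := by
          rw [f1, f2]; ring

/-- the target set -/
def GS (u a X : ℕ) : Finset ℕ := (Icc 1 X).filter fun D => Squarefree D ∧ D % u = a ∧ D % 7 ≠ 0

/-- the exponential sum -/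
noncomputable def SS (u a X : ℕ) (θ : ℝ) : ℂ :=
  ∑ D ∈ GS u a X, Complex.exp ((θ * (mm D : ℝ) : ℝ) * Complex.I)

lemma GS_eq (X : ℕ) : GS u a X = (Base u a X).filter (fun n => Squarefree n) := by
  ext n
  simp only [GS, Base, mem_filter]
  tauto

lemma pointwise (hco : Co u a) (X y : ℕ) (θ : ℝ) (n : ℕ) (hn : n ∈ Base u a X) :
    ‖∏ p ∈ PP y, G (fun p => ze θ p - 1) (fun p => - ze θ p) p n -
      (if Squarefree n then Complex.exp ((θ * (mm n : ℝ) : ℝ) * Complex.I) else 0)‖ ≤
    |θ| * (∑ p ∈ LP y X, if p ∣ n then (1 : ℝ) else 0) +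
      ∑ p ∈ LP y X, if p ^ 2 ∣ n then (1 : ℝ) else 0 := by
  classical
  have hb := hn
  simp only [Base, mem_filter, mem_Icc] at hb
  obtain ⟨⟨hn1, hnX⟩, hn4, hn7⟩ := hb
  have hn2 := hco.modd hn4
  have hn0 : n ≠ 0 := by omega
  have hA0 : (0 : ℝ) ≤ ∑ p ∈ LP y X, if p ∣ n then (1 : ℝ) else 0 :=
    Finset.sum_nonneg (fun p _ => by split_ifs <;> norm_num)
  have hB0 : (0 : ℝ) ≤ ∑ p ∈ LP y X, if p ^ 2 ∣ n then (1 : ℝ) else 0 :=
    Finset.sum_nonneg (fun p _ => by split_ifs <;> norm_num)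
  by_cases hsq : Squarefree n
  · rw [if_pos hsq]
    have hns : ∀ p ∈ PP y, ¬ p ^ 2 ∣ n := by
      intro p hp h
      simp only [PP, mem_filter] at hp
      have := hsq p (by rw [← pow_two]; exact h)
      exact hp.2.1.one_lt.ne' (Nat.isUnit_iff.1 this)
    have h1 : ∏ p ∈ PP y, G (fun p => ze θ p - 1) (fun p => - ze θ p) p n =
        Complex.exp ((θ * ((∑ p ∈ (PP y).filter (fun p => p ∣ n), fp p : ℤ) : ℝ) : ℝ) *
          Complex.I) := by
      have e1 : ∏ p ∈ PP y, G (fun p => ze θ p - 1) (fun p => - ze θ p) p n =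
          ∏ p ∈ (PP y).filter (fun p => p ∣ n), ze θ p := by
        rw [Finset.prod_filter]
        apply Finset.prod_congr rfl
        intro p hp
        split_ifs with h
        · exact G_one θ p n h (hns p hp)
        · exact G_zero θ p n h
      rw [e1]
      simp only [ze]
      rw [← Complex.exp_sum]
      congr 1
      push_cast
      rw [Finset.mul_sum, Finset.sum_mul]
    rw [h1]
    refine (norm_exp_sub _ _).trans ?_
    have h2 : mm n = ∑ p ∈ (PP y).filter (fun p => p ∣ n), fp p +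
        ∑ p ∈ (LP y X).filter (fun p => p ∣ n), fp p := by
      have hdis : Disjoint ((PP y).filter (fun p => p ∣ n)) ((LP y X).filter (fun p => p ∣ n)) := by
        rw [Finset.disjoint_left]
        intro p h1 h2
        simp only [PP, LP, mem_filter, mem_Icc, mem_Ioc] at h1 h2
        omega
      rw [← Finset.sum_union hdis, mm]
      symm
      apply Finset.sum_subset
      · intro p hp
        simp only [mem_union, PP, LP, mem_filter, mem_Icc, mem_Ioc] at hp
        rw [Nat.mem_primeFactors]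
        rcases hp with hp | hp
        · exact ⟨hp.1.2.1, hp.2, hn0⟩
        · exact ⟨hp.1.2, hp.2, hn0⟩
      · intro p hp hp2
        rw [Nat.mem_primeFactors] at hp
        by_cases p2 : p = 2
        · rw [p2]; exact fp_two
        by_cases p7 : p = 7
        · rw [p7]; exact fp_seven
        exfalso
        apply hp2
        simp only [mem_union, PP, LP, mem_filter, mem_Icc, mem_Ioc]
        have hle := Nat.le_of_dvd (by omega) hp.2.1
        by_cases hpy : p ≤ y
        · left; exact ⟨⟨⟨hp.1.one_lt.le, hpy⟩, hp.1, p2, p7⟩, hp.2.1⟩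
        · right; exact ⟨⟨⟨by omega, by omega⟩, hp.1⟩, hp.2.1⟩
    rw [h2, ← mul_sub, abs_mul]
    have h3 : |((∑ p ∈ (PP y).filter (fun p => p ∣ n), fp p : ℤ) : ℝ) -
        ((∑ p ∈ (PP y).filter (fun p => p ∣ n), fp p +
        ∑ p ∈ (LP y X).filter (fun p => p ∣ n), fp p : ℤ) : ℝ)| ≤
        ∑ p ∈ LP y X, if p ∣ n then (1 : ℝ) else 0 := by
      push_cast
      rw [sub_add_cancel_left, abs_neg]
      refine (Finset.abs_sum_le_sum_abs _ _).trans ?_
      rw [← Finset.sum_filter]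
      exact Finset.sum_le_sum (fun p _ => abs_fp p)
    have h4 := mul_le_mul_of_nonneg_left h3 (abs_nonneg θ)
    linarith
  · rw [if_neg hsq, sub_zero]
    have h0 : 0 ≤ |θ| * (∑ p ∈ LP y X, if p ∣ n then (1 : ℝ) else 0) :=
      mul_nonneg (abs_nonneg _) hA0
    obtain ⟨p, hp, hpn⟩ : ∃ p, p.Prime ∧ p ^ 2 ∣ n := by
      by_contra hcon
      push Not at hcon
      apply hsq
      rw [Nat.squarefree_iff_prime_squarefree]
      intro p hp h
      exact hcon p hp (by rw [pow_two]; exact h)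
    have hpd : p ∣ n := (Dvd.intro_left (p ^ 1) (by ring)).trans hpn
    have p2 : p ≠ 2 := by
      rintro rfl
      omega
    have p7 : p ≠ 7 := by
      rintro rfl
      omega
    by_cases hpy : p ≤ y
    · have hmem : p ∈ PP y := by
        simp only [PP, mem_filter, mem_Icc]
        exact ⟨⟨hp.one_lt.le, hpy⟩, hp, p2, p7⟩
      rw [Finset.prod_eq_zero hmem (G_sq θ p n hpn), norm_zero]
      linarith
    · have hmem : p ∈ LP y X := by
        simp only [LP, mem_filter, mem_Ioc]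
        have hle := Nat.le_of_dvd (by omega) hpd
        exact ⟨⟨by omega, by omega⟩, hp⟩
      have h5 : ‖∏ p ∈ PP y, G (fun p => ze θ p - 1) (fun p => - ze θ p) p n‖ ≤ 1 := by
        rw [norm_prod]
        exact Finset.prod_le_one (fun _ _ => norm_nonneg _) (fun p _ => norm_G_le θ p n)
      have h6 : (1 : ℝ) ≤ ∑ p ∈ LP y X, if p ^ 2 ∣ n then (1 : ℝ) else 0 := by
        calc (1 : ℝ) = if p ^ 2 ∣ n then (1 : ℝ) else 0 := by rw [if_pos hpn]
          _ ≤ _ := Finset.single_le_sum (f := fun p => if p ^ 2 ∣ n then (1 : ℝ) else 0)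
              (fun q _ => by split_ifs <;> norm_num) hmem
      linarith

lemma card_dvd_le (X d : ℕ) :
    ∑ n ∈ Base u a X, (if d ∣ n then (1 : ℝ) else 0) ≤ X / d := by
  rw [← Finset.sum_filter]
  simp only [Finset.sum_const, nsmul_eq_mul, mul_one]
  have h1 : ((Base u a X).filter (fun n => d ∣ n)).card ≤ X / d := by
    have h2 : (Base u a X).filter (fun n => d ∣ n) ⊆ (Ioc 0 X).filter (fun n => d ∣ n) := by
      intro n hn
      simp only [Base, mem_filter, mem_Icc, mem_Ioc] at hn ⊢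
      exact ⟨⟨by omega, hn.1.1.2⟩, hn.2⟩
    refine (Finset.card_le_card h2).trans ?_
    rw [Nat.Ioc_filter_dvd_card_eq_div]
  calc (((Base u a X).filter (fun n => d ∣ n)).card : ℝ) ≤ ((X / d : ℕ) : ℝ) := by exact_mod_cast h1
    _ ≤ X / d := Nat.cast_div_le

theorem compare (hco : Co u a) (X y : ℕ) (θ : ℝ) :
    ‖∑ n ∈ Base u a X, ∏ p ∈ PP y, G (fun p => ze θ p - 1) (fun p => - ze θ p) p n -
      SS u a X θ‖ ≤
    |θ| * (X * ∑ p ∈ LP y X, (1 : ℝ) / p) + X * ∑ p ∈ LP y X, (1 : ℝ) / (p : ℝ) ^ 2 := by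
  have h1 : SS u a X θ = ∑ n ∈ Base u a X,
      (if Squarefree n then Complex.exp ((θ * (mm n : ℝ) : ℝ) * Complex.I) else 0) := by
    rw [SS, GS_eq, Finset.sum_filter]
  rw [h1, ← Finset.sum_sub_distrib]
  refine (norm_sum_le _ _).trans ?_
  refine (Finset.sum_le_sum (fun n hn => pointwise hco X y θ n hn)).trans ?_
  rw [Finset.sum_add_distrib, ← Finset.mul_sum, Finset.sum_comm (s := Base u a X),
    Finset.sum_comm (s := Base u a X)]
  refine add_le_add (mul_le_mul_of_nonneg_left ?_ (abs_nonneg _)) ?_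
  · rw [Finset.mul_sum]
    apply Finset.sum_le_sum
    intro p _
    refine (card_dvd_le X p).trans (le_of_eq (by ring))
  · rw [Finset.mul_sum]
    apply Finset.sum_le_sum
    intro p _
    refine (card_dvd_le X (p ^ 2)).trans (le_of_eq (by push_cast; ring))

/-- The combined estimate for the exponential sum. -/
theorem SS_est (hco : Co u a) (X y : ℕ) (hX : 1 ≤ X) (hy : 1 ≤ y) (δ : ℝ) (hδ0 : 0 ≤ δ)
    (hδ1 : δ ≤ 1) (hyδ : (y : ℝ) ^ δ ≤ Real.exp 1) (θ : ℝ) :
    ‖SS u a X θ / X - 6 / (7 * u) * KK y * ∏ p ∈ PP y, av θ p‖ ≤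
      2 * Real.exp (- (δ * Real.log X) +
        (Real.exp 1 * |θ| * (∑ p ∈ PP y, (1 : ℝ) / p) + Real.exp 2)) +
      |θ| * (∑ p ∈ LP y X, (1 : ℝ) / p) + 1 / y := by
  have hX0 : (0 : ℝ) < X := by exact_mod_cast hX
  have hXc : (X : ℂ) ≠ 0 := by exact_mod_cast hX0.ne'
  have hu0 : (u : ℂ) ≠ 0 := by exact_mod_cast hco.pos.ne'
  have h1 := rankin hco X (s := 1 - δ) (by linarith) (by linarith) (fun p => ze θ p - 1)
    (fun p => - ze θ p) (PP y) (by
      intro p hp
      simp only [PP, mem_filter] at hp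
      exact ⟨hp.2.1, hp.2.2.1, hp.2.2.2⟩) 1 one_pos (by norm_num) (by
      intro p hp h
      simp only [PP, mem_filter] at hp
      exact hp.2.1.one_lt.ne' (Nat.dvd_one.1 h))
  rw [main_factor] at h1
  have h2 : (Base u a X).filter (fun n => 1 ∣ n) = Base u a X := by simp
  rw [h2] at h1
  have h3 := h1.trans (err X y hX hy δ hδ0 hyδ θ)
  have h4 := compare hco X y θ
  have h5 := sum_sq_LP y X hy
  set H : ℂ := ∑ n ∈ Base u a X, ∏ p ∈ PP y, G (fun p => ze θ p - 1) (fun p => - ze θ p) p n with hH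
  have e1 : SS u a X θ / X - 6 / (7 * u) * KK y * ∏ p ∈ PP y, av θ p =
      ((H - 6 / (7 * u) * ((X : ℂ) / (1 : ℕ)) * ((KK y : ℂ) * ∏ p ∈ PP y, av θ p)) -
        (H - SS u a X θ)) / X := by
    push_cast
    field_simp
    ring
  rw [e1, norm_div]
  have e2 : ‖(X : ℂ)‖ = X := by simp
  rw [e2, div_le_iff₀ hX0]
  refine (norm_sub_le _ _).trans ?_
  have h6 : X * ∑ p ∈ LP y X, (1 : ℝ) / (p : ℝ) ^ 2 ≤ X * (1 / y) :=
    mul_le_mul_of_nonneg_left h5 hX0.le
  calc _ ≤ 2 * X * Real.exp (- (δ * Real.log X) +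
      (Real.exp 1 * |θ| * (∑ p ∈ PP y, (1 : ℝ) / p) + Real.exp 2)) +
      (|θ| * (X * ∑ p ∈ LP y X, (1 : ℝ) / p) + X * ∑ p ∈ LP y X, (1 : ℝ) / (p : ℝ) ^ 2) :=
        add_le_add h3 h4
    _ ≤ 2 * X * Real.exp (- (δ * Real.log X) +
      (Real.exp 1 * |θ| * (∑ p ∈ PP y, (1 : ℝ) / p) + Real.exp 2)) +
      (|θ| * (X * ∑ p ∈ LP y X, (1 : ℝ) / p) + X * (1 / y)) := by linarith
    _ = _ := by ring

theorem main_lim (hco : Co u a) (t : ℝ) : Tendsto (fun X : ℕ => SS u a X (th t X) / X -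
    6 / (7 * u) * KK (yy X) * Complex.exp (-((t : ℂ) ^ 2 / 2))) atTop (𝓝 0) := by
  obtain ⟨C, hC, hps⟩ := prime_sums
  set A : ℕ → ℝ := fun X => ∑ p ∈ PP (yy X), (fp p : ℝ) / ((p : ℝ) + 1) with hA
  set B : ℕ → ℝ := fun X => ∑ p ∈ PP (yy X), (fp p : ℝ) ^ 2 / ((p : ℝ) + 1) with hB
  set w : ℕ → ℝ := fun X => Real.log (Real.log (yy X)) with hw
  have hev := props
  have hthabs : Tendsto (fun X => |th t X|) atTop (𝓝 0) := by
    have := (tendsto_th t).abs
    rwa [abs_zero] at this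
  -- part 1
  have p1 : Tendsto (fun X : ℕ => SS u a X (th t X) / X -
      6 / (7 * u) * KK (yy X) * ∏ p ∈ PP (yy X), av (th t X) p) atTop (𝓝 0) := by
    rw [tendsto_zero_iff_norm_tendsto_zero]
    have hb1 : Tendsto (fun X => 2 * Real.exp (-(LL X) / 2 + (C / 2 + Real.exp 2))) atTop (𝓝 0) := by
      have h1 : Tendsto (fun X => -(LL X) / 2 + (C / 2 + Real.exp 2)) atTop atBot := by
        apply tendsto_atBot_add_const_right
        have h2 : Tendsto (fun X => LL X / 2) atTop atTop := tendsto_LL.atTop_div_const (by norm_num)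
        have h3 := tendsto_neg_atTop_atBot.comp h2
        refine h3.congr (fun X => ?_)
        simp only [Function.comp]
        ring
      have h2 := (Real.tendsto_exp_atBot.comp h1).const_mul 2
      rw [mul_zero] at h2
      exact h2
    have hb2 : Tendsto (fun X => |th t X| * (Real.log (LL X) + Real.log 2 + C)) atTop (𝓝 0) :=
      tendsto_th_log t C
    have hb3 : Tendsto (fun X => 1 / (yy X : ℝ)) atTop (𝓝 0) :=
      tendsto_one_div_atTop_nhds_zero_nat.comp tendsto_yy
    have hb := (hb1.add hb2).add hb3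
    rw [add_zero, add_zero] at hb
    refine squeeze_zero' (Eventually.of_forall fun _ => norm_nonneg _) ?_ hb
    have hsmall : ∀ᶠ X in atTop, |th t X| < 1 / (2 * Real.exp 1) := by
      apply hthabs.eventually_lt_const
      positivity
    filter_upwards [hev, hsmall] with X hX hth
    obtain ⟨h1, h2, h3, h4, h5, h6, h7, h8⟩ := hX
    obtain ⟨q1, q2, q3, q4⟩ := hps (yy X) h2
    have hL0 : 0 < Real.log X := by linarith
    have hest := SS_est hco X (yy X) h1 (by omega) (LL X / Real.log X)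
      (div_nonneg (by linarith) hL0.le) (by rw [div_le_one hL0]; exact h5) h6 (th t X)
    refine hest.trans ?_
    have e1 : LL X / Real.log X * Real.log X = LL X := by field_simp
    rw [e1]
    have q4' := q4 X h3
    have hth0 := abs_nonneg (th t X)
    have b1 : -(LL X) + (Real.exp 1 * |th t X| * (∑ p ∈ PP (yy X), (1 : ℝ) / p) + Real.exp 2) ≤
        -(LL X) / 2 + (C / 2 + Real.exp 2) := by
      have c1 : Real.exp 1 * |th t X| ≤ 1 / 2 := by
        have hp : 0 < Real.exp 1 := Real.exp_pos 1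
        calc Real.exp 1 * |th t X| ≤ Real.exp 1 * (1 / (2 * Real.exp 1)) :=
              mul_le_mul_of_nonneg_left hth.le hp.le
          _ = 1 / 2 := by field_simp
      have c2 : 0 ≤ ∑ p ∈ PP (yy X), (1 : ℝ) / p := Finset.sum_nonneg (fun _ _ => by positivity)
      have c3 : Real.exp 1 * |th t X| * (∑ p ∈ PP (yy X), (1 : ℝ) / p) ≤
          1 / 2 * (LL X + C) := by
        calc Real.exp 1 * |th t X| * (∑ p ∈ PP (yy X), (1 : ℝ) / p) ≤
            1 / 2 * (∑ p ∈ PP (yy X), (1 : ℝ) / p) := mul_le_mul_of_nonneg_right c1 c2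
          _ ≤ 1 / 2 * (LL X + C) := by
            apply mul_le_mul_of_nonneg_left _ (by norm_num)
            linarith
      linarith
    have b2 : |th t X| * (∑ p ∈ LP (yy X) X, (1 : ℝ) / p) ≤
        |th t X| * (Real.log (LL X) + Real.log 2 + C) := by
      apply mul_le_mul_of_nonneg_left _ hth0
      have : Real.log (Real.log X) = LL X := rfl
      linarith
    have b3 := Real.exp_le_exp.2 b1
    linarith
  -- part 2
  have p2 : Tendsto (fun X : ℕ => ∏ p ∈ PP (yy X), av (th t X) p -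
      Complex.exp (((th t X * A X : ℝ) : ℂ) * Complex.I - ((th t X ^ 2 / 2 * B X : ℝ) : ℂ)))
      atTop (𝓝 0) := by
    rw [tendsto_zero_iff_norm_tendsto_zero]
    have hb1 : Tendsto (fun X => |th t X| * (2 * t ^ 2) + |th t X| ^ 3 * C + 4 * |th t X| ^ 2)
        atTop (𝓝 (0 * (2 * t ^ 2) + 0 ^ 3 * C + 4 * 0 ^ 2)) :=
      ((hthabs.mul_const _).add ((hthabs.pow 3).mul_const C)).add ((hthabs.pow 2).const_mul 4)
    have : (0 : ℝ) * (2 * t ^ 2) + 0 ^ 3 * C + 4 * 0 ^ 2 = 0 := by ring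
    rw [this] at hb1
    refine squeeze_zero' (Eventually.of_forall fun _ => norm_nonneg _) ?_ hb1
    have hsmall : ∀ᶠ X in atTop, |th t X| < 1 := hthabs.eventually_lt_const one_pos
    filter_upwards [hev, hsmall] with X hX hth
    obtain ⟨h1, h2, h3, h4, h5, h6, h7, h8⟩ := hX
    obtain ⟨q1, q2, q3, q4⟩ := hps (yy X) h2
    have hest := prod_av (th t X) hth.le (PP (yy X)) (by
      intro p hp
      simp only [PP, mem_filter, mem_Icc] at hp
      exact hp.1.1)
    refine hest.trans ?_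
    have hsq := sum_sq_PP (yy X) (by omega)
    have hth0 := abs_nonneg (th t X)
    have hq := th_sq t X (by linarith)
    have hLL0 : 0 < LL X := by linarith
    have c1 : |th t X| ^ 3 * (∑ p ∈ PP (yy X), (1 : ℝ) / p) ≤
        |th t X| * (2 * t ^ 2) + |th t X| ^ 3 * C := by
      calc |th t X| ^ 3 * (∑ p ∈ PP (yy X), (1 : ℝ) / p) ≤ |th t X| ^ 3 * (LL X + C) := by
            apply mul_le_mul_of_nonneg_left _ (by positivity)
            linarith
        _ = |th t X| * (|th t X| ^ 2 * LL X) + |th t X| ^ 3 * C := by ring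
        _ = |th t X| * (2 * t ^ 2) + |th t X| ^ 3 * C := by
            rw [sq_abs, hq]
            field_simp
    have c2 : 4 * |th t X| ^ 2 * (∑ p ∈ PP (yy X), (1 : ℝ) / (p : ℝ) ^ 2) ≤ 4 * |th t X| ^ 2 :=
      mul_le_of_le_one_right (by positivity) hsq
    linarith
  -- part 3
  have p3 : Tendsto (fun X : ℕ => Complex.exp (((th t X * A X : ℝ) : ℂ) * Complex.I -
      ((th t X ^ 2 / 2 * B X : ℝ) : ℂ))) atTop (𝓝 (Complex.exp (-((t : ℂ) ^ 2 / 2)))) := by
    have hθA : Tendsto (fun X => th t X * A X) atTop (𝓝 0) := by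
      rw [tendsto_zero_iff_abs_tendsto_zero]
      have hb := hthabs.mul_const C
      rw [zero_mul] at hb
      refine squeeze_zero' (Eventually.of_forall fun _ => abs_nonneg _) ?_ hb
      filter_upwards [hev] with X hX
      obtain ⟨h1, h2, h3, h4, h5, h6, h7, h8⟩ := hX
      obtain ⟨q1, q2, q3, q4⟩ := hps (yy X) h2
      simp only [Function.comp, abs_mul]
      exact mul_le_mul_of_nonneg_left q1 (abs_nonneg _)
    have hratio : Tendsto (fun X => w X / LL X) atTop (𝓝 1) := by
      have hlow : Tendsto (fun X => 1 - Real.log (LL X) / LL X - Real.log 2 / LL X) atTop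
          (𝓝 (1 - 0 - 0)) :=
        (tendsto_const_nhds.sub tendsto_log_LL_div).sub (tendsto_LL.const_div_atTop _)
      rw [sub_zero, sub_zero] at hlow
      refine tendsto_of_tendsto_of_tendsto_of_le_of_le' hlow tendsto_const_nhds ?_ ?_
      · filter_upwards [hev] with X hX
        obtain ⟨h1, h2, h3, h4, h5, h6, h7, h8⟩ := hX
        have hLL0 : 0 < LL X := by linarith
        rw [le_div_iff₀ hLL0]
        have : (1 - Real.log (LL X) / LL X - Real.log 2 / LL X) * LL X =
            LL X - Real.log (LL X) - Real.log 2 := by field_simp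
        rw [this]
        exact h8
      · filter_upwards [hev] with X hX
        obtain ⟨h1, h2, h3, h4, h5, h6, h7, h8⟩ := hX
        have hLL0 : 0 < LL X := by linarith
        rw [div_le_one hLL0]
        exact h7
    have hθB : Tendsto (fun X => th t X ^ 2 / 2 * B X) atTop (𝓝 (t ^ 2 / 2)) := by
      have hd : Tendsto (fun X => th t X ^ 2 / 2 * (B X - 1 / 2 * w X)) atTop (𝓝 0) := by
        rw [tendsto_zero_iff_abs_tendsto_zero]
        have hb := ((hthabs.pow 2).div_const 2).mul_const C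
        have e0 : (0 : ℝ) ^ 2 / 2 * C = 0 := by ring
        rw [e0] at hb
        refine squeeze_zero' (Eventually.of_forall fun _ => abs_nonneg _) ?_ hb
        filter_upwards [hev] with X hX
        obtain ⟨h1, h2, h3, h4, h5, h6, h7, h8⟩ := hX
        obtain ⟨q1, q2, q3, q4⟩ := hps (yy X) h2
        simp only [Function.comp, abs_mul, abs_div, abs_pow, abs_two]
        exact mul_le_mul_of_nonneg_left q2 (by positivity)
      have hm : Tendsto (fun X => t ^ 2 / 2 * (w X / LL X)) atTop (𝓝 (t ^ 2 / 2)) := by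
        have := hratio.const_mul (t ^ 2 / 2)
        rwa [mul_one] at this
      have hs := hd.add hm
      rw [zero_add] at hs
      refine hs.congr' ?_
      filter_upwards [hev] with X hX
      obtain ⟨h1, h2, h3, h4, h5, h6, h7, h8⟩ := hX
      have hLL0 : 0 < LL X := by linarith
      rw [th_sq t X hLL0]
      field_simp
      ring
    have hc1 : Tendsto (fun X => ((th t X * A X : ℝ) : ℂ)) atTop (𝓝 ((0 : ℝ) : ℂ)) :=
      (Complex.continuous_ofReal.tendsto _).comp hθA
    have hc2 : Tendsto (fun X => ((th t X ^ 2 / 2 * B X : ℝ) : ℂ)) atTop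
        (𝓝 ((t ^ 2 / 2 : ℝ) : ℂ)) :=
      (Complex.continuous_ofReal.tendsto _).comp hθB
    have hc := (hc1.mul_const Complex.I).sub hc2
    have he : ((0 : ℝ) : ℂ) * Complex.I - ((t ^ 2 / 2 : ℝ) : ℂ) = -((t : ℂ) ^ 2 / 2) := by
      push_cast; ring
    rw [he] at hc
    exact (Complex.continuous_exp.tendsto _).comp hc
  -- combine
  have p4 : Tendsto (fun X : ℕ => ∏ p ∈ PP (yy X), av (th t X) p -
      Complex.exp (-((t : ℂ) ^ 2 / 2))) atTop (𝓝 0) := by
    have h := p2.add (p3.sub_const (Complex.exp (-((t : ℂ) ^ 2 / 2))))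
    rw [sub_self, add_zero] at h
    refine h.congr (fun X => ?_)
    ring
  have p5 : Tendsto (fun X : ℕ => (6 / (7 * u) * (KK (yy X) : ℂ)) *
      (∏ p ∈ PP (yy X), av (th t X) p - Complex.exp (-((t : ℂ) ^ 2 / 2)))) atTop (𝓝 0) := by
    rw [tendsto_zero_iff_norm_tendsto_zero] at p4 ⊢
    refine squeeze_zero' (Eventually.of_forall fun _ => norm_nonneg _) ?_ p4
    filter_upwards [hev] with X hX
    rw [norm_mul]
    apply mul_le_of_le_one_left (norm_nonneg _)
    have k1 := KK_ge (yy X) (by omega)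
    have k2 := KK_le (yy X)
    have e : (6 / (7 * u) * (KK (yy X) : ℂ)) = ((6 / (7 * u) * KK (yy X) : ℝ) : ℂ) := by
      push_cast; rfl
    have d1 := dens_le hco
    have d2 := dens_pos hco
    rw [e, Complex.norm_real, Real.norm_eq_abs, abs_le]
    constructor
    · have : (0 : ℝ) ≤ 6 / (7 * u) * KK (yy X) := mul_nonneg d2.le (by linarith)
      linarith
    · exact mul_le_one₀ d1 (by linarith) k2
  have h := p1.add p5
  rw [add_zero] at h
  refine h.congr (fun X => ?_)
  ring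

lemma SS_zero (X : ℕ) : SS u a X 0 = ((GS u a X).card : ℂ) := by
  unfold SS
  simp

/-- the class has positive density -/
theorem card_low (hco : Co u a) : ∀ᶠ X : ℕ in atTop,
    2 / (7 * (u : ℝ)) ≤ ((GS u a X).card : ℝ) / X ∧ 1 ≤ X := by
  have h0 : Tendsto (fun X : ℕ => ((GS u a X).card : ℂ) / X - 6 / (7 * u) * KK (yy X)) atTop
      (𝓝 0) := by
    have h := main_lim hco 0
    refine h.congr (fun X => ?_)
    have e1 : th 0 X = 0 := by simp [th]
    rw [e1, SS_zero]
    simp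
  have hu0 : (0 : ℝ) < u := by exact_mod_cast hco.pos
  have h3 : ∀ᶠ X : ℕ in atTop, ‖((GS u a X).card : ℂ) / X - 6 / (7 * u) * KK (yy X)‖ <
      1 / (7 * u) := by
    have := (tendsto_zero_iff_norm_tendsto_zero.1 h0).eventually_lt_const
      (show (0 : ℝ) < 1 / (7 * u) by positivity)
    exact this
  filter_upwards [h3, props] with X hX hp
  refine ⟨?_, hp.1⟩
  have k1 := KK_ge (yy X) (by omega)
  have e : ((GS u a X).card : ℂ) / X - 6 / (7 * u) * KK (yy X) =
      ((((GS u a X).card : ℝ) / X - 6 / (7 * u) * KK (yy X) : ℝ) : ℂ) := by push_cast; rfl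
  rw [e, Complex.norm_real, Real.norm_eq_abs, abs_lt] at hX
  have h5 : 6 / (7 * (u : ℝ)) * (1 / 2) ≤ 6 / (7 * u) * KK (yy X) :=
    mul_le_mul_of_nonneg_left k1 (dens_pos hco).le
  have h6 : 6 / (7 * (u : ℝ)) * (1 / 2) = 2 / (7 * u) + 1 / (7 * u) := by
    field_simp
    norm_num
  linarith [hX.1]

theorem char_lim (hco : Co u a) (t : ℝ) : Tendsto (fun X : ℕ => ((GS u a X).card : ℂ)⁻¹ *
    SS u a X (th t X)) atTop (𝓝 (Complex.exp (-((t : ℂ) ^ 2 / 2)))) := by
  have h1 := main_lim hco t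
  have h0 : Tendsto (fun X : ℕ => ((GS u a X).card : ℂ) / X - 6 / (7 * u) * KK (yy X)) atTop
      (𝓝 0) := by
    have h := main_lim hco 0
    refine h.congr (fun X => ?_)
    have e1 : th 0 X = 0 := by simp [th]
    rw [e1, SS_zero]
    simp
  set E : ℂ := Complex.exp (-((t : ℂ) ^ 2 / 2)) with hE
  have h2 : Tendsto (fun X : ℕ => SS u a X (th t X) / X - ((GS u a X).card : ℂ) / X * E) atTop
      (𝓝 0) := by
    have h := h1.sub (h0.mul_const E)
    rw [zero_mul, sub_zero] at h
    refine h.congr (fun X => ?_)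
    ring
  have hu0 : (0 : ℝ) < u := by exact_mod_cast hco.pos
  have hlow := card_low hco
  rw [tendsto_iff_norm_sub_tendsto_zero]
  rw [tendsto_zero_iff_norm_tendsto_zero] at h2
  have h4 := h2.mul_const (7 * u / 2 : ℝ)
  rw [zero_mul] at h4
  refine squeeze_zero' (Eventually.of_forall fun _ => norm_nonneg _) ?_ h4
  filter_upwards [hlow] with X hX
  obtain ⟨hX1, hX2⟩ := hX
  have hX0 : (0 : ℝ) < X := by exact_mod_cast hX2
  have hc : (0 : ℝ) < (GS u a X).card := by
    have : 0 < ((GS u a X).card : ℝ) / X := lt_of_lt_of_le (by positivity) hX1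
    rcases lt_or_ge 0 ((GS u a X).card : ℝ) with h | h
    · exact h
    · exfalso
      have := div_nonpos_of_nonpos_of_nonneg h hX0.le
      linarith
  have hXc : (X : ℂ) ≠ 0 := by exact_mod_cast hX0.ne'
  have hcc : ((GS u a X).card : ℂ) ≠ 0 := by exact_mod_cast hc.ne'
  have e1 : ((GS u a X).card : ℂ)⁻¹ * SS u a X (th t X) - E =
      (SS u a X (th t X) / X - ((GS u a X).card : ℂ) / X * E) * ((X : ℂ) / (GS u a X).card) := by
    field_simp
  rw [e1, norm_mul]
  apply mul_le_mul_of_nonneg_left _ (norm_nonneg _)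
  rw [norm_div, Complex.norm_natCast, Complex.norm_natCast]
  rw [div_le_iff₀ hc]
  rw [le_div_iff₀ hX0] at hX1
  have h7 : (7 * (u : ℝ) / 2) * (2 / (7 * u) * X) ≤ 7 * u / 2 * (GS u a X).card :=
    mul_le_mul_of_nonneg_left hX1 (by positivity)
  have h8 : (7 * (u : ℝ) / 2) * (2 / (7 * u) * X) = X := by
    field_simp
  linarith

theorem half_lim (hco : Co u a) (M : ℕ) : Tendsto (fun X : ℕ =>
    (((GS u a X).filter (fun D => (M : ℤ) ≤ mm D)).card : ℝ) / (GS u a X).card) atTop
      (𝓝 (1 / 2)) := by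
  obtain ⟨N, hN⟩ := (eventually_atTop.1 (card_low hco))
  have hne : ∀ n, (GS u a (n + (N + 1))).Nonempty := by
    intro n
    obtain ⟨h1, h2⟩ := hN (n + (N + 1)) (by omega)
    rw [nonempty_iff_ne_empty]
    intro h3
    rw [h3] at h1
    have hu0 : (0 : ℝ) < u := by exact_mod_cast hco.pos
    have : (0 : ℝ) < 2 / (7 * u) := by positivity
    simp at h1
    linarith
  rw [← tendsto_add_atTop_iff_nat (N + 1)]
  have h := levy_half (fun n => GS u a (n + (N + 1))) hne
    (fun n D => ((mm D : ℝ) - M) / Real.sqrt (LL (n + (N + 1)) / 2)) (by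
      intro t
      have h1 := (char_lim hco t).comp (tendsto_add_atTop_nat (N + 1))
      have h2 : Tendsto (fun n : ℕ => Complex.exp (((-(th t (n + (N + 1)) * M) : ℝ) : ℂ) *
          Complex.I)) atTop (𝓝 (Complex.exp (((-(0 * (M : ℝ)) : ℝ) : ℂ) * Complex.I))) := by
        have h3 : Tendsto (fun n : ℕ => (-(th t (n + (N + 1)) * M) : ℝ)) atTop
            (𝓝 (-(0 * (M : ℝ)))) :=
          (((tendsto_th t).comp (tendsto_add_atTop_nat (N + 1))).mul_const _).neg
        exact (Complex.continuous_exp.tendsto _).comp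
          (((Complex.continuous_ofReal.tendsto _).comp h3).mul_const _)
      have h4 := h1.mul h2
      have e0 : Complex.exp (((-(0 * (M : ℝ)) : ℝ) : ℂ) * Complex.I) = 1 := by simp
      rw [e0, mul_one] at h4
      refine h4.congr (fun n => ?_)
      simp only [Function.comp, SS]
      rw [mul_assoc, Finset.sum_mul]
      congr 1
      apply Finset.sum_congr rfl
      intro D _
      rw [← Complex.exp_add]
      congr 1
      unfold th
      push_cast
      ring)
  refine h.congr' ?_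
  have hLL := tendsto_LL.comp (tendsto_add_atTop_nat (N + 1))
  filter_upwards [hLL.eventually_gt_atTop 0] with n hn
  simp only [Function.comp] at hn
  congr 3
  apply Finset.filter_congr
  intro D _
  have hs : 0 < Real.sqrt (LL (n + (N + 1)) / 2) := Real.sqrt_pos.2 (by linarith)
  rw [le_div_iff₀ hs, zero_mul, sub_nonneg]
  constructor
  · intro h; exact_mod_cast h
  · intro h; exact_mod_cast h

end

end Pool.Agent.L0h74.EV
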