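import Mathlib
import Pool.Agent.L0h74.EV.Stm
import Pool.Agent.L0h74.EV.S4g
import Pool.Agent.L0h74.KD.KDL

/-! # EV: the translation between the sets of primes and the numbers -/

set_option autoImplicit false
set_option linter.unusedVariables false

open scoped Classical

namespace Pool.Agent.L0h74.EV.KDL

open Finset Filter
open scoped Topology
open Pool.Agent.N973.ND (Pr m7 ty kd)
open Pool.Agent.L0h74.EV (GS Co Cl SE card_low char_lim SS kE)
open Pool.Agent.L0h74.S4 (mm levy_half th tendsto_th tendsto_LL LL)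

/-- half of the numbers have `mm` at least `M` -/
theorem half_limZ {u a : ℕ} (hco : Co u a) (M : ℤ) : Tendsto (fun X : ℕ =>
    (((GS u a X).filter (fun D => M ≤ mm D)).card : ℝ) / (GS u a X).card) atTop
      (𝓝 (1 / 2)) := by
  obtain ⟨N, hN⟩ := (eventually_atTop.1 (card_low hco))
  have hne : ∀ n, (GS u a (n + (N + 1))).Nonempty := by
    intro n
    obtain ⟨h1, h2⟩ := hN (n + (N + 1)) (by omega)
    rw [nonempty_iff_ne_empty]
    intro h3
    rw [h3] at h1
    have hu0 : (0 : ℝ) < u := by exact_mod_cast hco.pos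
    have : (0 : ℝ) < 2 / (7 * u) := by positivity
    simp at h1
    linarith
  rw [← tendsto_add_atTop_iff_nat (N + 1)]
  have h := levy_half (fun n => GS u a (n + (N + 1))) hne
    (fun n D => ((mm D : ℝ) - M) / Real.sqrt (LL (n + (N + 1)) / 2)) (by
      intro t
      have h1 := (char_lim hco t).comp (tendsto_add_atTop_nat (N + 1))
      have h2 : Tendsto (fun n : ℕ => Complex.exp (((-(th t (n + (N + 1)) * M) : ℝ) : ℂ) *
          Complex.I)) atTop (𝓝 (Complex.exp (((-(0 * (M : ℝ)) : ℝ) : ℂ) * Complex.I))) := by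
        have h3 : Tendsto (fun n : ℕ => (-(th t (n + (N + 1)) * M) : ℝ)) atTop
            (𝓝 (-(0 * (M : ℝ)))) :=
          (((tendsto_th t).comp (tendsto_add_atTop_nat (N + 1))).mul_const _).neg
        exact (Complex.continuous_exp.tendsto _).comp
          (((Complex.continuous_ofReal.tendsto _).comp h3).mul_const _)
      have h4 := h1.mul h2
      have e0 : Complex.exp (((-(0 * (M : ℝ)) : ℝ) : ℂ) * Complex.I) = 1 := by simp
      rw [e0, mul_one] at h4
      refine h4.congr (fun n => ?_)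
      simp only [Function.comp, SS]
      rw [mul_assoc, Finset.sum_mul]
      congr 1
      apply Finset.sum_congr rfl
      intro D _
      rw [← Complex.exp_add]
      congr 1
      unfold th
      push_cast
      ring)
  refine h.congr' ?_
  have hLL := tendsto_LL.comp (tendsto_add_atTop_nat (N + 1))
  filter_upwards [hLL.eventually_gt_atTop 0] with n hn
  simp only [Function.comp] at hn
  congr 3
  apply Finset.filter_congr
  intro D _
  have hs : 0 < Real.sqrt (LL (n + (N + 1)) / 2) := Real.sqrt_pos.2 (by linarith)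
  rw [le_div_iff₀ hs, zero_mul, sub_nonneg]
  constructor
  · intro h; exact_mod_cast h
  · intro h; exact_mod_cast h

/-- the primes of `D` -/
lemma pr_of {D : ℕ} (h2 : D % 2 = 1) (h3 : D % 7 ≠ 0) :
    ∀ p ∈ D.primeFactors, Pr p := by
  intro p hp
  have hpp := Nat.prime_of_mem_primeFactors hp
  have hd := Nat.dvd_of_mem_primeFactors hp
  refine ⟨hpp, ?_, ?_⟩
  · rintro rfl
    have : D % 2 = 0 := Nat.mod_eq_zero_of_dvd hd
    omega
  · rintro rfl
    exact h3 (Nat.mod_eq_zero_of_dvd hd)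

/-- the bijection -/
theorem card_eq {u a : ℕ} (hco : Co u a) (X : ℕ) (G : Finset ℕ → Prop) [DecidablePred G]
    [DecidablePred fun D : ℕ => G D.primeFactors] :
    ((SE u a X).filter G).card = ((GS u a X).filter fun D => G D.primeFactors).card := by
  refine card_bij' (fun S _ => ∏ p ∈ S, p) (fun D _ => D.primeFactors) ?_ ?_ ?_ ?_
  · intro S hS
    rw [mem_filter, SE, mem_filter, Cl] at hS
    obtain ⟨⟨h1, ⟨h2, h3⟩, h4⟩, h5⟩ := hS
    have hpr : ∀ p ∈ S, p.Prime := fun p hp => (h2 p hp).1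
    have e1 : (∏ p ∈ S, p).primeFactors = S := Nat.primeFactors_prod hpr
    rw [mem_filter, GS, mem_filter, mem_Icc, e1]
    refine ⟨⟨⟨prod_pos fun p hp => (hpr p hp).pos, h4⟩, ?_, h3, ?_⟩, h5⟩
    · refine Finset.squarefree_prod_of_pairwise_isCoprime (fun p hp q hq hpq => ?_)
        fun p hp => (hpr p hp).prime.squarefree
      rw [Function.onFun, ← Nat.coprime_iff_isRelPrime]
      exact (Nat.coprime_primes (hpr p hp) (hpr q hq)).2 hpq
    · intro h7
      have h8 : 7 ∣ ∏ p ∈ S, p := Nat.dvd_of_mod_eq_zero h7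
      obtain ⟨p, hp, hd⟩ := (Nat.Prime.prime (by norm_num : Nat.Prime 7)).dvd_finsetProd_iff
        (S := S) (fun q => q) |>.1 h8
      exact (h2 p hp).2.2 ((Nat.prime_dvd_prime_iff_eq (by norm_num) (hpr p hp)).1 hd).symm
  · intro D hD
    rw [mem_filter, GS, mem_filter, mem_Icc] at hD
    obtain ⟨⟨⟨h0, h1⟩, h2, h3, h4⟩, h5⟩ := hD
    have e1 : ∏ p ∈ D.primeFactors, p = D := Nat.prod_primeFactors_of_squarefree h2
    rw [mem_filter, SE, mem_filter, mem_powerset, Cl, e1]
    refine ⟨⟨?_, ⟨pr_of (hco.modd h3) h4, h3⟩, h1⟩, h5⟩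
    intro p hp
    have := Nat.le_of_dvd (by omega) (Nat.dvd_of_mem_primeFactors hp)
    rw [mem_range]
    omega
  · intro S hS
    rw [mem_filter, SE, mem_filter, Cl] at hS
    exact Nat.primeFactors_prod fun p hp => (hS.1.2.1.1 p hp).1
  · intro D hD
    rw [mem_filter, GS, mem_filter, mem_Icc] at hD
    exact Nat.prod_primeFactors_of_squarefree hD.1.2.1

theorem card_eq0 {u a : ℕ} (hco : Co u a) (X : ℕ) : (SE u a X).card = (GS u a X).card := by
  have h := card_eq hco X (fun _ => True)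
  simpa using h

theorem GS_le (u a X : ℕ) : ((GS u a X).card : ℝ) ≤ X := by
  have h1 : GS u a X ⊆ Icc 1 X := by
    unfold GS
    exact filter_subset _ _
  have h := card_le_card h1
  rw [Nat.card_Icc] at h
  exact_mod_cast (by omega : (GS u a X).card ≤ X)

theorem t_KD {u a : ℕ} (hco : Co u a) (M : ℤ) : ∀ ε : ℝ, 0 < ε → ∃ X₀ : ℕ, ∀ X : ℕ, X₀ ≤ X →
    |(((SE u a X).filter fun S => M ≤ kd S).card : ℝ) - 1 / 2 * ((SE u a X).card : ℝ)| ≤
      ε * X := by
  intro ε hε
  have h := half_limZ hco M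
  rw [Metric.tendsto_atTop] at h
  obtain ⟨X₀, h0⟩ := h ε hε
  obtain ⟨X₁, h1⟩ := eventually_atTop.1 (card_low hco)
  refine ⟨max X₀ X₁, fun X hX => ?_⟩
  have h2 := h0 X ((le_max_left _ _).trans hX)
  obtain ⟨h3, h4⟩ := h1 X ((le_max_right _ _).trans hX)
  have hX0 : (0 : ℝ) < X := by exact_mod_cast h4
  have hu0 : (0 : ℝ) < u := by exact_mod_cast hco.pos
  have hG : (0 : ℝ) < (GS u a X).card := by
    have h5 : 0 < ((GS u a X).card : ℝ) / X := lt_of_lt_of_le (by positivity) h3
    rcases lt_or_ge 0 ((GS u a X).card : ℝ) with h | h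
    · exact h
    · exfalso
      have := div_nonpos_of_nonpos_of_nonneg h hX0.le
      linarith
  rw [card_eq0 hco, card_eq hco X (fun S => M ≤ kd S)]
  have e : (GS u a X).filter (fun D => M ≤ kd D.primeFactors) =
      (GS u a X).filter (fun D => M ≤ mm D) := by
    apply filter_congr
    intro D hD
    rw [GS, mem_filter] at hD
    rw [Pool.Agent.L0h74.KD.KDL.kd_eq (pr_of (hco.modd hD.2.2.1) hD.2.2.2)]
  rw [e]
  rw [Real.dist_eq] at h2
  have h5 : ((((GS u a X).filter (fun D => M ≤ mm D)).card : ℝ) -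
      1 / 2 * ((GS u a X).card : ℝ)) = ((((GS u a X).filter (fun D => M ≤ mm D)).card : ℝ) /
      (GS u a X).card - 1 / 2) * (GS u a X).card := by
    field_simp
  rw [h5, abs_mul, abs_of_pos hG]
  exact mul_le_mul h2.le (GS_le u a X) hG.le hε.le

/-- the same with `kE` -/
theorem t_KDE {u a : ℕ} (hco : Co u a) (t : ℕ) (M : ℤ) : ∀ ε : ℝ, 0 < ε → ∃ X₀ : ℕ, ∀ X : ℕ,
    X₀ ≤ X → |(((SE u a X).filter fun S => M ≤ kE t S).card : ℝ) -
      1 / 2 * ((SE u a X).card : ℝ)| ≤ ε * X := by
  intro ε hε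
  obtain ⟨X₀, h0⟩ := t_KD hco (M - if t = 3 then 1 else 0) ε hε
  refine ⟨X₀, fun X hX => ?_⟩
  have h1 := h0 X hX
  have e : (SE u a X).filter (fun S => M ≤ kE t S) =
      (SE u a X).filter (fun S => (M - if t = 3 then 1 else 0) ≤ kd S) := by
    apply filter_congr
    intro S _
    unfold kE
    constructor <;> intro h <;> linarith
  rw [e]
  exact h1

end Pool.Agent.L0h74.EV.KDL
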