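import Mathlib
import Pool.Agent.L0h74.EV.KDL
import Pool.Agent.L0h74.EV.NEG
import Pool.Agent.L0h74.EV.BAD
import Pool.Agent.L0h74.EV.KEY
import Pool.Agent.L0h74.EV.BX
import Pool.Agent.L0h74.KD.Den
import Pool.Agent.N19.GB.Parts

/-! # EV: the final asymptotics -/

set_option autoImplicit false
set_option linter.unusedVariables false

open scoped Classical
open Finset Filter
open scoped Topology

namespace Pool.Agent.L0h74.EV.Den

open Pool.Agent.N973.ND (Pr m7 ty SA kd RecA CntP)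
open Pool.Agent.L0h1.KD (n0)
open Pool.Agent.L0h74.EV
open Pool.Agent.Y703.CQ (c2)
open Pool.Agent.Y703
open Pool.Agent.Y703.CX (sm la jj XX eL zz kk eL_tendsto logX_eq HH ev_eL one_le_exp
  HH_ge HH_le HH_pos kk_ge kk_le X_pos one_add_log lin_le kap zz_ge zz_pos kap_nonneg kap_pow kap_le)
open Pool.Agent.N218.GB.Asy (Sml sml_of sml_add sml_eps cmp log_three)
open Pool.Agent.L0h74.KD.Den (c2_mem sml_many sml_cut sml_coll SA_card)

/-- the main error term -/
theorem sml_mainE (u : ℕ) {C : ℝ} (hC : 1 ≤ C) : Sml fun X =>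
    (9 * ((u : ℝ) * (CX.NN X : ℝ)) + 9) ^ kk X *
    (3 ^ (16 * kk X ^ 2 + 16) * kap C X) * (X * (1 + Real.log X)) := by
  apply sml_of (C := 4 * C) (a := 1) (by norm_num)
  filter_upwards [ev_eL (40000 + 36 * u)] with X hX
  set l := eL X with hl
  have hu0 : (0 : ℝ) ≤ u := Nat.cast_nonneg _
  have h0 : 0 < eL X := by linarith
  have h1 : 1 ≤ eL X := by linarith
  have hX0 : (0 : ℝ) ≤ X := Nat.cast_nonneg _
  have hN : 9 * ((u : ℝ) * (CX.NN X : ℝ)) + 9 ≤ Real.exp (5 * l) := by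
    have h2 : (CX.NN X : ℝ) ≤ HH X * Real.log X + 1 := by
      unfold CX.NN
      push_cast
      have := Nat.floor_le (a := (HH X : ℝ) * Real.log X)
        (mul_nonneg (Nat.cast_nonneg _) (Real.log_natCast_nonneg X))
      linarith
    have h3 : (HH X : ℝ) * Real.log X ≤ 2 * Real.exp (4 * l) := by
      rw [logX_eq h0]
      calc (HH X : ℝ) * Real.exp (eL X) ≤ 2 * Real.exp (3 * eL X) * Real.exp (eL X) :=
            mul_le_mul_of_nonneg_right (HH_le h0) (Real.exp_pos _).le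
        _ = 2 * Real.exp (4 * l) := by
            rw [mul_assoc, ← Real.exp_add]
            congr 2
            rw [hl]
            ring
    have h4 : 1 ≤ Real.exp (4 * l) := one_le_exp (by linarith)
    have h5 : 27 * (u : ℝ) + 9 ≤ Real.exp l := by
      have := Real.add_one_le_exp l
      linarith
    have h6 : Real.exp (5 * l) = Real.exp (4 * l) * Real.exp l := by
      rw [← Real.exp_add]; congr 1; ring
    rw [h6]
    have h7 : (CX.NN X : ℝ) ≤ 3 * Real.exp (4 * l) := by linarith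
    have h8 : (u : ℝ) * (CX.NN X : ℝ) ≤ u * (3 * Real.exp (4 * l)) :=
      mul_le_mul_of_nonneg_left h7 hu0
    have h9 : Real.exp (4 * l) * (27 * (u : ℝ) + 9) ≤ Real.exp (4 * l) * Real.exp l :=
      mul_le_mul_of_nonneg_left h5 (Real.exp_pos _).le
    linarith
  have hkk := kk_le h1
  have hkk0 : (0 : ℝ) ≤ kk X := Nat.cast_nonneg _
  have hA : (9 * ((u : ℝ) * (CX.NN X : ℝ)) + 9) ^ kk X ≤ Real.exp (55 * l ^ 2) := by
    calc (9 * ((u : ℝ) * (CX.NN X : ℝ)) + 9) ^ kk X ≤ (Real.exp (5 * l)) ^ kk X := by gcongr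
      _ = Real.exp (kk X * (5 * l)) := (Real.exp_nat_mul _ _).symm
      _ ≤ Real.exp (55 * l ^ 2) := by
          apply Real.exp_le_exp.2
          nlinarith
  have hB : (3 : ℝ) ^ (16 * kk X ^ 2 + 16) ≤ Real.exp (2150 * l ^ 2) := by
    have e : (3 : ℝ) ^ (16 * kk X ^ 2 + 16) = Real.exp ((16 * (kk X : ℝ) ^ 2 + 16) * Real.log 3) := by
      rw [mul_comm (16 * (kk X : ℝ) ^ 2 + 16) (Real.log 3), Real.exp_mul, Real.exp_log (by norm_num)]
      rw [← Real.rpow_natCast]
      congr 1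
      push_cast
      ring
    rw [e]
    apply Real.exp_le_exp.2
    have h2 := log_three
    have h3 : (kk X : ℝ) ^ 2 ≤ 121 * l ^ 2 := by nlinarith
    have h4 : 0 ≤ (kk X : ℝ) ^ 2 := sq_nonneg _
    have h5 : (16 * (kk X : ℝ) ^ 2 + 16) * Real.log 3 ≤ (16 * (kk X : ℝ) ^ 2 + 16) * 1.1 :=
      mul_le_mul_of_nonneg_left h2 (by positivity)
    have h6 : 1 ≤ l ^ 2 := one_le_pow₀ h1
    linarith
  have hK := kap_le hC h1
  have hLg := one_add_log h0
  have hmain : (9 * ((u : ℝ) * (CX.NN X : ℝ)) + 9) ^ kk X * (3 ^ (16 * kk X ^ 2 + 16) * kap C X) *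
      (X * (1 + Real.log X)) ≤ Real.exp (55 * l ^ 2) * (Real.exp (2150 * l ^ 2) *
        (2 * C * Real.exp (-l ^ 3 / 12))) * (X * (2 * Real.exp l)) := by
    have := kap_nonneg hC X
    have : 0 ≤ 1 + Real.log X := by
      have := Real.log_natCast_nonneg X
      linarith
    gcongr
  refine hmain.trans ?_
  have e : Real.exp (55 * l ^ 2) * (Real.exp (2150 * l ^ 2) *
        (2 * C * Real.exp (-l ^ 3 / 12))) * (X * (2 * Real.exp l)) =
      4 * C * (X * Real.exp (55 * l ^ 2 + 2150 * l ^ 2 + -l ^ 3 / 12 + l)) := by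
    rw [Real.exp_add, Real.exp_add, Real.exp_add]
    ring
  rw [e]
  have h9 : 55 * l ^ 2 + 2150 * l ^ 2 + -l ^ 3 / 12 + l ≤ -1 * l := by
    have h10 : 40000 * l ^ 2 ≤ l ^ 3 := by
      have : l ^ 3 = l * l ^ 2 := by ring
      rw [this]
      exact mul_le_mul_of_nonneg_right (by linarith) (sq_nonneg l)
    have h11 : l ≤ l ^ 2 := by nlinarith
    linarith
  have h11 := Real.exp_le_exp.2 h9
  have hC0 : (0 : ℝ) ≤ 4 * C := by linarith
  gcongr

/-! ### The sets -/

section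
variable {u a : ℕ}

theorem SE_sub (X : ℕ) : SE u a X ⊆ SA X := by
  intro S hS
  unfold SE SA at *
  rw [mem_filter] at hS ⊢
  exact ⟨hS.1, hS.2.1.1, hS.2.2⟩

/-- the sets outside the regular part -/
theorem out_sub (t X z H k V : ℕ) :
    ((SE u a X).filter fun S => 2 * (V : ℤ) ≤ kE t S) \
      ((RE u a t X z H k V).filter fun S => NdE (sm z S) (la z S)) ⊆
      (((((SA X).filter fun S => k < S.card) ∪
      ((SA X).filter fun S => S.card ≤ k ∧
        X < (∏ p ∈ sm z S, p) * ∏ p ∈ la z S, XX H (jj H p))) ∪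
      ((SA X).filter fun S => ¬ Set.InjOn (jj H) (la z S : Set ℕ))) ∪
      ((SA X).filter fun S => (n0 z S : ℤ) < 3 * kd S + ((3 * V + 3 : ℕ) : ℤ))) ∪
      ((SA X).filter fun S => S.card ≤ k ∧ ¬ NdE (sm z S) (la z S)) := by
  intro S hS
  rw [Finset.mem_sdiff, Finset.mem_filter, Finset.mem_filter] at hS
  obtain ⟨⟨h1', hV⟩, h2⟩ := hS
  have h1 := SE_sub X h1'
  simp only [mem_union, mem_filter]
  by_contra hc
  push Not at hc
  obtain ⟨⟨⟨⟨c1, c2⟩, c3⟩, c4⟩, c5⟩ := hc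
  have d1 : S.card ≤ k := c1 h1
  have d2 := c2 h1 d1
  have d3 := c3 h1
  have d4 := c4 h1
  have d5 := c5 h1 d1
  apply h2
  refine ⟨?_, d5⟩
  unfold RE
  rw [mem_filter]
  refine ⟨h1', d3, d1, d2, hV, ?_⟩
  push_cast at d4
  unfold kE
  split_ifs <;> linarith

/-- **The proportion of the good sets.** -/
theorem t_DQ (hKY : S_KYE) (d : Dt) (hA : RecA d.A) (hco : Co u a) (h4 : 4 ∣ u)
    (ht : (d.t = 2 ∧ a % 4 = 1) ∨ (d.t = 3 ∧ a % 4 = 3)) :
    ∀ ε : ℝ, 0 < ε → ∀ᶠ X : ℕ in atTop,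
      |(((SE u a X).filter (GdE d)).card : ℝ) - c2 / 2 * ((SE u a X).card : ℝ)| ≤ ε * X := by
  intro ε hε
  have ht' : d.t = 2 ∨ d.t = 3 := by
    rcases ht with h | h
    · exact Or.inl h.1
    · exact Or.inr h.1
  have ha4 : a % 4 = (if d.t = 3 then 3 else 1) := by
    rcases ht with h | h
    · rw [if_neg (by omega)]; exact h.2
    · rw [if_pos h.1]; exact h.2
  have hu1 : 1 ≤ u := hco.pos
  -- the parameter `V`
  obtain ⟨V₀, hV₀⟩ := exists_pow_lt_of_lt_one (show 0 < ε / 12 by positivity)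
    (show (1 / 2 : ℝ) < 1 by norm_num)
  obtain ⟨V, hV1, hV2⟩ : ∃ V : ℕ, 1 ≤ V ∧ (1 / 2 : ℝ) ^ V ≤ ε / 12 := by
    refine ⟨V₀ + 1, by omega, ?_⟩
    rw [pow_succ]
    have : (0 : ℝ) < (1 / 2 : ℝ) ^ V₀ := by positivity
    linarith
  obtain ⟨C, hC1, hkey⟩ := hKY
  have s1 := sml_many Pool.Agent.L0h74.KD.CNT.t_CNT
  have s2 := sml_cut Pool.Agent.L0h74.KD.CNT.t_CNT
  have s3 := sml_coll Pool.Agent.L0h74.KD.CNT.t_CNT
  have s4 := sml_eps (Pool.Agent.L0h74.KD.FEW.t_FEW (3 * V + 3))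
  have s5 := sml_eps Pool.Agent.L0h74.EV.BAD.t_BADE
  have s8 := sml_mainE u hC1
  have stot := sml_add (sml_add (sml_add (sml_add (sml_add s1 s2) s3) s4) s5) s8
  have hev := stot (ε / 4) (by linarith)
  obtain ⟨X₁, hX₁⟩ := Pool.Agent.L0h74.EV.KDL.t_KDE hco d.t (2 * (V : ℤ)) (ε / 8) (by linarith)
  obtain ⟨X₂, hX₂⟩ := Pool.Agent.L0h74.EV.KDL.t_KDE hco d.t 0 (ε / 8) (by linarith)
  filter_upwards [hev, ev_eL 1, eventually_ge_atTop X₁, eventually_ge_atTop X₂] with X hX hl hk1 hk2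
  have hKD1 := hX₁ X hk1
  have hKD2 := hX₂ X hk2
  have hl0 : 0 < eL X := by linarith
  have hXp := X_pos hl0
  have hNN : (HH X : ℝ) * Real.log X < CX.NN X := by
    unfold CX.NN
    push_cast
    exact Nat.lt_floor_add_one _
  have hmain := hkey d ht' hA u a X (zz X) (HH X) (kk X) V (CX.NN X) (kap C X) h4 hu1 ha4 hXp
    (HH_pos hl0) (zz_pos hl) hV1 (kap_nonneg hC1 X) (kap_pow hC1 hl) hNN
  set T := (RE u a d.t X (zz X) (HH X) (kk X) V).filter
    fun S => NdE (sm (zz X) S) (la (zz X) S) with hT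
  set R := (SE u a X).filter fun S => 2 * (V : ℤ) ≤ kE d.t S with hR
  have hTG : (RE u a d.t X (zz X) (HH X) (kk X) V).filter
      (fun S => NdE (sm (zz X) S) (la (zz X) S) ∧ GdE d S) = T.filter (GdE d) := by
    rw [hT, filter_filter]
  rw [hTG] at hmain
  have hTR : T ⊆ R := by
    intro S hS
    rw [hT, mem_filter, RE, mem_filter] at hS
    rw [hR, mem_filter]
    exact ⟨hS.1.1, hS.1.2.2.2.2.1⟩
  have hRS : ((RE u a d.t X (zz X) (HH X) (kk X) V).card : ℝ) ≤ X := by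
    exact_mod_cast (card_le_card ((filter_subset _ _).trans (SE_sub X))).trans (SA_card X)
  have hcmp := cmp (GdE d) T R hTR c2 c2_mem.1 c2_mem.2
  have hout : ((R \ T).card : ℝ) ≤
      ((((((SA X).filter fun S => kk X < S.card).card : ℝ) +
      (((SA X).filter fun S => S.card ≤ kk X ∧
        X < (∏ p ∈ sm (zz X) S, p) * ∏ p ∈ la (zz X) S, XX (HH X) (jj (HH X) p)).card : ℝ)) +
      (((SA X).filter fun S => ¬ Set.InjOn (jj (HH X)) (la (zz X) S : Set ℕ)).card : ℝ)) +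
      (((SA X).filter fun S => (n0 (zz X) S : ℤ) < 3 * kd S + ((3 * V + 3 : ℕ) : ℤ)).card : ℝ) +
      (((SA X).filter fun S => S.card ≤ kk X ∧ ¬ NdE (sm (zz X) S) (la (zz X) S)).card : ℝ)) := by
    have g := card_le_card (out_sub (u := u) (a := a) d.t X (zz X) (HH X) (kk X) V)
    rw [← hT, ← hR] at g
    have g2 := (g.trans (card_union_le _ _)).trans
      (Nat.add_le_add_right ((card_union_le _ _).trans
      (Nat.add_le_add_right ((card_union_le _ _).trans
      (Nat.add_le_add_right (card_union_le _ _) _)) _)) _)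
    exact_mod_cast g2
  have g1 : 3 * (1 / 2 : ℝ) ^ V * ((RE u a d.t X (zz X) (HH X) (kk X) V).card : ℝ) ≤
      ε / 4 * X := by
    refine mul_le_mul ?_ hRS (Nat.cast_nonneg _) (by positivity)
    linarith
  -- the good sets outside `R`
  have hsplit : ((SE u a X).filter (GdE d)).card ≤ (R.filter (GdE d)).card +
      (((SE u a X).filter fun S => 0 ≤ kE d.t S).card - R.card) ∧
      R.card ≤ ((SE u a X).filter fun S => 0 ≤ kE d.t S).card ∧
      (R.filter (GdE d)).card ≤ ((SE u a X).filter (GdE d)).card := by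
    have hRsub : R ⊆ (SE u a X).filter fun S => 0 ≤ kE d.t S := by
      intro S hS
      rw [hR, mem_filter] at hS
      rw [mem_filter]
      refine ⟨hS.1, ?_⟩
      have := hS.2
      linarith [Int.natCast_nonneg V]
    refine ⟨?_, card_le_card hRsub, card_le_card (filter_subset_filter _ (filter_subset _ _))⟩
    rw [← card_sdiff_of_subset hRsub]
    refine (card_le_card ?_).trans (card_union_le _ _)
    intro S hS
    rw [mem_filter] at hS
    obtain ⟨h1, h2⟩ := hS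
    have h3 : 0 ≤ kE d.t S := Pool.Agent.L0h74.EV.NEG.t_NEGE d S ht' h2
    rw [mem_union]
    by_cases h4 : 2 * (V : ℤ) ≤ kE d.t S
    · left
      rw [mem_filter, hR, mem_filter]
      exact ⟨⟨h1, h4⟩, h2⟩
    · right
      rw [Finset.mem_sdiff, Finset.mem_filter, hR, Finset.mem_filter]
      exact ⟨⟨h1, h3⟩, fun h5 => h4 h5.2⟩
  obtain ⟨q1, q2, q3⟩ := hsplit
  have q1' : (((SE u a X).filter (GdE d)).card : ℝ) ≤ ((R.filter (GdE d)).card : ℝ) +
      ((((SE u a X).filter fun S => 0 ≤ kE d.t S).card : ℝ) - (R.card : ℝ)) := by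
    rw [← Nat.cast_sub q2]
    exact_mod_cast q1
  have q3' : ((R.filter (GdE d)).card : ℝ) ≤ (((SE u a X).filter (GdE d)).card : ℝ) := by
    exact_mod_cast q3
  have k1 := abs_le.1 hKD1
  have k2 := abs_le.1 hKD2
  have k3 := abs_le.1 hmain
  have k4 : |((R.filter (GdE d)).card : ℝ) - c2 * (R.card : ℝ)| ≤ ε / 2 * X := by
    linarith
  have k5 := abs_le.1 k4
  obtain ⟨m0, m1⟩ := c2_mem
  have k6 : |c2 * ((R.card : ℝ) - 1 / 2 * ((SE u a X).card : ℝ))| ≤ ε / 8 * X := by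
    rw [abs_mul, abs_of_nonneg m0]
    calc c2 * |(R.card : ℝ) - 1 / 2 * ((SE u a X).card : ℝ)| ≤
        1 * |(R.card : ℝ) - 1 / 2 * ((SE u a X).card : ℝ)| :=
          mul_le_mul_of_nonneg_right m1 (abs_nonneg _)
      _ ≤ ε / 8 * X := by rw [one_mul]; exact hKD1
  have k7 := abs_le.1 k6
  have k8 : ((((SE u a X).filter fun S => 0 ≤ kE d.t S).card : ℝ) - (R.card : ℝ)) ≤
      ε / 4 * X := by
    have e1 := k2.2
    have e2 := k1.1
    linarith
  have k9 : (0 : ℝ) ≤ ε * X := by positivity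
  rw [abs_le]
  constructor
  · have u1 := k5.1
    have u2 := k7.1
    clear k1 k2 k3 k4 k5 k6 k7 hX hev hmain stot hout hcmp g1
    linarith
  · have u1 := k5.2
    have u2 := k7.2
    have u3 := q1'.trans (add_le_add le_rfl k8)
    clear k1 k2 k3 k4 k5 k6 k7 hX hev hmain stot hout hcmp g1 k8 q1' hKD1 hKD2 q3'
    linarith

end

/-- **The natural density.** -/
theorem asy (hKY : S_KYE) : S_DENE := by
  intro d k a hA hau hta
  have hco : Co (2 ^ (k + 2)) a := by
    refine ⟨⟨k + 1, rfl⟩, hau, ?_⟩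
    rcases hta with h | h <;> omega
  have h4u : 4 ∣ 2 ^ (k + 2) := ⟨2 ^ k, by rw [pow_add]; ring⟩
  have key := t_DQ hKY d hA hco h4u hta
  set u := 2 ^ (k + 2) with hu
  have hlow := card_low hco
  have hnum : ∀ X : ℕ, ((Icc 1 X).filter fun D => Squarefree D ∧ D % u = a ∧ ¬ 7 ∣ D ∧
      GdE d D.primeFactors).card = ((SE u a X).filter (GdE d)).card := by
    intro X
    rw [Pool.Agent.L0h74.EV.KDL.card_eq hco]
    congr 1
    ext D
    simp only [GS, mem_filter, mem_Icc]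
    have : ¬ 7 ∣ D ↔ D % 7 ≠ 0 := by
      rw [Nat.dvd_iff_mod_eq_zero]
    rw [this]
    tauto
  have hden : ∀ X : ℕ, ((Icc 1 X).filter fun D => Squarefree D ∧ D % u = a ∧ ¬ 7 ∣ D).card =
      (SE u a X).card := by
    intro X
    rw [Pool.Agent.L0h74.EV.KDL.card_eq0 hco]
    congr 1
    ext D
    simp only [GS, mem_filter, mem_Icc]
    have : ¬ 7 ∣ D ↔ D % 7 ≠ 0 := by
      rw [Nat.dvd_iff_mod_eq_zero]
    rw [this]
  rw [Metric.tendsto_atTop]
  intro ε hε
  have hu0 : (0 : ℝ) < u := by exact_mod_cast hco.pos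
  obtain ⟨X₀, h0⟩ := eventually_atTop.1 ((key (ε / (7 * u)) (by positivity)).and hlow)
  refine ⟨X₀, fun X hX => ?_⟩
  obtain ⟨h1, h2, h3⟩ := h0 X hX
  rw [hnum, hden, Real.dist_eq]
  rw [← Pool.Agent.L0h74.EV.KDL.card_eq0 hco] at h2
  have hX0 : (0 : ℝ) < X := by exact_mod_cast h3
  rw [le_div_iff₀ hX0] at h2
  have hS : (0 : ℝ) < (SE u a X).card := by
    have : (0 : ℝ) < 2 / (7 * u) * X := by positivity
    linarith
  have e : (((SE u a X).filter (GdE d)).card : ℝ) / ((SE u a X).card : ℝ) - c2 / 2 =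
      ((((SE u a X).filter (GdE d)).card : ℝ) - c2 / 2 * ((SE u a X).card : ℝ)) /
        ((SE u a X).card : ℝ) := by
    field_simp
  rw [e, abs_div, abs_of_pos hS, div_lt_iff₀ hS]
  have h4 : ε / (7 * u) * X < ε * ((SE u a X).card : ℝ) := by
    have h5 : ε / (7 * u) * X < ε * (2 / (7 * u) * X) := by
      have h6 : 0 < ε / (7 * u) * X := by positivity
      have h7 : ε * (2 / (7 * u) * X) = 2 * (ε / (7 * u) * X) := by ring
      linarith
    have := mul_le_mul_of_nonneg_left h2 hε.le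
    linarith
  linarith

/-- **The natural density, even discriminants, unconditionally.** -/
theorem t_DENE : S_DENE := asy (Pool.Agent.L0h74.EV.KEY.t_KEYE Pool.Agent.N19.GB.t_BIL
  Pool.Agent.L0h74.EV.t_BXE)

end Pool.Agent.L0h74.EV.Den
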