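import Pool.Agent.L0h74.EV.DensA
import Pool.Agent.L0h61.EV.R2
import Pool.Agent.L0h61.EV.T2

/-!
# EV: the natural densities, unconditionally
-/

set_option autoImplicit false
set_option linter.unusedSectionVars false

open scoped Classical

namespace Pool.Agent.L0h74.EV

open Finset Filter
open scoped Topology
open Pool.Agent.Y698 Pool.Agent.Y698.SG
open Pool.Agent.L0h4.TW hiding Dt
open Pool.Agent.L0h23.ED (NSE NS3)
open Pool.Agent.L0h1.EV (Crit3 CritE)
open Pool.Agent.L0h61.EV (r2 crit3_iff critE_iff)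
open Pool.Agent.Y703.CQ (c2)

section
variable {Qf Pf : ℕ → Finset ℕ} {w : ℕ → RR}

/-- **All the square-free `D > 0` prime to `7`**, in terms of the Selmer systems. -/
theorem dens_allU (h : QPw Qf Pf w) :
    Tendsto (fun X : ℕ => (((Icc 1 X).filter fun D => Squarefree D ∧ ¬ 7 ∣ D ∧
      NSA Qf Pf w D).card : ℝ) /
      (((Icc 1 X).filter fun D => Squarefree D ∧ ¬ 7 ∣ D).card : ℝ)) atTop (𝓝 (c2 / 2)) :=
  dens_all r2 h

/-- **`D ≡ 3` modulo `4`**, in a class modulo `8`, criterion -/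
theorem dens3C (h : QPw Qf Pf w) {a : ℕ} (ha : a = 3 ∨ a = 7) :
    Tendsto (fun X : ℕ => (((Icc 1 X).filter fun D => Squarefree D ∧ D % 8 = a ∧ ¬ 7 ∣ D ∧
      Crit3 (Qf D) (Pf D) w).card : ℝ) /
      (((Icc 1 X).filter fun D => Squarefree D ∧ D % 8 = a ∧ ¬ 7 ∣ D).card : ℝ)) atTop
      (𝓝 (c2 / 2)) := by
  refine (dens3 r2 h ha).congr fun X => congrArg₂ (fun a b : ℕ => (a : ℝ) / (b : ℝ)) ?_ rfl
  refine congrArg Finset.card (Finset.filter_congr fun D _ => ?_)
  refine and_congr_right fun hsf => and_congr_right fun hDa => and_congr_right fun h7 => ?_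
  exact (crit3_iff (h.dt (by omega) h7) (h.prod hsf) (by omega)).symm

/-- **`D = 2 M`**, `M` in a class modulo `4`, criterion -/
theorem densEC (h : QPw Qf Pf w) {a : ℕ} (ha : a = 1 ∨ a = 3) :
    Tendsto (fun X : ℕ => (((Icc 1 X).filter fun M => Squarefree M ∧ M % 4 = a ∧ ¬ 7 ∣ M ∧
      CritE (if M % 4 = 3 then 1 else 0) (Qf M) (Pf M) w).card : ℝ) /
      (((Icc 1 X).filter fun M => Squarefree M ∧ M % 4 = a ∧ ¬ 7 ∣ M).card : ℝ)) atTop
      (𝓝 (c2 / 2)) := by
  refine (densE r2 h ha).congr fun X => congrArg₂ (fun a b : ℕ => (a : ℝ) / (b : ℝ)) ?_ rfl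
  refine congrArg Finset.card (Finset.filter_congr fun D _ => ?_)
  refine and_congr_right fun hsf => and_congr_right fun hDa => and_congr_right fun h7 => ?_
  exact (critE_iff (h.dt (by omega) h7) (h.prod hsf)).symm

/-- the criterion for all the square-free `D > 0` prime to `7` -/
def CritA (Qf Pf : ℕ → Finset ℕ) (w : ℕ → RR) (D : ℕ) : Prop :=
  (D % 4 = 1 ∧ NonSing (Qf D) (Pf D) w) ∨ (D % 4 = 3 ∧ Crit3 (Qf D) (Pf D) w) ∨
    (D % 2 = 0 ∧ CritE (if D / 2 % 4 = 3 then 1 else 0) (Qf (D / 2)) (Pf (D / 2)) w)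

theorem critA_iff (h : QPw Qf Pf w) {D : ℕ} (hsf : Squarefree D) (h7 : ¬ 7 ∣ D) :
    CritA Qf Pf w D ↔ NSA Qf Pf w D := by
  unfold CritA NSA
  refine or_congr Iff.rfl (or_congr (and_congr_right fun h4 => ?_) (and_congr_right fun h2 => ?_))
  · exact crit3_iff (h.dt (by omega) h7) (h.prod hsf) h4
  · have e : D = 2 * (D / 2) := by omega
    have hsf2 := hsf
    rw [e, Uni.sf_two] at hsf2
    have h7' : ¬ 7 ∣ D / 2 := fun h' => h7 (by rw [e]; exact Dvd.dvd.mul_left h' 2)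
    exact critE_iff (h.dt hsf2.1 h7') (h.prod hsf2.2)

/-- **All the square-free `D > 0` prime to `7`**, criterion. -/
theorem dens_allC (h : QPw Qf Pf w) :
    Tendsto (fun X : ℕ => (((Icc 1 X).filter fun D => Squarefree D ∧ ¬ 7 ∣ D ∧
      CritA Qf Pf w D).card : ℝ) /
      (((Icc 1 X).filter fun D => Squarefree D ∧ ¬ 7 ∣ D).card : ℝ)) atTop (𝓝 (c2 / 2)) := by
  refine (dens_allU h).congr fun X => congrArg₂ (fun a b : ℕ => (a : ℝ) / (b : ℝ)) ?_ rfl
  refine congrArg Finset.card (Finset.filter_congr fun D _ => ?_)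
  exact and_congr_right fun hsf => and_congr_right fun h7 => (critA_iff h hsf h7).symm

end

end Pool.Agent.L0h74.EV
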