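import Pool.Agent.L0h74.EV.LAE

/-!
# EV: the Selmer system, the kernel and the determinant for `D ≡ 3` modulo `4`
-/

set_option autoImplicit false
set_option linter.unusedSectionVars false

open scoped Classical

namespace Pool.Agent.L0h74.EV

open Pool.Agent.Y698 Pool.Agent.Y698.SG
open Pool.Agent.L0h4.TW hiding Dt
open Pool.Agent.L0h23.ED (lam lab S_R2 kn kl kb k7 SysE Sys3 NSE NS3)
open Pool.Agent.N973.ND (Pr m7 uu ty)

/-- trivial kernel of a matrix and of the transposed matrix -/
theorem ker_transp {κ : Type} [Fintype κ] [DecidableEq κ] (R : Matrix κ κ (ZMod 2)) :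
    (∀ v, R.mulVec v = 0 → v = 0) ↔ ∀ u, R.transpose.mulVec u = 0 → u = 0 := by
  have h1 : ∀ A : Matrix κ κ (ZMod 2), (∀ v, A.mulVec v = 0 → v = 0) ↔ A.det ≠ 0 := by
    intro A
    rw [Ne, ← Matrix.exists_mulVec_eq_zero_iff]
    push Not
    exact ⟨fun h v hv hA => hv (h v hA), fun h v hA => by
      by_contra hv
      exact h v hv hA⟩
  rw [h1, h1, Matrix.det_transpose]

section abs

variable {ι : Type} [DecidableEq ι]

/-- the kernel of the rows is trivial, `D ≡ 3` modulo `4` -/
def KerO (I : Finset ι) (c n l lb m7' : ι → ZMod 2) (m : ι → ι → ZMod 2) : Prop :=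
  ∀ (x : ι → ZMod 2) (xb w : ZMod 2),
    (∀ i ∈ I, c i * x i + ∑ j ∈ I, m i j * (x i + x j) + n i * (x i + xb) + l i * w = 0) →
    xb + ∑ j ∈ I, lb j * (xb + x j) + w = 0 →
    ∑ j ∈ I, m7' j * x j + xb + w = 0 →
    (∀ i ∈ I, x i = 0) ∧ xb = 0 ∧ w = 0

variable {I : Finset ι} {L : ZMod 2} {c n l lb m7' : ι → ZMod 2} {m : ι → ι → ZMod 2}

/-- the matrix -/
def RO (I : Finset ι) (c n l lb m7' : ι → ZMod 2) (m : ι → ι → ZMod 2) :
    Matrix (Option (Option I)) (Option (Option I)) (ZMod 2)
  | none, none => 1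
  | none, some none => 1
  | none, some (some j) => m7' j
  | some none, none => 1
  | some none, some none => 1 + ∑ k ∈ I, lb k
  | some none, some (some j) => lb j
  | some (some i), none => l i
  | some (some i), some none => n i
  | some (some i), some (some j) =>
      if i = j then n i + c i + ∑ k ∈ I.erase i, m i k else m i j

/-- a vector -/
def vec (I : Finset ι) (a b : ZMod 2) (x : ι → ZMod 2) : Option (Option I) → ZMod 2
  | none => a
  | some none => b
  | some (some i) => x i

lemma sum_oo (I : Finset ι) (f : Option (Option I) → ZMod 2) (g : ι → ZMod 2)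
    (h : ∀ i : I, f (some (some i)) = g i) :
    ∑ k, f k = f none + f (some none) + ∑ i ∈ I, g i := by
  rw [Fintype.sum_option, Fintype.sum_option, ← add_assoc, ← Finset.sum_coe_sort I g]
  congr 1
  exact Finset.sum_congr rfl fun i _ => h i

lemma off_sum (i : ι) (hi : i ∈ I) (d : ZMod 2) (g x : ι → ZMod 2) :
    ∑ j ∈ I, (if i = j then d else g j) * x j = d * x i + ∑ j ∈ I.erase i, g j * x j := by
  rw [← Finset.add_sum_erase I _ hi, if_pos rfl]
  congr 1
  refine Finset.sum_congr rfl fun j hj => ?_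
  rw [if_neg (Finset.ne_of_mem_erase hj).symm]

lemma RO_none (a b : ZMod 2) (x : ι → ZMod 2) :
    (RO I c n l lb m7' m).mulVec (vec I a b x) none = ∑ j ∈ I, m7' j * x j + b + a := by
  show ∑ k, RO I c n l lb m7' m none k * vec I a b x k = _
  rw [sum_oo I _ (fun j => m7' j * x j) (fun i => rfl)]
  show 1 * a + 1 * b + _ = _
  ring

lemma RO_b (a b : ZMod 2) (x : ι → ZMod 2) :
    (RO I c n l lb m7' m).mulVec (vec I a b x) (some none) =
      b + ∑ j ∈ I, lb j * (b + x j) + a := by
  show ∑ k, RO I c n l lb m7' m (some none) k * vec I a b x k = _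
  rw [sum_oo I _ (fun j => lb j * x j) (fun i => rfl)]
  show 1 * a + (1 + ∑ k ∈ I, lb k) * b + _ = _
  have h1 : ∑ j ∈ I, lb j * (b + x j) = (∑ k ∈ I, lb k) * b + ∑ j ∈ I, lb j * x j := by
    rw [Finset.sum_mul, ← Finset.sum_add_distrib]
    exact Finset.sum_congr rfl fun j _ => by ring
  rw [h1]
  ring

lemma RO_i (a b : ZMod 2) (x : ι → ZMod 2) (i : I) :
    (RO I c n l lb m7' m).mulVec (vec I a b x) (some (some i)) =
      c i * x i + ∑ j ∈ I, m i j * (x i + x j) + n i * (x i + b) + l i * a := by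
  show ∑ k, RO I c n l lb m7' m (some (some i)) k * vec I a b x k = _
  rw [sum_oo I _ (fun j => (if (i : ι) = j then n i + c i + ∑ k ∈ I.erase i, m i k else m i j) * x j)
    (fun j => by
      show (if i = j then n i + c i + ∑ k ∈ I.erase i, m i k else m i j) * x j = _
      by_cases hij : i = j
      · rw [if_pos hij, if_pos (congrArg Subtype.val hij)]
      · rw [if_neg hij, if_neg (fun h' => hij (Subtype.ext h'))])]
  rw [off_sum (i : ι) i.2]
  show l i * a + n i * b + _ = _
  rw [← Finset.add_sum_erase I (fun j => m i j * (x i + x j)) i.2, two_self, mul_zero, zero_add]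
  have h1 : ∑ j ∈ I.erase i, m i j * (x i + x j) = (∑ k ∈ I.erase (i : ι), m i k) * x i +
      ∑ j ∈ I.erase (i : ι), m i j * x j := by
    rw [Finset.sum_mul, ← Finset.sum_add_distrib]
    exact Finset.sum_congr rfl fun j _ => by ring
  rw [h1]
  ring

lemma ROt_none (a b : ZMod 2) (x : ι → ZMod 2) :
    (RO I c n l lb m7' m).transpose.mulVec (vec I a b x) none = b + a + ∑ i ∈ I, l i * x i := by
  show ∑ k, RO I c n l lb m7' m k none * vec I a b x k = _
  rw [sum_oo I _ (fun j => l j * x j) (fun i => rfl)]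
  show 1 * a + 1 * b + _ = _
  ring

lemma ROt_b (a b : ZMod 2) (x : ι → ZMod 2) :
    (RO I c n l lb m7' m).transpose.mulVec (vec I a b x) (some none) =
      (1 + ∑ k ∈ I, lb k) * b + a + ∑ i ∈ I, n i * x i := by
  show ∑ k, RO I c n l lb m7' m k (some none) * vec I a b x k = _
  rw [sum_oo I _ (fun j => n j * x j) (fun i => rfl)]
  show 1 * a + (1 + ∑ k ∈ I, lb k) * b + _ = _
  ring

lemma ROt_j (hr : Recip n m I) (hn : ∑ i ∈ I, n i = 0) (h7 : ∀ j ∈ I, m7' j = c j + n j)
    (a b : ZMod 2) (x : ι → ZMod 2) (j : I) :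
    (RO I c n l lb m7' m).transpose.mulVec (vec I a b x) (some (some j)) =
      b * lb j + a * m7' j + ∑ i ∈ I.erase j, m i j * x i +
      x j * (n j + m7' j + ∑ i ∈ I.erase j, m i j) := by
  show ∑ k, RO I c n l lb m7' m k (some (some j)) * vec I a b x k = _
  rw [sum_oo I _ (fun i => (if (j : ι) = i then n j + c j + ∑ k ∈ I.erase j, m j k else m i j) * x i)
    (fun i => by
      show (if i = j then n i + c i + ∑ k ∈ I.erase i, m i k else m i j) * x i = _
      by_cases hij : i = j
      · subst hij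
        rw [if_pos rfl, if_pos rfl]
      · rw [if_neg hij, if_neg (fun h' => hij (Subtype.ext h'.symm))])]
  rw [off_sum (j : ι) j.2]
  show m7' j * a + lb j * b + _ = _
  have h1 := hr.row j.2
  rw [hn, zero_add, mul_one] at h1
  rw [h7 j j.2]
  linear_combination x j * h1 - x j * two_self (∑ k ∈ I.erase (j : ι), m k j)

lemma vec_eq (v : Option (Option I) → ZMod 2) :
    ∃ a b x, v = vec I a b x := by
  refine ⟨v none, v (some none), fun i => if hi : i ∈ I then v (some (some ⟨i, hi⟩)) else 0, ?_⟩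
  funext k
  rcases k with _ | _ | i
  · rfl
  · rfl
  · show v (some (some i)) = if hi : (i : ι) ∈ I then v (some (some ⟨i, hi⟩)) else 0
    rw [dif_pos i.2]

lemma vec_zero (a b : ZMod 2) (x : ι → ZMod 2) :
    vec I a b x = 0 ↔ a = 0 ∧ b = 0 ∧ ∀ i ∈ I, x i = 0 := by
  constructor
  · intro h
    exact ⟨congrFun h none, congrFun h (some none), fun i hi => congrFun h (some (some ⟨i, hi⟩))⟩
  · rintro ⟨h1, h2, h3⟩
    funext k
    rcases k with _ | _ | i
    · exact h1
    · exact h2
    · exact h3 i i.2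

lemma kerO_RO : KerO I c n l lb m7' m ↔ ∀ v, (RO I c n l lb m7' m).mulVec v = 0 → v = 0 := by
  constructor
  · intro hk v hv
    obtain ⟨a, b, x, rfl⟩ := vec_eq v
    obtain ⟨h1, h2, h3⟩ := hk x b a
      (fun i hi => by
        rw [← RO_i (c := c) (n := n) (l := l) (lb := lb) (m7' := m7') (m := m) a b x ⟨i, hi⟩, hv]
        rfl)
      (by
        rw [← RO_b (c := c) (n := n) (l := l) (lb := lb) (m7' := m7') (m := m) a b x, hv]
        rfl)
      (by
        rw [← RO_none (c := c) (n := n) (l := l) (lb := lb) (m7' := m7') (m := m) a b x, hv]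
        rfl)
    exact (vec_zero a b x).2 ⟨h3, h2, h1⟩
  · intro hk x xb w h1 h2 h3
    have h4 := hk (vec I w xb x) (by
      funext k
      rcases k with _ | _ | i
      · rw [RO_none]
        exact h3
      · rw [RO_b]
        exact h2
      · rw [RO_i]
        exact h1 i i.2)
    obtain ⟨h5, h6, h7⟩ := (vec_zero w xb x).1 h4
    exact ⟨h7, h6, h5⟩

/-- **The Selmer system and the kernel.** -/
theorem sys3_ker (hr : Recip n m I) (hn : ∑ i ∈ I, n i = 0) (hL : L = 1 + ∑ i ∈ I, lb i)
    (hl : ∑ i ∈ I, l i = ∑ i ∈ I, lb i) (h7 : ∀ j ∈ I, m7' j = c j + n j) :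
    Sys3 I L n l lb m7' m ↔ KerO I c n l lb m7' m := by
  rw [kerO_RO, ker_transp]
  constructor
  · intro hs v hv
    obtain ⟨a, b, x, rfl⟩ := vec_eq v
    have h1 := congrFun hv none
    have h2 := congrFun hv (some none)
    rw [ROt_none] at h1
    rw [ROt_b] at h2
    rcases hs 0 b a x (by rw [mul_zero]; exact h1) (by rw [zero_add, hL]; exact h2)
      (fun j hj => by
        have h3 := congrFun hv (some (some ⟨j, hj⟩))
        rw [ROt_j hr hn h7] at h3
        rw [zero_mul, zero_add]
        exact h3) with h4 | h4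
    · exact (vec_zero a b x).2 ⟨h4.2.2.1, h4.2.1, h4.2.2.2⟩
    · exact absurd h4.1 (by decide)
  · intro hk s z e x h1 h2 h3
    have hs : s = 0 ∨ s = 1 := (by decide : ∀ s : ZMod 2, s = 0 ∨ s = 1) s
    rcases hs with rfl | rfl
    · left
      have h4 := hk (vec I e z x) (by
        funext k
        rcases k with _ | _ | j
        · rw [ROt_none]
          rw [mul_zero] at h1
          exact h1
        · rw [ROt_b, ← hL]
          rw [zero_add] at h2
          exact h2
        · rw [ROt_j hr hn h7]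
          have h5 := h3 j j.2
          rw [zero_mul, zero_add] at h5
          exact h5)
      obtain ⟨h5, h6, h7⟩ := (vec_zero e z x).1 h4
      exact ⟨rfl, h6, h5, h7⟩
    · right
      have h4 := hk (vec I (e + 1) z (fun i => x i + 1)) (by
        funext k
        rcases k with _ | _ | j
        · rw [ROt_none]
          have h5 : ∑ i ∈ I, l i * (x i + 1) = ∑ i ∈ I, l i * x i + ∑ i ∈ I, l i := by
            rw [← Finset.sum_add_distrib]
            exact Finset.sum_congr rfl fun i _ => by ring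
          rw [h5, hl]
          rw [mul_one, hL] at h1
          show _ = 0
          linear_combination h1 + two_self (∑ i ∈ I, lb i) + two_self (1 : ZMod 2)
        · rw [ROt_b, ← hL]
          have h5 : ∑ i ∈ I, n i * (x i + 1) = ∑ i ∈ I, n i * x i + ∑ i ∈ I, n i := by
            rw [← Finset.sum_add_distrib]
            exact Finset.sum_congr rfl fun i _ => by ring
          rw [h5, hn]
          show _ = 0
          linear_combination h2
        · rw [ROt_j hr hn h7]
          have h5 : ∑ i ∈ I.erase (j : ι), m i j * (x i + 1) =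
              ∑ i ∈ I.erase (j : ι), m i j * x i + ∑ i ∈ I.erase (j : ι), m i j := by
            rw [← Finset.sum_add_distrib]
            exact Finset.sum_congr rfl fun i _ => by ring
          rw [h5]
          have h6 := h3 j j.2
          rw [one_mul] at h6
          show _ = 0
          linear_combination h6 + two_self (m7' j) + two_self (∑ i ∈ I.erase (j : ι), m i j))
      obtain ⟨h5, h6, h7⟩ := (vec_zero (e + 1) z (fun i => x i + 1)).1 h4
      refine ⟨rfl, h6, ?_, fun i hi => ?_⟩
      · linear_combination h5 - two_self (1 : ZMod 2)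
      · have h8 := h7 i hi
        linear_combination h8 - two_self (1 : ZMod 2)

end abs

section
variable {Q P : Finset ℕ} {ϖ : ℕ → RR}

/-- **The condition for `D ≡ 3` modulo `4`.** -/
theorem ns3_iff (r2 : S_R2) (h : DT Q P ϖ) {D : ℕ} (hD : D = ∏ q ∈ Q ∪ P, q) (hD4 : D % 4 = 3) :
    NS3 Q P ϖ D ↔ GdE (dtO ϖ (fun p => lam (ϖ p)) (if D % 8 = 3 then 1 else 0)) (Q ∪ P) := by
  have hl := lam_k r2 h
  have hn := par_kn h
  have hσ : (if D % 8 = 3 then 1 else 0 : ZMod 2) = ∑ j ∈ Q ∪ P, n2 j := by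
    rw [← (n2_prod (Q ∪ P) (oddQP h)).2, ← hD]
    unfold n2
    by_cases h8 : D % 8 = 3
    · rw [if_pos h8, if_pos (Or.inl h8)]
    · rw [if_neg h8, if_neg (fun h' => h'.elim h8 (by omega))]
  have hL : (if D % 8 = 7 then 1 else 0 : ZMod 2) = 1 + ∑ i ∈ ix Q P, kb (pfx Q ϖ) i := by
    rw [kb_sum h hl, ← hσ]
    by_cases h8 : D % 8 = 3
    · rw [if_pos h8, if_neg (by omega)]
      decide
    · rw [if_neg h8, if_pos (by omega), add_zero]
  have hls : ∑ i ∈ ix Q P, kl (pfx Q ϖ) i = ∑ i ∈ ix Q P, kb (pfx Q ϖ) i := by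
    rw [kl_sum h hl, kb_sum h hl]
  have h7 : ∀ j ∈ ix Q P, k7 (pfx Q ϖ) j = mc (pfx Q ϖ) j + kn (pfx Q ϖ) j := k7_eq h
  unfold NS3
  rw [sys3_ker (recip_k h) (kn_sum h) hL hls h7, ← trO h hl hn hσ]
  have e : ∀ x : ℕ × Bool → ZMod 2, ∑ j ∈ ix Q P, k7 (pfx Q ϖ) j * x j =
      ∑ j ∈ ix Q P, (mc (pfx Q ϖ) j + kn (pfx Q ϖ) j) * x j := fun x =>
    Finset.sum_congr rfl fun j hj => by rw [h7 j hj]
  unfold KerO kor
  constructor
  · intro hk x xb w h1 h2 h3
    exact hk x xb w h1 h2 (by rw [e x]; exact h3)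
  · intro hk x xb w h1 h2 h3
    exact hk x xb w h1 h2 (by rw [← e x]; exact h3)

end

end Pool.Agent.L0h74.EV
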