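import Mathlib

/-!
# EV: the natural density over all the square-free numbers prime to `7` from the classes
-/

set_option autoImplicit false

namespace Pool.Agent.L0h74.EV.Uni

open Finset Filter
open scoped Topology

open Classical in
/-- the indicator -/
noncomputable def ind (p : Prop) : ℝ := if p then 1 else 0

theorem ind_pos {p : Prop} (h : p) : ind p = 1 := if_pos h

theorem ind_neg {p : Prop} (h : ¬ p) : ind p = 0 := if_neg h

theorem ind_nonneg (p : Prop) : 0 ≤ ind p := by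
  by_cases h : p
  · rw [ind_pos h]; exact zero_le_one
  · rw [ind_neg h]

theorem ind_congr {p q : Prop} (h : p ↔ q) : ind p = ind q := by
  by_cases hp : p
  · rw [ind_pos hp, ind_pos (h.1 hp)]
  · rw [ind_neg hp, ind_neg (fun hq => hp (h.2 hq))]

/-- the count of a predicate -/
noncomputable def cn (T : ℕ → Prop) (X : ℕ) : ℝ := ∑ D ∈ Icc 1 X, ind (T D)

theorem card_cn (T : ℕ → Prop) [DecidablePred T] (X : ℕ) :
    (((Icc 1 X).filter T).card : ℝ) = cn T X := by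
  rw [Finset.card_filter]
  push_cast
  refine Finset.sum_congr rfl fun D _ => ?_
  by_cases h : T D
  · rw [if_pos h, ind_pos h]
  · rw [if_neg h, ind_neg h]

theorem cn_congr {T U : ℕ → Prop} (h : ∀ D, T D ↔ U D) (X : ℕ) : cn T X = cn U X :=
  Finset.sum_congr rfl fun D _ => ind_congr (h D)

theorem cn_nonneg (T : ℕ → Prop) (X : ℕ) : 0 ≤ cn T X :=
  Finset.sum_nonneg fun _ _ => ind_nonneg _

theorem cn_mono {T U : ℕ → Prop} (h : ∀ D, T D → U D) (X : ℕ) : cn T X ≤ cn U X := by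
  refine Finset.sum_le_sum fun D _ => ?_
  by_cases h1 : T D
  · rw [ind_pos h1, ind_pos (h D h1)]
  · rw [ind_neg h1]
    exact ind_nonneg _

/-- the error form of a limit of a proportion -/
theorem err_of {T G : ℕ → Prop} {c : ℝ}
    (h : Tendsto (fun X : ℕ => cn (fun D => T D ∧ G D) X / cn T X) atTop (𝓝 c)) (ε : ℝ)
    (hε : 0 < ε) : ∀ᶠ X : ℕ in atTop,
      |cn (fun D => T D ∧ G D) X - c * cn T X| ≤ ε * cn T X := by
  rw [Metric.tendsto_atTop] at h
  obtain ⟨N, hN⟩ := h ε hε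
  filter_upwards [eventually_ge_atTop N] with X hX
  have h1 := hN X hX
  rw [Real.dist_eq] at h1
  have h0 := cn_nonneg T X
  rcases h0.eq_or_lt with h2 | h2
  · have h3 : cn (fun D => T D ∧ G D) X ≤ cn T X := cn_mono (fun D hD => hD.1) X
    have h4 := cn_nonneg (fun D => T D ∧ G D) X
    have h5 : cn (fun D => T D ∧ G D) X = 0 := by linarith
    rw [h5, ← h2]
    simp
  · have e : cn (fun D => T D ∧ G D) X - c * cn T X =
        (cn (fun D => T D ∧ G D) X / cn T X - c) * cn T X := by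
      field_simp
    rw [e, abs_mul, abs_of_pos h2]
    exact mul_le_mul_of_nonneg_right h1.le h2.le

/-- the doubled class -/
theorem cn_double (T : ℕ → Prop) (X : ℕ) :
    cn (fun D => D % 2 = 0 ∧ T (D / 2)) X = cn T (X / 2) := by
  induction X with
  | zero => rfl
  | succ X ih =>
    have e1 : cn (fun D => D % 2 = 0 ∧ T (D / 2)) (X + 1) =
        cn (fun D => D % 2 = 0 ∧ T (D / 2)) X + ind ((X + 1) % 2 = 0 ∧ T ((X + 1) / 2)) := by
      unfold cn
      rw [Finset.sum_Icc_succ_top (by omega)]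
    rw [e1, ih]
    rcases (by omega : (X + 1) % 2 = 0 ∨ (X + 1) % 2 = 1) with h | h
    · have e2 : (X + 1) / 2 = X / 2 + 1 := by omega
      rw [e2]
      have e3 : cn T (X / 2 + 1) = cn T (X / 2) + ind (T (X / 2 + 1)) := by
        unfold cn
        rw [Finset.sum_Icc_succ_top (by omega)]
      rw [e3, ind_congr (show ((X + 1) % 2 = 0 ∧ T (X / 2 + 1)) ↔ T (X / 2 + 1) from
        ⟨fun h' => h'.2, fun h' => ⟨h, h'⟩⟩)]
    · have e2 : (X + 1) / 2 = X / 2 := by omega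
      rw [e2, ind_neg (fun h' => by omega), add_zero]

theorem err_add {a b a' b' c ε : ℝ} (h1 : |a - c * b| ≤ ε * b) (h2 : |a' - c * b'| ≤ ε * b') :
    |(a + a') - c * (b + b')| ≤ ε * (b + b') := by
  have e : (a + a') - c * (b + b') = (a - c * b) + (a' - c * b') := by ring
  rw [e]
  calc _ ≤ |a - c * b| + |a' - c * b'| := abs_add_le _ _
    _ ≤ _ := by linarith

theorem sf_two (m : ℕ) : Squarefree (2 * m) ↔ m % 2 = 1 ∧ Squarefree m := by
  constructor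
  · intro h
    refine ⟨?_, h.squarefree_of_dvd (Dvd.intro_left 2 rfl)⟩
    by_contra hm
    have h4 : 2 * 2 ∣ 2 * m := Nat.mul_dvd_mul_left 2 (by omega)
    have := h 2 h4
    rw [Nat.isUnit_iff] at this
    omega
  · rintro ⟨h1, h2⟩
    rw [Nat.squarefree_mul (by
      rw [Nat.coprime_two_left]
      exact Nat.odd_iff.2 h1)]
    exact ⟨Nat.prime_two.prime.squarefree, h2⟩

/-- the classes -/
def T1 (D : ℕ) : Prop := Squarefree D ∧ D % 4 = 1 ∧ ¬ 7 ∣ D
def T3 (a D : ℕ) : Prop := Squarefree D ∧ D % 8 = a ∧ ¬ 7 ∣ D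
def T2 (a m : ℕ) : Prop := Squarefree m ∧ m % 4 = a ∧ ¬ 7 ∣ m
def T0 (D : ℕ) : Prop := Squarefree D ∧ ¬ 7 ∣ D

/-- the decomposition of the square-free numbers prime to `7` -/
theorem dec (G : ℕ → Prop) (X : ℕ) : cn (fun D => T0 D ∧ G D) X =
      cn (fun D => T1 D ∧ G D) X + cn (fun D => T3 3 D ∧ G D) X +
      cn (fun D => T3 7 D ∧ G D) X + cn (fun m => T2 1 m ∧ G (2 * m)) (X / 2) +
      cn (fun m => T2 3 m ∧ G (2 * m)) (X / 2) := by
  rw [← cn_double (fun m => T2 1 m ∧ G (2 * m)) X, ← cn_double (fun m => T2 3 m ∧ G (2 * m)) X]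
  unfold cn
  rw [← Finset.sum_add_distrib, ← Finset.sum_add_distrib, ← Finset.sum_add_distrib,
    ← Finset.sum_add_distrib]
  refine Finset.sum_congr rfl fun D _ => ?_
  have n1 : D % 4 ≠ 1 → ind (T1 D ∧ G D) = 0 := fun h => ind_neg fun h' => h h'.1.2.1
  have n3 : D % 8 ≠ 3 → ind (T3 3 D ∧ G D) = 0 := fun h => ind_neg fun h' => h h'.1.2.1
  have n7 : D % 8 ≠ 7 → ind (T3 7 D ∧ G D) = 0 := fun h => ind_neg fun h' => h h'.1.2.1
  have n21 : ¬ (D % 2 = 0 ∧ D / 2 % 4 = 1) →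
      ind (D % 2 = 0 ∧ T2 1 (D / 2) ∧ G (2 * (D / 2))) = 0 :=
    fun h => ind_neg fun h' => h ⟨h'.1, h'.2.1.2.1⟩
  have n23 : ¬ (D % 2 = 0 ∧ D / 2 % 4 = 3) →
      ind (D % 2 = 0 ∧ T2 3 (D / 2) ∧ G (2 * (D / 2))) = 0 :=
    fun h => ind_neg fun h' => h ⟨h'.1, h'.2.1.2.1⟩
  have hev : D % 2 = 0 → (T0 D ↔ (D / 2) % 2 = 1 ∧ Squarefree (D / 2) ∧ ¬ 7 ∣ D / 2) := by
    intro h
    have e : D = 2 * (D / 2) := by omega
    unfold T0
    constructor
    · rintro ⟨h1, h2⟩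
      rw [e, sf_two] at h1
      exact ⟨h1.1, h1.2, fun h' => h2 (by rw [e]; exact Dvd.dvd.mul_left h' 2)⟩
    · rintro ⟨h1, h2, h3⟩
      refine ⟨by rw [e, sf_two]; exact ⟨h1, h2⟩, fun h' => h3 ?_⟩
      omega
  rcases (by omega : D % 4 = 1 ∨ D % 8 = 3 ∨ D % 8 = 7 ∨ (D % 2 = 0 ∧ D / 2 % 4 = 1) ∨
    (D % 2 = 0 ∧ D / 2 % 4 = 3) ∨ (D % 2 = 0 ∧ D / 2 % 2 = 0)) with h | h | h | h | h | h
  · rw [n3 (by omega), n7 (by omega), n21 (by omega), n23 (by omega), add_zero, add_zero,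
      add_zero, add_zero]
    exact ind_congr ⟨fun h' => ⟨⟨h'.1.1, h, h'.1.2⟩, h'.2⟩, fun h' => ⟨⟨h'.1.1, h'.1.2.2⟩, h'.2⟩⟩
  · rw [n1 (by omega), n7 (by omega), n21 (by omega), n23 (by omega), add_zero, add_zero,
      add_zero, zero_add]
    exact ind_congr ⟨fun h' => ⟨⟨h'.1.1, h, h'.1.2⟩, h'.2⟩, fun h' => ⟨⟨h'.1.1, h'.1.2.2⟩, h'.2⟩⟩
  · rw [n1 (by omega), n3 (by omega), n21 (by omega), n23 (by omega), add_zero, add_zero,
      zero_add, zero_add]
    exact ind_congr ⟨fun h' => ⟨⟨h'.1.1, h, h'.1.2⟩, h'.2⟩, fun h' => ⟨⟨h'.1.1, h'.1.2.2⟩, h'.2⟩⟩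
  · have e : 2 * (D / 2) = D := by omega
    rw [n1 (by omega), n3 (by omega), n7 (by omega), n23 (by omega), add_zero, zero_add,
      zero_add, zero_add]
    refine ind_congr ?_
    show (T0 D ∧ G D) ↔ (D % 2 = 0 ∧ T2 1 (D / 2) ∧ G (2 * (D / 2)))
    rw [e]
    exact ⟨fun h' => ⟨h.1, ⟨((hev h.1).1 h'.1).2.1, h.2, ((hev h.1).1 h'.1).2.2⟩, h'.2⟩,
      fun h' => ⟨(hev h.1).2 ⟨by omega, h'.2.1.1, h'.2.1.2.2⟩, h'.2.2⟩⟩
  · have e : 2 * (D / 2) = D := by omega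
    rw [n1 (by omega), n3 (by omega), n7 (by omega), n21 (by omega), add_zero, zero_add,
      zero_add, zero_add]
    refine ind_congr ?_
    show (T0 D ∧ G D) ↔ (D % 2 = 0 ∧ T2 3 (D / 2) ∧ G (2 * (D / 2)))
    rw [e]
    exact ⟨fun h' => ⟨h.1, ⟨((hev h.1).1 h'.1).2.1, h.2, ((hev h.1).1 h'.1).2.2⟩, h'.2⟩,
      fun h' => ⟨(hev h.1).2 ⟨by omega, h'.2.1.1, h'.2.1.2.2⟩, h'.2.2⟩⟩
  · rw [n1 (by omega), n3 (by omega), n7 (by omega), n21 (by omega), n23 (by omega), add_zero,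
      add_zero, add_zero, add_zero]
    exact ind_neg fun h' => by
      have := ((hev h.1).1 h'.1).1
      omega

open Classical in
/-- **The union of the classes**: `G` is the property, `c` the proportion. -/
theorem union_dens (G : ℕ → Prop) (c : ℝ)
    (h1 : Tendsto (fun X : ℕ => (((Icc 1 X).filter fun D => Squarefree D ∧ D % 4 = 1 ∧ ¬ 7 ∣ D ∧
      G D).card : ℝ) / (((Icc 1 X).filter fun D => Squarefree D ∧ D % 4 = 1 ∧ ¬ 7 ∣ D).card : ℝ))
      atTop (𝓝 c))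
    (h3 : ∀ a, a = 3 ∨ a = 7 → Tendsto (fun X : ℕ => (((Icc 1 X).filter fun D => Squarefree D ∧
      D % 8 = a ∧ ¬ 7 ∣ D ∧ G D).card : ℝ) /
      (((Icc 1 X).filter fun D => Squarefree D ∧ D % 8 = a ∧ ¬ 7 ∣ D).card : ℝ)) atTop (𝓝 c))
    (h2 : ∀ a, a = 1 ∨ a = 3 → Tendsto (fun X : ℕ => (((Icc 1 X).filter fun m => Squarefree m ∧
      m % 4 = a ∧ ¬ 7 ∣ m ∧ G (2 * m)).card : ℝ) /
      (((Icc 1 X).filter fun m => Squarefree m ∧ m % 4 = a ∧ ¬ 7 ∣ m).card : ℝ)) atTop (𝓝 c)) :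
    Tendsto (fun X : ℕ => (((Icc 1 X).filter fun D => Squarefree D ∧ ¬ 7 ∣ D ∧ G D).card : ℝ) /
      (((Icc 1 X).filter fun D => Squarefree D ∧ ¬ 7 ∣ D).card : ℝ)) atTop (𝓝 c) := by
  have g1 : Tendsto (fun X : ℕ => cn (fun D => T1 D ∧ G D) X / cn T1 X) atTop (𝓝 c) := by
    refine h1.congr fun X => ?_
    rw [card_cn, card_cn]
    rw [cn_congr (U := fun D => T1 D ∧ G D) (fun D => by unfold T1; tauto)]
    rfl
  have g3 : ∀ a, a = 3 ∨ a = 7 →
      Tendsto (fun X : ℕ => cn (fun D => T3 a D ∧ G D) X / cn (T3 a) X) atTop (𝓝 c) := by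
    intro a ha
    refine (h3 a ha).congr fun X => ?_
    rw [card_cn, card_cn]
    rw [cn_congr (U := fun D => T3 a D ∧ G D) (fun D => by unfold T3; tauto)]
    rfl
  have g2 : ∀ a, a = 1 ∨ a = 3 →
      Tendsto (fun X : ℕ => cn (fun m => T2 a m ∧ G (2 * m)) X / cn (T2 a) X) atTop (𝓝 c) := by
    intro a ha
    refine (h2 a ha).congr fun X => ?_
    rw [card_cn, card_cn]
    rw [cn_congr (U := fun D => T2 a D ∧ G (2 * D)) (fun D => by unfold T2; tauto)]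
    rfl
  have hhalf : Tendsto (fun X : ℕ => X / 2) atTop atTop :=
    Nat.tendsto_div_const_atTop (by norm_num)
  rw [Metric.tendsto_atTop]
  intro ε hε
  have e1 := err_of g1 (ε / 2) (by linarith)
  have e3 := err_of (g3 3 (Or.inl rfl)) (ε / 2) (by linarith)
  have e7 := err_of (g3 7 (Or.inr rfl)) (ε / 2) (by linarith)
  have e21 := hhalf.eventually (err_of (g2 1 (Or.inl rfl)) (ε / 2) (by linarith))
  have e23 := hhalf.eventually (err_of (g2 3 (Or.inr rfl)) (ε / 2) (by linarith))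
  obtain ⟨N, hN⟩ := eventually_atTop.1
    ((((e1.and e3).and e7).and e21).and (e23.and (eventually_ge_atTop 1)))
  refine ⟨N, fun X hX => ?_⟩
  obtain ⟨⟨⟨⟨f1, f3⟩, f7⟩, f21⟩, f23, hX1⟩ := hN X hX
  have d1 := dec G X
  have d0 := dec (fun _ => True) X
  have ht : ∀ (T : ℕ → Prop) (Y : ℕ), cn (fun D => T D ∧ True) Y = cn T Y :=
    fun T Y => cn_congr (fun D => and_iff_left trivial) Y
  rw [ht T0, ht T1, ht (T3 3), ht (T3 7), ht (T2 1), ht (T2 3)] at d0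
  have htot := err_add (err_add (err_add (err_add f1 f3) f7) f21) f23
  rw [← d1, ← d0] at htot
  have hpos : 0 < cn T0 X := by
    have h1' : ind (T0 1) ≤ cn T0 X :=
      Finset.single_le_sum (f := fun D => ind (T0 D)) (fun D _ => ind_nonneg _)
        (Finset.mem_Icc.2 ⟨le_rfl, hX1⟩)
    rw [ind_pos (show T0 1 from ⟨squarefree_one, by norm_num⟩)] at h1'
    linarith
  rw [Real.dist_eq, card_cn, card_cn,
    cn_congr (U := fun D => T0 D ∧ G D) (fun D => by unfold T0; tauto)]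
  have hden : cn (fun D => Squarefree D ∧ ¬ 7 ∣ D) X = cn T0 X := rfl
  rw [hden]
  have e : cn (fun D => T0 D ∧ G D) X / cn T0 X - c =
      (cn (fun D => T0 D ∧ G D) X - c * cn T0 X) / cn T0 X := by
    field_simp
  rw [e, abs_div, abs_of_pos hpos, div_lt_iff₀ hpos]
  calc _ ≤ ε / 2 * cn T0 X := htot
    _ < ε * cn T0 X := by
      apply mul_lt_mul_of_pos_right _ hpos
      linarith

end Pool.Agent.L0h74.EV.Uni
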