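import Pool.Agent.L0h74.EV.Den
import Pool.Agent.L0h74.EV.LAO
import Pool.Agent.L0h74.EV.Uni
import Pool.Agent.L0h74.KD.Fin

/-!
# EV: the natural density of the numbers with a trivial Selmer system, over all the square-free numbers
prime to `7`
-/

set_option autoImplicit false
set_option linter.unusedSectionVars false

open scoped Classical

namespace Pool.Agent.L0h74.EV

open Finset Filter
open scoped Topology
open Pool.Agent.Y698 Pool.Agent.Y698.SG
open Pool.Agent.L0h4.TW hiding Dt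
open Pool.Agent.L0h23.KD (Aw bw tr recA)
open Pool.Agent.L0h23.ED (lam lab S_R2 kn kl kb k7 SysE Sys3 NSE NS3)
open Pool.Agent.N973.ND (Pr m7 uu ty RecA)
open Pool.Agent.Y703.CQ (c2)

/-- the data: `Q D` the inert and `P D` the split prime factors of `D`, `w` the prime elements -/
structure QPw (Qf Pf : ℕ → Finset ℕ) (w : ℕ → RR) : Prop where
  un : ∀ D, Qf D ∪ Pf D = D.primeFactors
  q : ∀ D, D % 2 = 1 → ¬ 7 ∣ D → ∀ q ∈ Qf D, InP q
  p : ∀ D, D % 2 = 1 → ¬ 7 ∣ D → ∀ p ∈ Pf D, SpP p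
  w : ∀ p, SpP p → nR (w p) = p ∧ N1 (w p)

section
variable {Qf Pf : ℕ → Finset ℕ} {w : ℕ → RR}

theorem QPw.dt (h : QPw Qf Pf w) {D : ℕ} (h2 : D % 2 = 1) (h7 : ¬ 7 ∣ D) :
    DT (Qf D) (Pf D) w :=
  ⟨h.q D h2 h7, h.p D h2 h7, fun p hp => h.w p (h.p D h2 h7 p hp)⟩

theorem QPw.prod (h : QPw Qf Pf w) {D : ℕ} (hsf : Squarefree D) :
    D = ∏ q ∈ Qf D ∪ Pf D, q := by
  rw [h.un]
  exact (Nat.prod_primeFactors_of_squarefree hsf).symm

theorem recA_O (h : QPw Qf Pf w) (A2 : ℕ → ZMod 2) (σ : ZMod 2) : RecA (dtO w A2 σ).A := by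
  have h1 := recA h.w
  intro p q hp hq hpq h2 h3
  have h4 := h1 p q hp hq hpq h2 h3
  show Aw w q p + (n2 q * n2 p + n2 q * uu p + uu q * n2 p) =
    Aw w p q + (n2 p * n2 q + n2 p * uu q + uu p * n2 q) + uu p * uu q
  have h5 : Aw w q p = Aw w p q + uu p * uu q := h4
  rw [h5]
  ring

/-- **`D ≡ 3` modulo `4`**, in a class modulo `8` -/
theorem dens3 (r2 : S_R2) (h : QPw Qf Pf w) {a : ℕ} (ha : a = 3 ∨ a = 7) :
    Tendsto (fun X : ℕ => (((Icc 1 X).filter fun D => Squarefree D ∧ D % 8 = a ∧ ¬ 7 ∣ D ∧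
      NS3 (Qf D) (Pf D) w D).card : ℝ) /
      (((Icc 1 X).filter fun D => Squarefree D ∧ D % 8 = a ∧ ¬ 7 ∣ D).card : ℝ)) atTop
      (𝓝 (c2 / 2)) := by
  have h1 := Pool.Agent.L0h74.EV.Den.t_DENE
    (dtO w (fun p => lam (w p)) (if a = 3 then 1 else 0)) 1 a (recA_O h _ _)
    (by rcases ha with rfl | rfl <;> norm_num)
    (Or.inr ⟨rfl, by rcases ha with rfl | rfl <;> norm_num⟩)
  refine h1.congr fun X => congrArg₂ (fun a b : ℕ => (a : ℝ) / (b : ℝ)) ?_ rfl
  refine congrArg Finset.card (Finset.filter_congr fun D _ => ?_)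
  refine and_congr_right fun hsf => and_congr_right fun hDa => and_congr_right fun h7 => ?_
  have hDa' : D % 8 = a := hDa
  have h4 : D % 4 = 3 := by omega
  have hd := h.dt (D := D) (by omega) h7
  rw [ns3_iff r2 hd (h.prod hsf) h4, h.un, hDa']

/-- **`D = 2 M`**, `M` in a class modulo `4` -/
theorem densE (r2 : S_R2) (h : QPw Qf Pf w) {a : ℕ} (ha : a = 1 ∨ a = 3) :
    Tendsto (fun X : ℕ => (((Icc 1 X).filter fun M => Squarefree M ∧ M % 4 = a ∧ ¬ 7 ∣ M ∧
      NSE (Qf M) (Pf M) w M).card : ℝ) /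
      (((Icc 1 X).filter fun M => Squarefree M ∧ M % 4 = a ∧ ¬ 7 ∣ M).card : ℝ)) atTop
      (𝓝 (c2 / 2)) := by
  have h1 := Pool.Agent.L0h74.EV.Den.t_DENE
    (dtE w (fun p => lam (w p)) (if a = 3 then 3 else 2)) 0 a (recA h.w)
    (by rcases ha with rfl | rfl <;> norm_num)
    (by
      rcases ha with rfl | rfl
      · exact Or.inl ⟨rfl, rfl⟩
      · exact Or.inr ⟨rfl, rfl⟩)
  refine h1.congr fun X => congrArg₂ (fun a b : ℕ => (a : ℝ) / (b : ℝ)) ?_ rfl
  refine congrArg Finset.card (Finset.filter_congr fun D _ => ?_)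
  refine and_congr_right fun hsf => and_congr_right fun hDa => and_congr_right fun h7 => ?_
  have hDa' : D % 4 = a := hDa
  have hd := h.dt (D := D) (by omega) h7
  rw [nse_iff r2 hd (h.prod hsf), h.un, hDa']

/-- **`D ≡ 1` modulo `4`** -/
theorem dens1 (h : QPw Qf Pf w) :
    Tendsto (fun X : ℕ => (((Icc 1 X).filter fun D => Squarefree D ∧ D % 4 = 1 ∧ ¬ 7 ∣ D ∧
      NonSing (Qf D) (Pf D) w).card : ℝ) /
      (((Icc 1 X).filter fun D => Squarefree D ∧ D % 4 = 1 ∧ ¬ 7 ∣ D).card : ℝ)) atTop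
      (𝓝 (c2 / 2)) := by
  have h1 := Pool.Agent.L0h74.KD.Fin.t_DEN (fun p q => lg (sy (w q) (w p)))
    (fun p => lg (e7 (w p))) (recA h.w)
  refine h1.congr fun X => congrArg₂ (fun a b : ℕ => (a : ℝ) / (b : ℝ)) ?_ rfl
  refine congrArg Finset.card (Finset.filter_congr fun D _ => ?_)
  refine and_congr_right fun hsf => and_congr_right fun hDa => and_congr_right fun h7 => ?_
  have hd := h.dt (D := D) (by omega) h7
  rw [tr hd, h.un]

/-- the condition for all the square-free `D > 0` prime to `7` -/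
def NSA (Qf Pf : ℕ → Finset ℕ) (w : ℕ → RR) (D : ℕ) : Prop :=
  (D % 4 = 1 ∧ NonSing (Qf D) (Pf D) w) ∨ (D % 4 = 3 ∧ NS3 (Qf D) (Pf D) w D) ∨
    (D % 2 = 0 ∧ NSE (Qf (D / 2)) (Pf (D / 2)) w (D / 2))

/-- **All the square-free `D > 0` prime to `7`.** -/
theorem dens_all (r2 : S_R2) (h : QPw Qf Pf w) :
    Tendsto (fun X : ℕ => (((Icc 1 X).filter fun D => Squarefree D ∧ ¬ 7 ∣ D ∧
      NSA Qf Pf w D).card : ℝ) /
      (((Icc 1 X).filter fun D => Squarefree D ∧ ¬ 7 ∣ D).card : ℝ)) atTop (𝓝 (c2 / 2)) := by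
  refine Uni.union_dens (NSA Qf Pf w) (c2 / 2) ?_ (fun a ha => ?_) (fun a ha => ?_)
  · refine (dens1 h).congr fun X => congrArg₂ (fun a b : ℕ => (a : ℝ) / (b : ℝ)) ?_ rfl
    refine congrArg Finset.card (Finset.filter_congr fun D _ => ?_)
    refine and_congr_right fun hsf => and_congr_right fun hDa => and_congr_right fun h7 => ?_
    constructor
    · exact fun h' => Or.inl ⟨hDa, h'⟩
    · rintro (h' | h' | h')
      · exact h'.2
      · omega
      · omega
  · refine (dens3 r2 h ha).congr fun X => congrArg₂ (fun a b : ℕ => (a : ℝ) / (b : ℝ)) ?_ rfl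
    refine congrArg Finset.card (Finset.filter_congr fun D _ => ?_)
    refine and_congr_right fun hsf => and_congr_right fun hDa => and_congr_right fun h7 => ?_
    constructor
    · exact fun h' => Or.inr (Or.inl ⟨by omega, h'⟩)
    · rintro (h' | h' | h')
      · omega
      · exact h'.2
      · omega
  · refine (densE r2 h ha).congr fun X => congrArg₂ (fun a b : ℕ => (a : ℝ) / (b : ℝ)) ?_ rfl
    refine congrArg Finset.card (Finset.filter_congr fun M _ => ?_)
    refine and_congr_right fun hsf => and_congr_right fun hDa => and_congr_right fun h7 => ?_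
    have e : 2 * M / 2 = M := by omega
    constructor
    · exact fun h' => Or.inr (Or.inr ⟨by omega, by rw [e]; exact h'⟩)
    · rintro (h' | h' | h')
      · omega
      · omega
      · have h8 := h'.2
        rwa [e] at h8

end

/-- an example of the data -/
theorem qpw_of {w : ℕ → RR} (hw : ∀ p, SpP p → nR (w p) = p ∧ N1 (w p)) :
    QPw (fun D => D.primeFactors.filter fun p => ¬ IsSquare (-7 : ZMod p))
      (fun D => D.primeFactors.filter fun p => IsSquare (-7 : ZMod p)) w := by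
  have hodd : ∀ D p : ℕ, D % 2 = 1 → p ∈ D.primeFactors → p % 2 = 1 := by
    intro D p hD hp
    have h1 := Nat.dvd_of_mem_primeFactors hp
    rcases (Nat.prime_of_mem_primeFactors hp).eq_two_or_odd with h2 | h2
    · exfalso
      rw [h2] at h1
      omega
    · exact h2
  refine ⟨fun D => ?_, fun D h2 h7 q hq => ?_, fun D h2 h7 p hp => ?_, hw⟩
  · ext p
    rw [mem_union, mem_filter, mem_filter]
    tauto
  · rw [mem_filter] at hq
    exact ⟨Nat.prime_of_mem_primeFactors hq.1, hodd D q h2 hq.1, hq.2⟩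
  · rw [mem_filter] at hp
    refine ⟨Nat.prime_of_mem_primeFactors hp.1, hodd D p h2 hp.1, ?_, hp.2⟩
    rintro rfl
    exact h7 (Nat.dvd_of_mem_primeFactors hp.1)

end Pool.Agent.L0h74.EV
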