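import Pool.Agent.L0h74.EV.TRE

/-!
# EV: the matrix of the primes of `ℚ(√-7)` and the good sets with the prime two, for `D ≡ 3` modulo `4`
-/

set_option autoImplicit false
set_option linter.unusedSectionVars false

open scoped Classical

namespace Pool.Agent.L0h74.EV

open Pool.Agent.Y698 Pool.Agent.Y698.SG
open Pool.Agent.L0h4.TW hiding Dt
open H667R3 Pool.Agent.W192.HK Pool.Agent.TH936.PU
open Pool.Agent.TH936.CM hiding uu
open Pool.Agent.Y703.CQ (nr)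
open Pool.Agent.N973.ND (Pr m7 uu ty nr_rec nr_self RecA)
open Pool.Agent.L0h23.KD (sum_ix brow brow_pf brow_pt brow_q Rel rowz phz Aw bw mP spP_iff inP_iff
  c_f c_t c_q)

section
variable {Q P : Finset ℕ} {ϖ : ℕ → RR} {l lb n : ℕ × Bool → ZMod 2} {A2 : ℕ → ZMod 2}

variable (Q P ϖ l n) in
/-- the row of a prime, `D ≡ 3` modulo `4` -/
noncomputable def ko (x : ℕ × Bool → ZMod 2) (xb w : ZMod 2) (i : ℕ × Bool) : ZMod 2 :=
  brow Q P ϖ x i + n i * (x i + xb) + l i * w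

variable (Q P lb) in
/-- the row of the prime above two, `D ≡ 3` modulo `4` -/
noncomputable def kob (x : ℕ × Bool → ZMod 2) (xb w : ZMod 2) : ZMod 2 :=
  xb + ∑ j ∈ ix Q P, lb j * (xb + x j) + w

variable (Q P ϖ n) in
/-- the row of the root, `D ≡ 3` modulo `4` -/
noncomputable def kor (x : ℕ × Bool → ZMod 2) (xb w : ZMod 2) : ZMod 2 :=
  ∑ j ∈ ix Q P, (mc (pfx Q ϖ) j + n j) * x j + xb + w

/-- the datum -/
noncomputable def dtO (ϖ : ℕ → RR) (A2 : ℕ → ZMod 2) (σ : ZMod 2) : Dt where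
  t := 3
  A := fun p k => Aw ϖ p k + (n2 p * n2 k + n2 p * uu k + uu p * n2 k)
  A2 := fun p => A2 p + (1 + σ) * n2 p
  b := fun p => bw ϖ p + n2 p
  b2 := 1

lemma sq2 (a : ZMod 2) : a * a = a := by
  revert a
  decide

/-- the sum of the rows in terms of the sums over the primes -/
lemma e1_O (h : DT Q P ϖ) {Z S : ℕ → ZMod 2} {σ : ZMod 2} (hσ : σ = ∑ j ∈ Q ∪ P, n2 j)
    (z s : ZMod 2) (p : ℕ) (hp : p ∈ Q ∪ P) :
    e1 (dtO ϖ A2 σ) (Q ∪ P) Z S z s p = rowz Q P ϖ Z S p + uu p * (Z p + z) +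
      uu p * (∑ k ∈ Q ∪ P, n2 k * S k) + A2 p * s +
      n2 p * (∑ i ∈ Q ∪ P, S i * (n2 i + uu i) + (1 + ∑ k ∈ Q ∪ P, n2 k) * s + z) := by
  have h1 : ∑ k ∈ Q ∪ P, (if p = k then 0 else (Aw ϖ p k + (n2 p * n2 k + n2 p * uu k +
      uu p * n2 k)) + nr k p) * S k =
      ∑ k ∈ Q ∪ P, (if p = k then 0 else Aw ϖ p k + nr k p) * S k +
      n2 p * (∑ k ∈ Q ∪ P, S k * (n2 k + uu k)) + uu p * (∑ k ∈ Q ∪ P, n2 k * S k) +
      n2 p * S p := by
    have h2 : n2 p * S p = ∑ k ∈ Q ∪ P, (if p = k then n2 p * S k else 0) := by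
      rw [Finset.sum_ite_eq, if_pos hp]
    rw [h2, Finset.mul_sum, Finset.mul_sum, ← Finset.sum_add_distrib, ← Finset.sum_add_distrib,
      ← Finset.sum_add_distrib]
    refine Finset.sum_congr rfl fun k _ => ?_
    by_cases hk : p = k
    · subst hk
      rw [if_pos rfl, if_pos rfl, if_pos rfl]
      linear_combination -(S p) * sq2 (n2 p) - two_self (n2 p * S p) - two_self (uu p * n2 p * S p)
    · rw [if_neg hk, if_neg hk, if_neg hk]
      ring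
  have e : e1 (dtO ϖ A2 σ) (Q ∪ P) Z S z s p =
      ∑ j ∈ Q ∪ P, nr j p * (Z j + Z p) + (bw ϖ p + n2 p) * Z p + (bw ϖ p + n2 p) * S p +
      ∑ k ∈ Q ∪ P, (if p = k then 0 else (Aw ϖ p k + (n2 p * n2 k + n2 p * uu k +
        uu p * n2 k)) + nr k p) * S k +
      ((n2 p + if (3 : ℕ) = 3 then uu p else 0) * (z + Z p) + (A2 p + (1 + σ) * n2 p) * s) := rfl
  rw [e, h1, if_pos rfl, hσ]
  unfold rowz
  linear_combination two_self (n2 p * Z p) + two_self (n2 p * S p)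

lemma ko_pf (h : DT Q P ϖ) (hl : Lam Q P A2 l lb) (hn : Par Q P n)
    {x : ℕ × Bool → ZMod 2} {Z S : ℕ → ZMod 2} (hr : Rel Q P x Z S) {σ : ZMod 2}
    (hσ : σ = ∑ j ∈ Q ∪ P, n2 j) (z s : ZMod 2) {p : ℕ} (hp : p ∈ P) :
    ko Q P ϖ l n x (z + ∑ k ∈ Q ∪ P, n2 k * S k) s (p, false) +
      n2 p * e5 (dtO ϖ A2 σ) (Q ∪ P) S z s = e1 (dtO ϖ A2 σ) (Q ∪ P) Z S z s p := by
  have hx : x (p, false) = Z p := hr.f p (Finset.mem_union_right _ hp)
  rw [e1_O h hσ z s p (Finset.mem_union_right _ hp)]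
  have e : e5 (dtO ϖ A2 σ) (Q ∪ P) S z s =
    ∑ i ∈ Q ∪ P, S i * (n2 i + uu i) + (1 + ∑ k ∈ Q ∪ P, n2 k) * s + z := rfl
  rw [e]
  unfold ko
  rw [brow_pf h hr hp, hx, hl.f p hp, hn.p p hp]
  ring

lemma e2_O (Q P : Finset ℕ) (ϖ : ℕ → RR) (A2 : ℕ → ZMod 2) (σ : ZMod 2) (S : ℕ → ZMod 2)
    (s : ZMod 2) (p : ℕ) :
    e2 (dtO ϖ A2 σ) (Q ∪ P) S s p = phz Q P ϖ S p + n2 p * s + uu p * S p := by
  have e : e2 (dtO ϖ A2 σ) (Q ∪ P) S s p = ∑ i ∈ Q ∪ P, S i * nr p i +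
    (bw ϖ p + n2 p + ∑ k ∈ Q ∪ P, nr k p) * S p +
    (n2 p * s + (n2 p + if (3 : ℕ) = 3 then uu p else 0) * S p) := rfl
  rw [e, if_pos rfl]
  unfold phz
  linear_combination two_self (n2 p * S p)

lemma ko_pt (h : DT Q P ϖ) (hl : Lam Q P A2 l lb) (hn : Par Q P n)
    {x : ℕ × Bool → ZMod 2} {Z S : ℕ → ZMod 2} (hr : Rel Q P x Z S) (σ xb s : ZMod 2)
    {p : ℕ} (hp : p ∈ P) :
    ko Q P ϖ l n x xb s (p, false) + ko Q P ϖ l n x xb s (p, true) =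
      e2 (dtO ϖ A2 σ) (Q ∪ P) S s p + uu p * Z p := by
  have hx : x (p, false) = Z p := hr.f p (Finset.mem_union_right _ hp)
  have hb := brow_pt h hr hp
  rw [e2_O]
  unfold ko
  rw [hx, hr.t p hp, hl.f p hp, hl.t p hp, hn.p p hp, hn.p p hp]
  linear_combination hb + two_self (A2 p * s) + two_self (uu p * (Z p + xb))

lemma ko_q (h : DT Q P ϖ) (hl : Lam Q P A2 l lb) (hn : Par Q P n)
    {x : ℕ × Bool → ZMod 2} {Z S : ℕ → ZMod 2} (hr : Rel Q P x Z S) (σ xb s : ZMod 2)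
    {q : ℕ} (hq : q ∈ Q) :
    ko Q P ϖ l n x xb s (q, false) = e2 (dtO ϖ A2 σ) (Q ∪ P) S s q + (1 + uu q) * Z q := by
  rw [e2_O, hr.q q hq]
  unfold ko
  rw [brow_q h hr hq, hl.q q hq, hn.q q hq]
  ring

lemma kob_eq (h : DT Q P ϖ) (hl : Lam Q P A2 l lb)
    {x : ℕ × Bool → ZMod 2} {Z S : ℕ → ZMod 2} (hr : Rel Q P x Z S) {σ : ZMod 2}
    (hσ : σ = ∑ j ∈ Q ∪ P, n2 j) (z s : ZMod 2) :
    kob Q P lb x (z + ∑ k ∈ Q ∪ P, n2 k * S k) s = e4 (dtO ϖ A2 σ) (Q ∪ P) Z S z s := by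
  set θ := ∑ k ∈ Q ∪ P, n2 k * S k with hθ
  have h1 : ∑ q ∈ Q, lb (q, false) * (z + θ + x (q, false)) =
      ∑ q ∈ Q, n2 q * (Z q + z) + (∑ q ∈ Q, n2 q) * θ := by
    rw [Finset.sum_mul, ← Finset.sum_add_distrib]
    refine Finset.sum_congr rfl fun q hq => ?_
    rw [hl.qb q hq, hr.f q (Finset.mem_union_left _ hq)]
    ring
  have h2 : ∑ p ∈ P, (lb (p, false) * (z + θ + x (p, false)) +
      lb (p, true) * (z + θ + x (p, true))) =
      ∑ p ∈ P, n2 p * (Z p + z) + (∑ p ∈ P, n2 p) * θ + ∑ p ∈ P, A2 p * S p := by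
    rw [Finset.sum_mul, ← Finset.sum_add_distrib, ← Finset.sum_add_distrib]
    refine Finset.sum_congr rfl fun p hp => ?_
    rw [hl.fb p hp, hl.tb p hp, hr.f p (Finset.mem_union_right _ hp), hr.t p hp]
    linear_combination two_self (A2 p * (z + θ + Z p))
  have h3 : ∑ k ∈ Q, A2 k * S k = 0 :=
    Finset.sum_eq_zero fun q hq => by rw [hr.q q hq, mul_zero]
  have e : e4 (dtO ϖ A2 σ) (Q ∪ P) Z S z s = ∑ j ∈ Q ∪ P, n2 j * (Z j + z) + 1 * z + 1 * s +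
    ∑ k ∈ Q ∪ P, (A2 k + (1 + σ) * n2 k) * S k := rfl
  have h4 : ∑ k ∈ Q ∪ P, (A2 k + (1 + σ) * n2 k) * S k =
      ∑ k ∈ Q ∪ P, A2 k * S k + (1 + σ) * θ := by
    rw [hθ, Finset.mul_sum, ← Finset.sum_add_distrib]
    exact Finset.sum_congr rfl fun k _ => by ring
  unfold kob
  rw [sum_ix h.dis, h1, h2, e, h4, hσ, Finset.sum_union h.dis, Finset.sum_union h.dis,
    Finset.sum_union h.dis, h3]
  ring

lemma kor_eq (h : DT Q P ϖ) (hn : Par Q P n)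
    {x : ℕ × Bool → ZMod 2} {Z S : ℕ → ZMod 2} (hr : Rel Q P x Z S) (σ : ZMod 2) (z s : ZMod 2) :
    kor Q P ϖ n x (z + ∑ k ∈ Q ∪ P, n2 k * S k) s +
      (∑ p ∈ P, (e2 (dtO ϖ A2 σ) (Q ∪ P) S s p + uu p * Z p) +
      ∑ q ∈ Q, (e2 (dtO ϖ A2 σ) (Q ∪ P) S s q + (1 + uu q) * Z q)) =
      e5 (dtO ϖ A2 σ) (Q ∪ P) S z s := by
  set θ := ∑ k ∈ Q ∪ P, n2 k * S k with hθ
  have h1 : ∑ q ∈ Q, (mc (pfx Q ϖ) (q, false) + n (q, false)) * x (q, false) =
      ∑ q ∈ Q, (1 + uu q) * Z q := by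
    refine Finset.sum_congr rfl fun q hq => ?_
    rw [c_q h hq, hn.q q hq, hr.f q (Finset.mem_union_left _ hq), add_zero]
  have h2 : ∑ p ∈ P, ((mc (pfx Q ϖ) (p, false) + n (p, false)) * x (p, false) +
      (mc (pfx Q ϖ) (p, true) + n (p, true)) * x (p, true)) =
      ∑ p ∈ P, uu p * Z p + ∑ p ∈ P, bw ϖ p * S p := by
    rw [← Finset.sum_add_distrib]
    refine Finset.sum_congr rfl fun p hp => ?_
    rw [c_f h hp, c_t h hp, hn.p p hp, hn.p p hp, hr.f p (Finset.mem_union_right _ hp),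
      hr.t p hp]
    linear_combination two_self (bw ϖ p * Z p) + two_self (uu p * Z p) + two_self (uu p * S p)
  -- the sum of the dual rows
  have h3 : ∑ l ∈ Q ∪ P, phz Q P ϖ S l = ∑ l ∈ Q ∪ P, bw ϖ l * S l := by
    unfold phz
    rw [Finset.sum_add_distrib, Finset.sum_comm]
    have h4 : ∀ y ∈ Q ∪ P, ∑ x ∈ Q ∪ P, S y * nr x y = (∑ k ∈ Q ∪ P, nr k y) * S y := by
      intro y _
      rw [Finset.sum_mul]
      exact Finset.sum_congr rfl fun k _ => mul_comm _ _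
    rw [Finset.sum_congr rfl h4, ← Finset.sum_add_distrib]
    exact Finset.sum_congr rfl fun k _ => by
      linear_combination two_self ((∑ j ∈ Q ∪ P, nr j k) * S k)
  have h5 : ∑ k ∈ Q, bw ϖ k * S k = 0 :=
    Finset.sum_eq_zero fun q hq => by rw [hr.q q hq, mul_zero]
  have h6 : ∑ p ∈ P, (e2 (dtO ϖ A2 σ) (Q ∪ P) S s p + uu p * Z p) +
      ∑ q ∈ Q, (e2 (dtO ϖ A2 σ) (Q ∪ P) S s q + (1 + uu q) * Z q) =
      ∑ l ∈ Q ∪ P, phz Q P ϖ S l + (∑ l ∈ Q ∪ P, n2 l) * s + ∑ l ∈ Q ∪ P, uu l * S l +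
      ∑ p ∈ P, uu p * Z p + ∑ q ∈ Q, (1 + uu q) * Z q := by
    rw [Finset.sum_mul, ← Finset.sum_add_distrib, ← Finset.sum_add_distrib,
      Finset.sum_union h.dis, Finset.sum_add_distrib, Finset.sum_add_distrib]
    simp only [e2_O]
    ring
  have e : e5 (dtO ϖ A2 σ) (Q ∪ P) S z s =
    ∑ i ∈ Q ∪ P, S i * (n2 i + uu i) + (1 + ∑ k ∈ Q ∪ P, n2 k) * s + z := rfl
  have h7 : ∑ i ∈ Q ∪ P, S i * (n2 i + uu i) = θ + ∑ l ∈ Q ∪ P, uu l * S l := by
    rw [hθ, ← Finset.sum_add_distrib]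
    exact Finset.sum_congr rfl fun k _ => by ring
  unfold kor
  rw [h6, e, h7, h3, sum_ix h.dis, h1, h2, Finset.sum_union h.dis (f := fun l => bw ϖ l * S l), h5]
  linear_combination two_self (∑ q ∈ Q, (1 + uu q) * Z q) + two_self (∑ p ∈ P, uu p * Z p) +
    two_self (∑ p ∈ P, bw ϖ p * S p)

/-- **The translation for `D ≡ 3` modulo `4`.** -/
theorem trO (h : DT Q P ϖ) (hl : Lam Q P A2 l lb) (hn : Par Q P n) {σ : ZMod 2}
    (hσ : σ = ∑ j ∈ Q ∪ P, n2 j) :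
    (∀ (x : ℕ × Bool → ZMod 2) (xb w : ZMod 2),
      (∀ i ∈ ix Q P, ko Q P ϖ l n x xb w i = 0) →
      kob Q P lb x xb w = 0 → kor Q P ϖ n x xb w = 0 →
      (∀ i ∈ ix Q P, x i = 0) ∧ xb = 0 ∧ w = 0) ↔ GdE (dtO ϖ A2 σ) (Q ∪ P) := by
  rw [gdE_iff (d := dtO ϖ A2 σ) (Or.inr rfl) h.m7Q h.m7P]
  constructor
  · intro hk Z S z s hS h1 h2 h3 h4 h5
    set x : ℕ × Bool → ZMod 2 := fun i => if i.2 then Z i.1 + S i.1 else Z i.1 with hx
    have hr : Rel Q P x Z S := ⟨fun n _ => rfl, fun n _ => rfl, hS⟩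
    set xb := z + ∑ k ∈ Q ∪ P, n2 k * S k with hxb
    have hpf : ∀ p ∈ P, ko Q P ϖ l n x xb s (p, false) = 0 := by
      intro p hp
      have h6 := ko_pf h hl hn hr hσ z s hp
      rw [h5, mul_zero, add_zero, h1 p hp] at h6
      exact h6
    have hrows : ∀ i ∈ ix Q P, ko Q P ϖ l n x xb s i = 0 := by
      rintro ⟨n', b⟩ hi
      rcases mem_ix.1 hi with ⟨h6, h7⟩ | ⟨h6, h7⟩ | ⟨h6, h7⟩
      · simp only at h6 h7
        subst h7
        rw [ko_q h hl hn hr σ xb s h6]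
        exact h3 _ h6
      · simp only at h6 h7
        subst h7
        exact hpf _ h6
      · simp only at h6 h7
        subst h7
        have h8 := ko_pt h hl hn hr σ xb s h6
        rw [h2 _ h6, hpf _ h6, zero_add] at h8
        exact h8
    have hb : kob Q P lb x xb s = 0 := by
      rw [hxb, kob_eq h hl hr hσ z s]
      exact h4
    have hp : kor Q P ϖ n x xb s = 0 := by
      have h8 := kor_eq (A2 := A2) h hn hr σ z s
      rw [Finset.sum_eq_zero h2, Finset.sum_eq_zero h3, h5, add_zero, add_zero] at h8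
      exact h8
    obtain ⟨a1, a2, a3⟩ := hk x xb s hrows hb hp
    have hZ : ∀ n' ∈ Q ∪ P, Z n' = 0 := by
      intro n' hn'
      have : x (n', false) = Z n' := rfl
      rw [← this]
      apply a1
      rcases Finset.mem_union.1 hn' with h6 | h6
      · exact mem_ix.2 (Or.inl ⟨h6, rfl⟩)
      · exact mem_ix.2 (Or.inr (Or.inl ⟨h6, rfl⟩))
    have hSS : ∀ n' ∈ Q ∪ P, S n' = 0 := by
      intro n' hn'
      rcases Finset.mem_union.1 hn' with h6 | h6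
      · exact hS n' h6
      · have h7 : x (n', true) = Z n' + S n' := rfl
        have h8 := a1 (n', true) (mem_ix.2 (Or.inr (Or.inr ⟨h6, rfl⟩)))
        rw [h7, hZ n' hn', zero_add] at h8
        exact h8
    refine ⟨hZ, hSS, ?_, a3⟩
    rw [hxb, Finset.sum_eq_zero (fun k hk => by rw [hSS k hk, mul_zero]), add_zero] at a2
    exact a2
  · intro hk x xb w h1 h2 h3
    set Z : ℕ → ZMod 2 := fun n => x (n, false) with hZ
    set S : ℕ → ZMod 2 := fun n => if n ∈ P then x (n, false) + x (n, true) else 0 with hS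
    have hr : Rel Q P x Z S := by
      refine ⟨fun n _ => rfl, fun p hp => ?_, fun q hq => ?_⟩
      · have : S p = x (p, false) + x (p, true) := if_pos hp
        rw [this]
        linear_combination -two_self (x (p, false))
      · exact if_neg (h.disj hq)
    set θ := ∑ k ∈ Q ∪ P, n2 k * S k with hθ
    obtain ⟨z, rfl⟩ : ∃ z, xb = z + θ := ⟨xb + θ, by linear_combination -two_self θ⟩
    have g2 : ∀ p ∈ P, e2 (dtO ϖ A2 σ) (Q ∪ P) S w p + uu p * Z p = 0 := by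
      intro p hp
      rw [← ko_pt h hl hn hr σ (z + θ) w hp, h1 _ (mem_ix.2 (Or.inr (Or.inl ⟨hp, rfl⟩))),
        h1 _ (mem_ix.2 (Or.inr (Or.inr ⟨hp, rfl⟩))), add_zero]
    have g3 : ∀ q ∈ Q, e2 (dtO ϖ A2 σ) (Q ∪ P) S w q + (1 + uu q) * Z q = 0 := by
      intro q hq
      rw [← ko_q h hl hn hr σ (z + θ) w hq]
      exact h1 _ (mem_ix.2 (Or.inl ⟨hq, rfl⟩))
    have g5 : e5 (dtO ϖ A2 σ) (Q ∪ P) S z w = 0 := by
      have h8 := kor_eq (A2 := A2) h hn hr σ z w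
      rw [Finset.sum_eq_zero g2, Finset.sum_eq_zero g3, h3, add_zero, add_zero] at h8
      exact h8.symm
    obtain ⟨a1, a2, a3, a4⟩ := hk Z S z w hr.q
      (fun p hp => by
        rw [← ko_pf h hl hn hr hσ z w hp, g5, mul_zero, add_zero]
        exact h1 _ (mem_ix.2 (Or.inr (Or.inl ⟨hp, rfl⟩))))
      g2 g3 (by rw [← kob_eq h hl hr hσ z w]; exact h2) g5
    refine ⟨?_, ?_, a4⟩
    · rintro ⟨n', b⟩ hi
      rcases mem_ix.1 hi with ⟨h4, h5⟩ | ⟨h4, h5⟩ | ⟨h4, h5⟩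
      · simp only at h4 h5
        subst h5
        exact a1 n' (Finset.mem_union_left _ h4)
      · simp only at h4 h5
        subst h5
        exact a1 n' (Finset.mem_union_right _ h4)
      · simp only at h4 h5
        subst h5
        rw [hr.t n' h4, a1 n' (Finset.mem_union_right _ h4), a2 n' (Finset.mem_union_right _ h4),
          add_zero]
    · rw [a3, zero_add, hθ]
      exact Finset.sum_eq_zero (fun k hk => by rw [a2 k hk, mul_zero])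

end

end Pool.Agent.L0h74.EV
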