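import Pool.Agent.L0h23.ED.Stm
import Pool.Agent.L0h74.EV.TRO

/-!
# EV: the symbols at two of the normalised prime elements
-/

set_option autoImplicit false
set_option linter.unusedSectionVars false

open scoped Classical

namespace Pool.Agent.L0h74.EV

open Pool.Agent.Y698 Pool.Agent.Y698.SG
open Pool.Agent.L0h4.TW hiding Dt
open H667R3 Pool.Agent.W192.HK Pool.Agent.TH936.PU
open Pool.Agent.TH936.CM hiding uu
open Pool.Agent.Y279.SG (cXY_cj)
open Pool.Agent.N973.ND (Pr m7 uu ty)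
open Pool.Agent.L0h23.KD (pff pft pfQ dQ spP_iff inP_iff nt_uu)
open Pool.Agent.L0h23.ED (lam lab S_R2 kn kl kb k7)

/-- integers divisible by the cube of `aR` -/
theorem aR3_int (m : ℤ) : aR ^ 3 ∣ (m : RR) ↔ (8 : ℤ) ∣ m := by
  have h8 : aR ^ 3 * (1 - aR) ^ 3 = ((8 : ℤ) : RR) := by
    have h1 : aR * (1 - aR) = 2 := by linear_combination -aR_sq
    calc aR ^ 3 * (1 - aR) ^ 3 = (aR * (1 - aR)) ^ 3 := by ring
      _ = ((8 : ℤ) : RR) := by rw [h1]; norm_num
  constructor
  · intro h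
    have hc : (1 - aR) ^ 3 ∣ (m : RR) := by
      have h2 := map_dvd cj h
      rw [map_pow, map_intCast] at h2
      have h3 : cj aR = 1 - aR := by
        apply RR_ext
        · rw [(cXY_cj aR).1, cXY_aR.1, cXY_aR.2]
          have : (1 - aR : RR) = ((1 : ℤ) : RR) + -aR := by push_cast; ring
          rw [this, (cXY_add _ _).1, (cXY_int _).1, (cXY_neg _).1, cXY_aR.1]
          norm_num
        · rw [(cXY_cj aR).2, cXY_aR.2]
          have : (1 - aR : RR) = ((1 : ℤ) : RR) + -aR := by push_cast; ring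
          rw [this, (cXY_add _ _).2, (cXY_int _).2, (cXY_neg _).2, cXY_aR.2]
          norm_num
      rwa [h3] at h2
    have hcop : IsCoprime (aR ^ 3) ((1 - aR) ^ 3) := by
      apply IsCoprime.pow
      exact ⟨1, 1, by ring⟩
    have h4 : ((8 : ℤ) : RR) ∣ (m : RR) := by
      rw [← h8]
      exact hcop.mul_dvd h hc
    obtain ⟨t, ht⟩ := h4
    refine ⟨cX t, ?_⟩
    have h5 := congrArg cX ht
    rw [(cXY_int m).1, (cXY_mul _ _).1, (cXY_int 8).1, (cXY_int 8).2] at h5
    linarith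
  · rintro ⟨t, rfl⟩
    rw [Int.cast_mul, ← h8]
    exact ⟨(1 - aR) ^ 3 * (t : RR), by ring⟩

theorem cj_aR : cj aR = 1 - aR := by
  apply RR_ext
  · rw [(cXY_cj aR).1, cXY_aR.1, cXY_aR.2]
    have : (1 - aR : RR) = ((1 : ℤ) : RR) + -aR := by push_cast; ring
    rw [this, (cXY_add _ _).1, (cXY_int _).1, (cXY_neg _).1, cXY_aR.1]
    norm_num
  · rw [(cXY_cj aR).2, cXY_aR.2]
    have : (1 - aR : RR) = ((1 : ℤ) : RR) + -aR := by push_cast; ring
    rw [this, (cXY_add _ _).2, (cXY_int _).2, (cXY_neg _).2, cXY_aR.2]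
    norm_num

theorem lg_two {p : ℕ} (hp : p % 2 = 1) : lg (qch p 2) = n2 p := by
  have hodd : Odd p := Nat.odd_iff.2 hp
  unfold qch n2
  rw [jacobiSym.at_two hodd, ZMod.χ₈_nat_eq_if_mod_eight]
  have h8 : p % 8 < 8 := Nat.mod_lt _ (by norm_num)
  have h1 : p % 8 = 1 ∨ p % 8 = 3 ∨ p % 8 = 5 ∨ p % 8 = 7 := by omega
  rcases h1 with h1 | h1 | h1 | h1
  · rw [if_neg (by omega), if_pos (Or.inl h1), if_neg (by omega), Int.cast_one, lg_one]
  · rw [if_neg (by omega), if_neg (by omega), if_pos (Or.inl h1), Int.cast_neg, Int.cast_one,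
      lg_neg_one]
  · rw [if_neg (by omega), if_neg (by omega), if_pos (Or.inr h1), Int.cast_neg, Int.cast_one,
      lg_neg_one]
  · rw [if_neg (by omega), if_pos (Or.inr h1), if_neg (by omega), Int.cast_one, lg_one]

/-- the symbol of a rational prime at the first prime above two -/
theorem lam_q {q : ℕ} (hq : q % 2 = 1) : lam (sg q * (q : RR)) = n2 q := by
  have e : sg q * (q : RR) - 1 = ((sgz q * q - 1 : ℤ) : RR) := by
    rw [sg_coe]
    push_cast
    ring
  unfold lam n2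
  rw [e]
  have h1 := aR3_int (sgz q * q - 1)
  have h2 : (8 : ℤ) ∣ (sgz q * q - 1) ↔ ¬ (q % 8 = 3 ∨ q % 8 = 5) := by
    unfold sgz
    by_cases h4 : q % 4 = 1
    · rw [if_pos h4]
      omega
    · rw [if_neg h4]
      omega
  by_cases h3 : q % 8 = 3 ∨ q % 8 = 5
  · rw [if_pos h3, if_neg (fun h => (h2.1 (h1.1 h)) h3)]
  · rw [if_neg h3, if_pos (h1.2 (h2.2 h3))]

section
variable {Q P : Finset ℕ} {ϖ : ℕ → RR}

theorem par_kn (h : DT Q P ϖ) : Par Q P (kn (pfx Q ϖ)) := by
  refine ⟨fun q hq => ?_, fun p hp b => ?_⟩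
  · unfold kn
    rw [pfQ hq]
    exact nt_D2 (dQ h hq)
  · unfold kn
    rcases b with _ | _
    · rw [pff h hp]
      exact nt_uu (h.d1 hp)
    · rw [pft h hp]
      exact nt_uu (h.d1 hp).cj

/-- the conjugate: `lam` and `lab` are exchanged -/
theorem lam_cj (r2 : S_R2) {x : RR} {p : ℕ} (hx : D1 x p) : lam (sg p * cj x) = lab x := by
  have hodd := hx.odd
  have hnt := nt_uu hx
  have h0 := r2.nt0 x p (Or.inr hx)
  have h1 := r2.nt1 x p (Or.inr hx)
  have e : aR ^ 3 ∣ sg p * cj x - 1 ↔ (1 - aR) ^ 3 ∣ sg p * x - 1 := by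
    constructor
    · intro h
      have h2 := map_dvd cj h
      rwa [map_pow, map_sub, map_mul, cj_aR, cj_cj, map_one, Pool.Agent.L0h23.KD.cj_sg] at h2
    · intro h
      have h2 := map_dvd cj h
      rwa [map_pow, map_sub, map_sub, map_mul, cj_aR, map_one, Pool.Agent.L0h23.KD.cj_sg,
        sub_sub_cancel] at h2
  have hdvd : (1 - aR) ^ 2 ∣ (1 - aR) ^ 3 := pow_dvd_pow _ (by norm_num)
  have key : aR ^ 3 ∣ sg p * cj x - 1 ↔ ((1 - aR) ^ 3 ∣ x - 1 ∨ (1 - aR) ^ 3 ∣ x + 1) := by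
    rw [e]
    by_cases h4 : p % 4 = 1
    · have hs : sg p = 1 := if_pos h4
      have hu : uu p = 0 := by unfold uu; rw [if_neg (by omega)]
      rw [hu] at hnt
      have hn : ¬ (1 - aR) ^ 3 ∣ x + 1 := fun h' => by
        have := h1.1 (hdvd.trans h')
        rw [hnt] at this
        exact zero_ne_one this
      rw [hs, one_mul]
      exact ⟨fun h' => Or.inl h', fun h' => h'.resolve_right hn⟩
    · have hs : sg p = -1 := if_neg h4
      have hu : uu p = 1 := by unfold uu; rw [if_pos (by omega)]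
      rw [hu] at hnt
      have hn : ¬ (1 - aR) ^ 3 ∣ x - 1 := fun h' => by
        have := h0.1 (hdvd.trans h')
        rw [hnt] at this
        exact one_ne_zero this
      have e2 : (1 - aR) ^ 3 ∣ sg p * x - 1 ↔ (1 - aR) ^ 3 ∣ x + 1 := by
        rw [hs]
        have : -1 * x - 1 = -(x + 1) := by ring
        rw [this, dvd_neg]
      rw [e2]
      exact ⟨fun h' => Or.inr h', fun h' => h'.resolve_left hn⟩
  unfold lam lab
  simp only [key]

theorem lam_lab1 (r2 : S_R2) {x : RR} {p : ℕ} (hx : D1 x p) : lam x + lab x = n2 p := by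
  rw [← r2.sy_two x p (Or.inr hx), ← lg_two hx.odd]
  have h1 := sy_int hx.pr hx.nR 2
  have h2 : ((2 : ℤ) : RR) = 2 := by norm_num
  rw [h2] at h1
  rw [h1]

/-- **The symbols at two.** -/
theorem lam_k (r2 : S_R2) (h : DT Q P ϖ) :
    Lam Q P (fun p => lam (ϖ p)) (kl (pfx Q ϖ)) (kb (pfx Q ϖ)) := by
  have hf : ∀ p ∈ P, lab (ϖ p) = lam (ϖ p) + n2 p := by
    intro p hp
    have h1 := lam_lab1 r2 (h.d1 hp)
    linear_combination h1 - two_self (lam (ϖ p))
  have ht : ∀ p ∈ P, lam (sg p * cj (ϖ p)) = lam (ϖ p) + n2 p := fun p hp => by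
    rw [lam_cj r2 (h.d1 hp), hf p hp]
  refine ⟨fun q hq => ?_, fun q hq => ?_, fun p hp => ?_, fun p hp => ?_, fun p hp => ?_,
    fun p hp => ?_⟩
  · unfold kl
    rw [pfQ hq]
    exact lam_q (h.q q hq).odd
  · unfold kb
    have hd := dQ h hq
    have h1 := r2.sy_two _ q (Or.inl hd)
    have h2 : sy (sg q * (q : RR)) 2 = 1 := by
      rw [sy_congr (sp_sg q _), sy_inertX (h.q q hq)]
      have h3 : nR (2 : RR) = 4 := by
        have : (2 : RR) = ((2 : ℤ) : RR) := by norm_num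
        rw [this]
        unfold nR
        rw [(cXY_int 2).1, (cXY_int 2).2]
        norm_num
      rw [h3]
      have h4 := lg_two (h.q q hq).odd
      unfold qch at h4 ⊢
      have h5 : (4 : ℤ) = 2 * 2 := by norm_num
      rw [h5, jacobiSym.mul_left]
      have h6 : jacobiSym 2 q = 1 ∨ jacobiSym 2 q = -1 := by
        have h7 : Int.gcd 2 q = 1 := by
          have := (h.q q hq).odd
          have h8 : Nat.Coprime 2 q := (Nat.coprime_two_left).2 (Nat.odd_iff.2 this)
          exact h8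
        exact jacobiSym.eq_one_or_neg_one h7
      rcases h6 with h6 | h6 <;> rw [h6] <;> norm_num
    rw [h2, lg_one, lam_q (h.q q hq).odd] at h1
    rw [pfQ hq]
    linear_combination -h1 - two_self (n2 q)
  · unfold kl
    rw [pff h hp]
  · unfold kb
    rw [pff h hp]
    exact hf p hp
  · unfold kl
    rw [pft h hp]
    exact ht p hp
  · unfold kb
    rw [pft h hp]
    have h1 := lam_lab1 r2 (h.d1 hp).cj
    rw [ht p hp] at h1
    linear_combination h1 - two_self (lam (ϖ p))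

end

end Pool.Agent.L0h74.EV
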