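import Pool.Agent.L0h74.EV.LAA

/-!
# EV: the Selmer system, the kernel and the determinant for `D = 2 m`
-/

set_option autoImplicit false
set_option linter.unusedSectionVars false

open scoped Classical

namespace Pool.Agent.L0h74.EV

open Pool.Agent.Y698 Pool.Agent.Y698.SG
open Pool.Agent.L0h4.TW hiding Dt
open Pool.Agent.L0h23.ED (lam lab S_R2 kn kl kb k7 SysE Sys3 NSE NS3)
open Pool.Agent.N973.ND (Pr m7 uu ty)

section abs

variable {ι : Type} [DecidableEq ι]

/-- the kernel of the rows is trivial, `D = 2 m` -/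
def KerE (I : Finset ι) (nb : ZMod 2) (c n l lb : ι → ZMod 2) (m : ι → ι → ZMod 2) : Prop :=
  ∀ (x : ι → ZMod 2) (xb xp : ZMod 2),
    (∀ i ∈ I, c i * x i + ∑ j ∈ I, m i j * (x i + x j) + (lb i + nb * n i) * (x i + xb) +
      l i * (x i + xp) = 0) →
    xb + ∑ j ∈ I, lb j * (xb + x j) + (xb + xp) = 0 →
    (1 + nb) * xp + ∑ j ∈ I, (l j + nb * n j) * (xp + x j) + (1 + nb) * (xp + xb) = 0 →
    (∀ i ∈ I, x i = 0) ∧ xb = 0 ∧ xp = 0

/-- the entries with the two primes above two, `D = 2 m` (the root removed) -/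
structure EntE (I : Finset ι) (b p : ι) (nb : ZMod 2) (c n l lb : ι → ZMod 2)
    (m : ι → ι → ZMod 2) (cE : ι → ZMod 2) (mE : ι → ι → ZMod 2) : Prop where
  bI : b ∉ I
  pI : p ∉ I
  bp : b ≠ p
  c0 : ∀ i ∈ I, cE i = c i
  cb : cE b = 1
  cp : cE p = 1 + nb
  m0 : ∀ i ∈ I, ∀ j ∈ I, i ≠ j → mE i j = m i j
  ib : ∀ i ∈ I, mE i b = lb i + nb * n i
  ip : ∀ i ∈ I, mE i p = l i
  bi : ∀ i ∈ I, mE b i = lb i
  pi : ∀ i ∈ I, mE p i = l i + nb * n i
  bp' : mE b p = 1
  pb' : mE p b = 1 + nb

variable {I : Finset ι} {b p : ι} {nb w : ZMod 2} {c n l lb m7' : ι → ZMod 2}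
  {m : ι → ι → ZMod 2} {cE : ι → ZMod 2} {mE : ι → ι → ZMod 2}

lemma sum_bp (hb : b ∉ I) (hp : p ∉ I) (hbp : b ≠ p) (f : ι → ZMod 2) :
    ∑ j ∈ insert b (insert p I), f j = f b + f p + ∑ j ∈ I, f j := by
  have h1 : b ∉ insert p I := by
    rw [Finset.mem_insert]
    exact fun h => h.elim hbp hb
  rw [Finset.sum_insert h1, Finset.sum_insert hp, add_assoc]

lemma lap_congr (h : ∀ i ∈ I, ∀ j ∈ I, i ≠ j → mE i j = m i j) (x : ι → ZMod 2) {i : ι}
    (hi : i ∈ I) : ∑ j ∈ I, mE i j * (x i + x j) = ∑ j ∈ I, m i j * (x i + x j) := by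
  refine Finset.sum_congr rfl fun j hj => ?_
  by_cases hij : i = j
  · subst hij
    rw [two_self, mul_zero, mul_zero]
  · rw [h i hi j hj hij]

/-- the determinant and the kernel -/
theorem kerE_gd (h : EntE I b p nb c n l lb m cE mE) :
    gd cE mE (insert b (insert p I)) ≠ 0 ↔ KerE I nb c n l lb m := by
  rw [gd_ker]
  have row_i : ∀ (x : ι → ZMod 2), ∀ i ∈ I, cE i * x i +
      ∑ j ∈ insert b (insert p I), mE i j * (x i + x j) =
      c i * x i + ∑ j ∈ I, m i j * (x i + x j) + (lb i + nb * n i) * (x i + x b) +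
      l i * (x i + x p) := by
    intro x i hi
    rw [sum_bp h.bI h.pI h.bp, lap_congr h.m0 x hi, h.c0 i hi, h.ib i hi, h.ip i hi]
    ring
  have row_b : ∀ (x : ι → ZMod 2), cE b * x b +
      ∑ j ∈ insert b (insert p I), mE b j * (x b + x j) =
      x b + ∑ j ∈ I, lb j * (x b + x j) + (x b + x p) := by
    intro x
    rw [sum_bp h.bI h.pI h.bp, h.cb, h.bp', two_self,
      Finset.sum_congr rfl (fun j hj => by rw [h.bi j hj])]
    ring
  have row_p : ∀ (x : ι → ZMod 2), cE p * x p +
      ∑ j ∈ insert b (insert p I), mE p j * (x p + x j) =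
      (1 + nb) * x p + ∑ j ∈ I, (l j + nb * n j) * (x p + x j) + (1 + nb) * (x p + x b) := by
    intro x
    rw [sum_bp h.bI h.pI h.bp, h.cp, h.pb', two_self (x p),
      Finset.sum_congr rfl (fun j hj => by rw [h.pi j hj])]
    ring
  constructor
  · intro hk x xb xp h1 h2 h3
    set y : ι → ZMod 2 := fun i => if i = b then xb else if i = p then xp else x i with hy
    have yb : y b = xb := if_pos rfl
    have yp : y p = xp := by
      show (if p = b then xb else if p = p then xp else x p) = xp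
      rw [if_neg h.bp.symm, if_pos rfl]
    have yi : ∀ i ∈ I, y i = x i := by
      intro i hi
      show (if i = b then xb else if i = p then xp else x i) = x i
      rw [if_neg (fun h' : i = b => h.bI (h' ▸ hi)), if_neg (fun h' : i = p => h.pI (h' ▸ hi))]
    have h4 := hk y (by
      intro i hi
      rw [Finset.mem_insert, Finset.mem_insert] at hi
      rcases hi with rfl | rfl | hi
      · rw [row_b, yb, yp, Finset.sum_congr rfl (fun j hj => by rw [yi j hj])]
        exact h2
      · rw [row_p, yb, yp, Finset.sum_congr rfl (fun j hj => by rw [yi j hj])]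
        exact h3
      · rw [row_i y i hi, yb, yp, yi i hi, Finset.sum_congr rfl (fun j hj => by rw [yi j hj])]
        exact h1 i hi)
    refine ⟨fun i hi => ?_, ?_, ?_⟩
    · rw [← yi i hi]
      exact h4 i (Finset.mem_insert_of_mem (Finset.mem_insert_of_mem hi))
    · rw [← yb]
      exact h4 b (Finset.mem_insert_self _ _)
    · rw [← yp]
      exact h4 p (Finset.mem_insert_of_mem (Finset.mem_insert_self _ _))
  · intro hk x hx i hi
    obtain ⟨h1, h2, h3⟩ := hk x (x b) (x p)
      (fun i hi => by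
        rw [← row_i x i hi]
        exact hx i (Finset.mem_insert_of_mem (Finset.mem_insert_of_mem hi)))
      (by rw [← row_b x]; exact hx b (Finset.mem_insert_self _ _))
      (by rw [← row_p x]; exact hx p (Finset.mem_insert_of_mem (Finset.mem_insert_self _ _)))
    rw [Finset.mem_insert, Finset.mem_insert] at hi
    rcases hi with rfl | rfl | hi
    · exact h2
    · exact h3
    · exact h1 i hi

/-- the reciprocity law with the two primes above two -/
theorem recipE (h : EntE I b p nb c n l lb m cE mE) (hr : Recip n m I) :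
    Recip (fun i => if i = b ∨ i = p then nb else n i) mE (insert b (insert p I)) := by
  have nb_ : (fun i => if i = b ∨ i = p then nb else n i) b = nb := if_pos (Or.inl rfl)
  have np_ : (fun i => if i = b ∨ i = p then nb else n i) p = nb := if_pos (Or.inr rfl)
  have ni_ : ∀ i ∈ I, (fun i => if i = b ∨ i = p then nb else n i) i = n i := by
    intro i hi
    exact if_neg (fun h' => h'.elim (fun h' => h.bI (h' ▸ hi)) (fun h' => h.pI (h' ▸ hi)))
  intro i hi j hj hij
  rw [Finset.mem_insert, Finset.mem_insert] at hi hj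
  rcases hi with rfl | rfl | hi
  · rcases hj with rfl | rfl | hj
    · exact absurd rfl hij
    · rw [nb_, np_, h.bp', h.pb', sq_self]
      linear_combination two_self (1 : ZMod 2)
    · rw [nb_, ni_ j hj, h.bi j hj, h.ib j hj]
      linear_combination two_self (lb j)
  · rcases hj with rfl | rfl | hj
    · rw [nb_, np_, h.bp', h.pb', sq_self]
      linear_combination two_self (1 : ZMod 2)
    · exact absurd rfl hij
    · rw [np_, ni_ j hj, h.pi j hj, h.ip j hj]
      linear_combination two_self (l j)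
  · rcases hj with rfl | rfl | hj
    · rw [nb_, ni_ i hi, h.bi i hi, h.ib i hi]
      linear_combination two_self (lb i)
    · rw [np_, ni_ i hi, h.pi i hi, h.ip i hi]
      linear_combination two_self (l i)
    · rw [ni_ i hi, ni_ j hj, h.m0 i hi j hj hij, h.m0 j hj i hi hij.symm]
      exact hr i hi j hj hij

/-- **The Selmer system and the kernel.** -/
theorem sysE_ker (h : EntE I b p nb c n l lb m cE mE) (hr : Recip n m I)
    (hn : ∑ i ∈ I, n i = 0) (hw : w = ∑ i ∈ I, lb i) (h7 : ∀ j ∈ I, m7' j = c j + n j) :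
    SysE I nb w n l lb m7' m ↔ KerE I nb c n l lb m := by
  rw [← kerE_gd h]
  set nE : ι → ZMod 2 := fun i => if i = b ∨ i = p then nb else n i with hnE
  have nb_ : nE b = nb := if_pos (Or.inl rfl)
  have np_ : nE p = nb := if_pos (Or.inr rfl)
  have ni_ : ∀ i ∈ I, nE i = n i := by
    intro i hi
    exact if_neg (fun h' => h'.elim (fun h' => h.bI (h' ▸ hi)) (fun h' => h.pI (h' ▸ hi)))
  have hnE0 : ∑ k ∈ insert b (insert p I), nE k = 0 := by
    rw [sum_bp h.bI h.pI h.bp, nb_, np_, Finset.sum_congr rfl ni_, hn, two_self, add_zero]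
  rw [← gd_transp (recipE h hr) hnE0 cE, gd_ker]
  -- the rows of the transposed matrix at the shifted vector
  have hmsplit : ∀ (x : ι → ZMod 2), ∀ j ∈ I, ∑ i ∈ I, mE i j * (x j + x i) =
      ∑ i ∈ I.erase j, m i j * x i + x j * ∑ i ∈ I.erase j, m i j := by
    intro x j hj
    rw [← Finset.add_sum_erase I _ hj, two_self, mul_zero, zero_add, Finset.mul_sum,
      ← Finset.sum_add_distrib]
    refine Finset.sum_congr rfl fun i hi => ?_
    rw [h.m0 i (Finset.mem_of_mem_erase hi) j hj (Finset.ne_of_mem_erase hi)]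
    ring
  have row_j : ∀ (z e : ZMod 2) (x y : ι → ZMod 2), y b = z + e → y p = e →
      (∀ i ∈ I, y i = x i + e) → ∀ j ∈ I,
      (cE j + nE j) * y j + ∑ i ∈ insert b (insert p I), mE i j * (y j + y i) =
      z * lb j + e * m7' j + ∑ i ∈ I.erase j, m i j * x i +
      x j * (l j + lb j + nb * n j + m7' j + ∑ i ∈ I.erase j, m i j) := by
    intro z e x y hyb hyp hyi j hj
    have h1 : ∑ i ∈ I, mE i j * (y j + y i) = ∑ i ∈ I, mE i j * (x j + x i) := by
      refine Finset.sum_congr rfl fun i hi => ?_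
      rw [hyi i hi, hyi j hj]
      linear_combination (mE i j) * two_self e
    rw [sum_bp h.bI h.pI h.bp, h1, hmsplit x j hj, hyb, hyp, hyi j hj, h.c0 j hj, ni_ j hj,
      h.bi j hj, h.pi j hj, h7 j hj]
    linear_combination (lb j + l j + nb * n j) * two_self e
  have row_b : ∀ (z e : ZMod 2) (x y : ι → ZMod 2), y b = z + e → y p = e →
      (∀ i ∈ I, y i = x i + e) →
      (cE b + nE b) * y b + ∑ i ∈ insert b (insert p I), mE i b * (y b + y i) =
      w * z + e * (1 + nb) + ∑ i ∈ I, (lb i + nb * n i) * x i := by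
    intro z e x y hyb hyp hyi
    have h1 : ∑ i ∈ I, mE i b * (y b + y i) = (∑ i ∈ I, lb i) * z + nb * (∑ i ∈ I, n i) * z +
        ∑ i ∈ I, (lb i + nb * n i) * x i := by
      rw [Finset.mul_sum, Finset.sum_mul, Finset.sum_mul, ← Finset.sum_add_distrib,
        ← Finset.sum_add_distrib]
      refine Finset.sum_congr rfl fun i hi => ?_
      rw [h.ib i hi, hyi i hi, hyb]
      linear_combination (lb i + nb * n i) * two_self e
    rw [sum_bp h.bI h.pI h.bp, h1, hyb, hyp, h.cb, nb_, h.pb', hn, hw]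
    linear_combination (mE b b) * two_self (z + e) + (1 + nb) * two_self (z + e)
  have row_p : ∀ (z e : ZMod 2) (x y : ι → ZMod 2), y b = z + e → y p = e →
      (∀ i ∈ I, y i = x i + e) →
      (cE p + nE p) * y p + ∑ i ∈ insert b (insert p I), mE i p * (y p + y i) =
      z + e + ∑ i ∈ I, l i * x i := by
    intro z e x y hyb hyp hyi
    have h1 : ∑ i ∈ I, mE i p * (y p + y i) = ∑ i ∈ I, l i * x i := by
      refine Finset.sum_congr rfl fun i hi => ?_
      rw [h.ip i hi, hyi i hi, hyp]
      linear_combination (l i) * two_self e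
    rw [sum_bp h.bI h.pI h.bp, h1, hyb, hyp, h.cp, np_, h.bp']
    linear_combination (mE p p) * two_self e + two_self e + two_self nb * e
  constructor
  · intro hs y hy i hi
    obtain ⟨h1, h2, h3⟩ := hs (y b + y p) (y p) (fun i => y i + y p)
      (by
        rw [← row_p (y b + y p) (y p) (fun i => y i + y p) y
          (by linear_combination -two_self (y p)) rfl
          (fun i _ => by linear_combination -two_self (y p))]
        exact hy p (Finset.mem_insert_of_mem (Finset.mem_insert_self _ _)))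
      (by
        rw [← row_b (y b + y p) (y p) (fun i => y i + y p) y
          (by linear_combination -two_self (y p)) rfl
          (fun i _ => by linear_combination -two_self (y p))]
        exact hy b (Finset.mem_insert_self _ _))
      (fun j hj => by
        rw [← row_j (y b + y p) (y p) (fun i => y i + y p) y
          (by linear_combination -two_self (y p)) rfl
          (fun i _ => by linear_combination -two_self (y p)) j hj]
        exact hy j (Finset.mem_insert_of_mem (Finset.mem_insert_of_mem hj)))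
    rw [h2, add_zero] at h1
    rw [Finset.mem_insert, Finset.mem_insert] at hi
    rcases hi with rfl | rfl | hi
    · exact h1
    · exact h2
    · have h4 := h3 i hi
      rwa [h2, add_zero] at h4
  · intro hk z e x h1 h2 h3
    set y : ι → ZMod 2 := fun i => if i = b then z + e else if i = p then e else x i + e with hy
    have yb : y b = z + e := if_pos rfl
    have yp : y p = e := by
      show (if p = b then z + e else if p = p then e else x p + e) = e
      rw [if_neg h.bp.symm, if_pos rfl]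
    have yi : ∀ i ∈ I, y i = x i + e := by
      intro i hi
      show (if i = b then z + e else if i = p then e else x i + e) = x i + e
      rw [if_neg (fun h' : i = b => h.bI (h' ▸ hi)), if_neg (fun h' : i = p => h.pI (h' ▸ hi))]
    have h4 := hk y (by
      intro i hi
      rw [Finset.mem_insert, Finset.mem_insert] at hi
      rcases hi with rfl | rfl | hi
      · rw [row_b z e x y yb yp yi]
        exact h2
      · rw [row_p z e x y yb yp yi]
        exact h1
      · rw [row_j z e x y yb yp yi i hi]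
        exact h3 i hi)
    have he : e = 0 := by
      rw [← yp]
      exact h4 p (Finset.mem_insert_of_mem (Finset.mem_insert_self _ _))
    refine ⟨?_, he, fun i hi => ?_⟩
    · have h5 := h4 b (Finset.mem_insert_self _ _)
      rwa [yb, he, add_zero] at h5
    · have h5 := h4 i (Finset.mem_insert_of_mem (Finset.mem_insert_of_mem hi))
      rwa [yi i hi, he, add_zero] at h5

end abs

section
variable {Q P : Finset ℕ} {ϖ : ℕ → RR}

lemma odd_mem (h : DT Q P ϖ) {i : ℕ × Bool} (hi : i ∈ ix Q P) : i.1 % 2 = 1 := by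
  rw [mem_ix] at hi
  rcases hi with hi | hi | hi
  · exact (h.q _ hi.1).odd
  · exact (h.p _ hi.1).odd
  · exact (h.p _ hi.1).odd

/-- the reciprocity law -/
theorem recip_k (h : DT Q P ϖ) : Recip (kn (pfx Q ϖ)) (mr (pfx Q ϖ)) (ix Q P) := by
  intro i hi j hj hij
  have h1 := h.rec7 i (Finset.mem_insert_of_mem hi) j (Finset.mem_insert_of_mem hj) hij
  unfold mm at h1
  rw [h.pf hi, h.pf hj] at h1
  exact h1

/-- the reciprocity law with the root -/
theorem k7_eq (h : DT Q P ϖ) : ∀ j ∈ ix Q P, k7 (pfx Q ϖ) j = mc (pfx Q ϖ) j +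
    kn (pfx Q ϖ) j := by
  intro j hj
  have hne : j ≠ (7, false) := fun h' => h.ix7 (h' ▸ hj)
  have h1 := h.rec7 (7, false) (Finset.mem_insert_self _ _) j (Finset.mem_insert_of_mem hj)
    (Ne.symm hne)
  unfold mm at h1
  rw [h.pf hj, pf7_o, sy_seven] at h1
  have h2 : nt (-fR) = 1 := by
    rw [nt_D1 D1_seven]
    norm_num
  rw [h2, one_mul] at h1
  unfold k7 mc kn
  linear_combination h1 - two_self (lg (e7 (pfx Q ϖ j)))

theorem kn_sum (h : DT Q P ϖ) : ∑ i ∈ ix Q P, kn (pfx Q ϖ) i = 0 := by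
  rw [← h.ntsum]
  refine Finset.sum_congr rfl fun i hi => ?_
  rw [h.pf hi]
  rfl

theorem kb_sum (h : DT Q P ϖ) {A2 : ℕ → ZMod 2} {l lb : ℕ × Bool → ZMod 2}
    (hl : Lam Q P A2 l lb) : ∑ i ∈ ix Q P, lb i = ∑ j ∈ Q ∪ P, n2 j := by
  rw [Pool.Agent.L0h23.KD.sum_ix h.dis, Finset.sum_union h.dis]
  congr 1
  · exact Finset.sum_congr rfl fun q hq => hl.qb q hq
  · refine Finset.sum_congr rfl fun p hp => ?_
    rw [hl.fb p hp, hl.tb p hp]
    linear_combination two_self (A2 p)

theorem kl_sum (h : DT Q P ϖ) {A2 : ℕ → ZMod 2} {l lb : ℕ × Bool → ZMod 2}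
    (hl : Lam Q P A2 l lb) : ∑ i ∈ ix Q P, l i = ∑ j ∈ Q ∪ P, n2 j := by
  rw [Pool.Agent.L0h23.KD.sum_ix h.dis, Finset.sum_union h.dis]
  congr 1
  · exact Finset.sum_congr rfl fun q hq => hl.q q hq
  · refine Finset.sum_congr rfl fun p hp => ?_
    rw [hl.f p hp, hl.t p hp]
    linear_combination two_self (A2 p)

/-- `n2` of a product -/
theorem n2_mul {a b : ℕ} (ha : a % 2 = 1) (hb : b % 2 = 1) : n2 (a * b) = n2 a + n2 b := by
  have h1 : (a * b) % 8 = ((a % 8) * (b % 8)) % 8 := Nat.mul_mod _ _ _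
  unfold n2
  rw [h1]
  have ha8 : a % 8 < 8 := Nat.mod_lt _ (by norm_num)
  have hb8 : b % 8 < 8 := Nat.mod_lt _ (by norm_num)
  have ha2 : a % 8 % 2 = 1 := by omega
  have hb2 : b % 8 % 2 = 1 := by omega
  generalize a % 8 = x at *
  generalize b % 8 = y at *
  interval_cases x <;> interval_cases y <;> simp_all <;> decide

theorem n2_prod (S : Finset ℕ) (h : ∀ q ∈ S, q % 2 = 1) :
    (∏ q ∈ S, q) % 2 = 1 ∧ n2 (∏ q ∈ S, q) = ∑ q ∈ S, n2 q := by
  induction S using Finset.induction_on with
  | empty =>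
    rw [Finset.prod_empty, Finset.sum_empty]
    exact ⟨rfl, rfl⟩
  | insert a S ha ih =>
    obtain ⟨h1, h2⟩ := ih fun q hq => h q (Finset.mem_insert_of_mem hq)
    have h3 := h a (Finset.mem_insert_self _ _)
    rw [Finset.prod_insert ha, Finset.sum_insert ha]
    refine ⟨by rw [Nat.mul_mod, h1, h3], ?_⟩
    rw [n2_mul h3 h1, h2]

lemma oddQP (h : DT Q P ϖ) : ∀ q ∈ Q ∪ P, q % 2 = 1 := by
  intro q hq
  rcases Finset.mem_union.1 hq with h1 | h1
  · exact (h.q q h1).odd
  · exact (h.p q h1).odd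

/-- the matrix with the primes above two at the indices `(2, false)`, `(2, true)` -/
theorem exists_entE (h : DT Q P ϖ) (nb : ZMod 2) (c n l lb : ℕ × Bool → ZMod 2)
    (m : ℕ × Bool → ℕ × Bool → ZMod 2) :
    ∃ cE mE, EntE (ix Q P) (2, false) (2, true) nb c n l lb m cE mE := by
  have hb : ((2, false) : ℕ × Bool) ∉ ix Q P := fun h' => by
    have := odd_mem h h'
    norm_num at this
  have hp : ((2, true) : ℕ × Bool) ∉ ix Q P := fun h' => by
    have := odd_mem h h'
    norm_num at this
  have hbp : ((2, false) : ℕ × Bool) ≠ (2, true) := by simp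
  have nb' : ∀ i ∈ ix Q P, i ≠ (2, false) := fun i hi h' => hb (h' ▸ hi)
  have np' : ∀ i ∈ ix Q P, i ≠ (2, true) := fun i hi h' => hp (h' ▸ hi)
  refine ⟨fun i => if i = (2, false) then 1 else if i = (2, true) then 1 + nb else c i,
    fun i j => if i = (2, false) then (if j = (2, true) then 1 else lb j)
      else if i = (2, true) then (if j = (2, false) then 1 + nb else l j + nb * n j)
      else if j = (2, false) then lb i + nb * n i
      else if j = (2, true) then l i else m i j, ?_⟩
  refine ⟨hb, hp, hbp, fun i hi => ?_, if_pos rfl, ?_, fun i hi j hj _ => ?_, fun i hi => ?_,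
    fun i hi => ?_, fun i hi => ?_, fun i hi => ?_, ?_, ?_⟩
  · simp only [if_neg (nb' i hi), if_neg (np' i hi)]
  · simp only [if_neg hbp.symm, if_true]
  · simp only [if_neg (nb' i hi), if_neg (np' i hi), if_neg (nb' j hj), if_neg (np' j hj)]
  · simp only [if_neg (nb' i hi), if_neg (np' i hi), if_true]
  · simp only [if_neg (nb' i hi), if_neg (np' i hi), if_neg hbp.symm, if_true]
  · simp only [if_neg (np' i hi), if_true]
  · simp only [if_neg hbp.symm, if_neg (nb' i hi), if_true]
  · simp only [if_true]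
  · simp only [if_neg hbp.symm, if_true]

/-- **The condition for `D = 2 M`.** -/
theorem nse_iff (r2 : S_R2) (h : DT Q P ϖ) {M : ℕ} (hM : M = ∏ q ∈ Q ∪ P, q) :
    NSE Q P ϖ M ↔ GdE (dtE ϖ (fun p => lam (ϖ p)) (if M % 4 = 3 then 3 else 2)) (Q ∪ P) := by
  have hl := lam_k r2 h
  have hn := par_kn h
  have hw : (if M % 8 = 3 ∨ M % 8 = 5 then 1 else 0) = ∑ i ∈ ix Q P, kb (pfx Q ϖ) i := by
    rw [kb_sum h hl, ← (n2_prod (Q ∪ P) (oddQP h)).2, ← hM]
    rfl
  have ht : (if M % 4 = 3 then 3 else 2 : ℕ) = 2 ∨ (if M % 4 = 3 then 3 else 2 : ℕ) = 3 := by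
    split_ifs
    · exact Or.inr rfl
    · exact Or.inl rfl
  obtain ⟨cE, mE, hE⟩ := exists_entE h (if M % 4 = 3 then 1 else 0) (mc (pfx Q ϖ))
    (kn (pfx Q ϖ)) (kl (pfx Q ϖ)) (kb (pfx Q ϖ)) (mr (pfx Q ϖ))
  unfold NSE
  rw [sysE_ker hE (recip_k h) (kn_sum h) hw (k7_eq h), ← trE h hl hn ht]
  have e : (if (if M % 4 = 3 then 3 else 2 : ℕ) = 3 then (1 : ZMod 2) else 0) =
      if M % 4 = 3 then 1 else 0 := by
    by_cases h4 : M % 4 = 3
    · rw [if_pos h4, if_pos rfl, if_pos h4]
    · rw [if_neg h4, if_neg (by norm_num), if_neg h4]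
  rw [e]
  rfl

end

end Pool.Agent.L0h74.EV
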