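import Pool.Agent.L0h23.KD.TRA
import Pool.Agent.L0h74.EV.Stm

/-!
# EV: the good sets with the prime two as a linear system in the unknowns of the odd primes and of two
-/

set_option autoImplicit false

open scoped Classical

namespace Pool.Agent.L0h74.EV

open Finset
open Pool.Agent.Y703.CQ (nr)
open Pool.Agent.N973.ND (Pr m7 uu ty RecA Ph TT rw' rw_eq Gv)
open Pool.Agent.L0h23.KD (Sys sys_iff)

/-- the row of a split prime -/
noncomputable def e1 (d : Dt) (U : Finset ℕ) (Z S : ℕ → ZMod 2) (z s : ZMod 2) (p : ℕ) : ZMod 2 :=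
  ∑ j ∈ U, nr j p * (Z j + Z p) + d.b p * Z p + d.b p * S p +
    ∑ k ∈ U, (if p = k then 0 else d.A p k + nr k p) * S k +
    ((n2 p + if d.t = 3 then uu p else 0) * (z + Z p) + d.A2 p * s)

/-- the dual row of a prime, without the diagonal term -/
noncomputable def e2 (d : Dt) (U : Finset ℕ) (S : ℕ → ZMod 2) (s : ZMod 2) (p : ℕ) : ZMod 2 :=
  ∑ i ∈ U, S i * nr p i + (d.b p + ∑ k ∈ U, nr k p) * S p +
    (n2 p * s + (n2 p + if d.t = 3 then uu p else 0) * S p)

/-- the row of two -/
noncomputable def e4 (d : Dt) (U : Finset ℕ) (Z S : ℕ → ZMod 2) (z s : ZMod 2) : ZMod 2 :=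
  ∑ j ∈ U, n2 j * (Z j + z) + d.b2 * z + d.b2 * s + ∑ k ∈ U, d.A2 k * S k

/-- the dual row of two -/
noncomputable def e5 (d : Dt) (U : Finset ℕ) (S : ℕ → ZMod 2) (z s : ZMod 2) : ZMod 2 :=
  ∑ i ∈ U, S i * (n2 i + if d.t = 3 then uu i else 0) + (d.b2 + ∑ k ∈ U, n2 k) * s +
    (if d.t = 3 then z else 0)

/-- a function of the option type -/
def op (z : ZMod 2) (Z : ℕ → ZMod 2) : Option ℕ → ZMod 2
  | none => z
  | some p => Z p

theorem sum_iN (U : Finset ℕ) (f : Option ℕ → ZMod 2) :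
    ∑ i : {x // x ∈ insertNone U}, f i = f none + ∑ p ∈ U, f (some p) := by
  rw [Finset.sum_coe_sort (insertNone U) f, Finset.sum_insertNone]

section
variable (d : Dt) (U : Finset ℕ)

theorem row_eq (Z S : ℕ → ZMod 2) (z s : ZMod 2) (i : {x // x ∈ insertNone U}) :
    rw' (fun i j : {x // x ∈ insertNone U} => nO d.t j i) (fun i => bO d i)
      (fun i => op z Z i) i + bO d i * op s S i +
      ∑ k : {x // x ∈ insertNone U}, (if i = k then 0 else eO d i k) * op s S k =
    (match (i : Option ℕ) with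
      | none => e4 d U Z S z s
      | some p => e1 d U Z S z s p) := by
  rw [rw_eq]
  have h1 : ∑ k : {x // x ∈ insertNone U}, (if i = k then 0 else eO d i k) * op s S k =
      ∑ k : {x // x ∈ insertNone U}, (if (i : Option ℕ) = k then 0 else eO d i k) * op s S k := by
    refine Finset.sum_congr rfl fun k _ => ?_
    by_cases hik : i = k
    · rw [if_pos hik, if_pos (congrArg Subtype.val hik)]
    · rw [if_neg hik, if_neg (fun h' => hik (Subtype.ext h'))]
  rw [h1, sum_iN U (fun j => nO d.t j i * (op z Z j + op z Z i)),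
    sum_iN U (fun k => (if (i : Option ℕ) = k then 0 else eO d i k) * op s S k)]
  obtain ⟨i, hi⟩ := i
  rcases i with _ | p
  · simp only [op, nO, eO, bO, e4, if_true, zero_mul, zero_add]
    have h2 : ∀ k ∈ U, (if (none : Option ℕ) = some k then 0 else d.A2 k) * S k =
        d.A2 k * S k := fun k _ => by rw [if_neg (by simp)]
    rw [Finset.sum_congr rfl h2]
  · simp only [op, nO, eO, bO, e1]
    have h2 : ∀ k ∈ U, (if (some p : Option ℕ) = some k then 0 else d.A p k + nr k p) * S k =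
        (if p = k then 0 else d.A p k + nr k p) * S k := fun k _ => by
      by_cases h : p = k
      · rw [if_pos h, if_pos (congrArg some h)]
      · rw [if_neg h, if_neg (fun h' => h (Option.some.inj h'))]
    rw [Finset.sum_congr rfl h2, if_neg (Option.some_ne_none p)]
    ring

theorem ph_eq (S : ℕ → ZMod 2) (s : ZMod 2) (l : {x // x ∈ insertNone U}) :
    Ph (fun i j : {x // x ∈ insertNone U} => nO d.t j i) (fun i => bO d i)
      (fun i => op s S i) l =
    (match (l : Option ℕ) with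
      | none => ∑ i ∈ U, S i * (n2 i + if d.t = 3 then uu i else 0) + (d.b2 + ∑ k ∈ U, n2 k) * s
      | some p => e2 d U S s p) := by
  unfold Ph TT
  rw [sum_iN U (fun i => op s S i * nO d.t l i), sum_iN U (fun k => nO d.t k l)]
  obtain ⟨l, hl⟩ := l
  rcases l with _ | p
  · simp only [op, nO, bO, mul_zero, zero_add]
  · simp only [op, nO, bO, e2]
    ring

end

section
variable {d : Dt} {Q P : Finset ℕ}

theorem sys_op (ht : d.t = 2 ∨ d.t = 3) (hQ : ∀ q ∈ Q, m7 q = 0) (hP : ∀ p ∈ P, m7 p = 1)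
    (Z S : ℕ → ZMod 2) (z s : ZMod 2) (hS : ∀ q ∈ Q, S q = 0) :
    Sys (Finset.univ.filter fun i : {x // x ∈ insertNone (Q ∪ P)} => m7O i = 1)
      (Finset.univ.filter fun i : {x // x ∈ insertNone (Q ∪ P)} =>
        tyO d.t i = 2 ∨ tyO d.t i = 1)
      (fun i j => nO d.t j i) (fun i j => if i = j then 0 else eO d i j)
      (fun i => bO d i) (fun i => op z Z i) (fun i => op s S i) ↔
    (∀ p ∈ P, e1 d (Q ∪ P) Z S z s p = 0) ∧
    (∀ p ∈ P, e2 d (Q ∪ P) S s p + uu p * Z p = 0) ∧
    (∀ q ∈ Q, e2 d (Q ∪ P) S s q + (1 + uu q) * Z q = 0) ∧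
    e4 d (Q ∪ P) Z S z s = 0 ∧ e5 d (Q ∪ P) S z s = 0 := by
  have gP : ∀ p ∈ P, (if tyO d.t (some p) = 2 ∨ tyO d.t (some p) = 1 then (0 : ZMod 2) else 1) =
      uu p := by
    intro p hp
    have h1 := hP p hp
    have h0 : tyO d.t (some p) = 2 * m7 p + if p % 4 = 3 then 1 else 0 := rfl
    rw [h0, h1]
    unfold uu
    by_cases h2 : p % 4 = 3
    · rw [if_pos h2, if_pos h2, if_neg (by omega)]
    · rw [if_neg h2, if_neg h2, if_pos (by omega)]
  have gQ : ∀ q ∈ Q, (if tyO d.t (some q) = 2 ∨ tyO d.t (some q) = 1 then (0 : ZMod 2) else 1) =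
      1 + uu q := by
    intro q hq
    have h1 := hQ q hq
    have h0 : tyO d.t (some q) = 2 * m7 q + if q % 4 = 3 then 1 else 0 := rfl
    rw [h0, h1]
    unfold uu
    by_cases h2 : q % 4 = 3
    · rw [if_pos h2, if_pos h2, if_pos (by omega)]
      decide
    · rw [if_neg h2, if_neg h2, if_neg (by omega), add_zero]
  have hsome : ∀ p, p ∈ Q ∪ P → (some p : Option ℕ) ∈ insertNone (Q ∪ P) := fun p hp => by
    rw [Finset.some_mem_insertNone]; exact hp
  have hnone : (none : Option ℕ) ∈ insertNone (Q ∪ P) := Finset.none_mem_insertNone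
  have gN : (if tyO d.t none = 2 ∨ tyO d.t none = 1 then (0 : ZMod 2) else 1) * z =
      if d.t = 3 then z else 0 := by
    have : tyO d.t none = d.t := rfl
    rw [this]
    rcases ht with h | h <;> rw [h] <;> norm_num
  constructor
  · rintro ⟨-, h2, h3⟩
    refine ⟨fun p hp => ?_, fun p hp => ?_, fun q hq => ?_, ?_, ?_⟩
    · have h4 := h2 ⟨some p, hsome p (Finset.mem_union_right _ hp)⟩
        (Finset.mem_filter.2 ⟨Finset.mem_univ _, hP p hp⟩)
      rw [row_eq] at h4
      exact h4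
    · have h4 := h3 ⟨some p, hsome p (Finset.mem_union_right _ hp)⟩
      rw [ph_eq] at h4
      simp only [Finset.mem_filter, Finset.mem_univ, true_and] at h4
      rw [gP p hp] at h4
      exact h4
    · have h4 := h3 ⟨some q, hsome q (Finset.mem_union_left _ hq)⟩
      rw [ph_eq] at h4
      simp only [Finset.mem_filter, Finset.mem_univ, true_and] at h4
      rw [gQ q hq] at h4
      exact h4
    · have h4 := h2 ⟨none, hnone⟩ (Finset.mem_filter.2 ⟨Finset.mem_univ _, rfl⟩)
      rw [row_eq] at h4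
      exact h4
    · have h4 := h3 ⟨none, hnone⟩
      rw [ph_eq] at h4
      simp only [Finset.mem_filter, Finset.mem_univ, true_and] at h4
      unfold e5
      rw [← gN]
      exact h4
  · rintro ⟨h1, h2, h3, h4, h5⟩
    refine ⟨fun i hi => ?_, fun i hi => ?_, fun l => ?_⟩
    · obtain ⟨i, hi'⟩ := i
      rcases i with _ | p
      · exact (hi (Finset.mem_filter.2 ⟨Finset.mem_univ _, rfl⟩)).elim
      · rw [Finset.some_mem_insertNone, Finset.mem_union] at hi'
        rcases hi' with h | h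
        · exact hS p h
        · exact (hi (Finset.mem_filter.2 ⟨Finset.mem_univ _, hP p h⟩)).elim
    · rw [row_eq]
      obtain ⟨i, hi'⟩ := i
      rcases i with _ | p
      · exact h4
      · have h6 : m7 p = 1 := (Finset.mem_filter.1 hi).2
        rw [Finset.some_mem_insertNone, Finset.mem_union] at hi'
        rcases hi' with h | h
        · have := hQ p h
          omega
        · exact h1 p h
    · rw [ph_eq]
      obtain ⟨l, hl⟩ := l
      rcases l with _ | p
      · simp only [Finset.mem_filter, Finset.mem_univ, true_and]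
        have h6 := h5
        unfold e5 at h6
        rw [← gN] at h6
        exact h6
      · rw [Finset.some_mem_insertNone, Finset.mem_union] at hl
        simp only [Finset.mem_filter, Finset.mem_univ, true_and]
        rcases hl with h | h
        · rw [gQ p h]
          exact h3 p h
        · rw [gP p h]
          exact h2 p h

/-- **The good sets as a linear system.** -/
theorem gdE_iff (ht : d.t = 2 ∨ d.t = 3) (hQ : ∀ q ∈ Q, m7 q = 0) (hP : ∀ p ∈ P, m7 p = 1) :
    GdE d (Q ∪ P) ↔ ∀ (Z S : ℕ → ZMod 2) (z s : ZMod 2), (∀ q ∈ Q, S q = 0) →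
    (∀ p ∈ P, e1 d (Q ∪ P) Z S z s p = 0) →
    (∀ p ∈ P, e2 d (Q ∪ P) S s p + uu p * Z p = 0) →
    (∀ q ∈ Q, e2 d (Q ∪ P) S s q + (1 + uu q) * Z q = 0) →
    e4 d (Q ∪ P) Z S z s = 0 → e5 d (Q ∪ P) S z s = 0 →
    (∀ n ∈ Q ∪ P, Z n = 0) ∧ (∀ n ∈ Q ∪ P, S n = 0) ∧ z = 0 ∧ s = 0 := by
  have key : GdE d (Q ∪ P) ↔
      ∀ z s, Sys (Finset.univ.filter fun i : {x // x ∈ insertNone (Q ∪ P)} => m7O i = 1)
      (Finset.univ.filter fun i : {x // x ∈ insertNone (Q ∪ P)} =>
        tyO d.t i = 2 ∨ tyO d.t i = 1)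
      (fun i j => nO d.t j i) (fun i j => if i = j then 0 else eO d i j)
      (fun i => bO d i) z s → (∀ i, z i = 0) ∧ ∀ i, s i = 0 := by
    rw [sys_iff]
    unfold GdE GdO GRO
    constructor <;> intro hh <;> convert hh
  rw [key]
  have hsome : ∀ p, p ∈ Q ∪ P → (some p : Option ℕ) ∈ insertNone (Q ∪ P) := fun p hp => by
    rw [Finset.some_mem_insertNone]; exact hp
  have hnone : (none : Option ℕ) ∈ insertNone (Q ∪ P) := Finset.none_mem_insertNone
  constructor
  · intro h Z S z s hS h1 h2 h3 h4 h5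
    obtain ⟨a1, a2⟩ := h _ _ ((sys_op ht hQ hP Z S z s hS).2 ⟨h1, h2, h3, h4, h5⟩)
    exact ⟨fun n hn => a1 ⟨some n, hsome n hn⟩, fun n hn => a2 ⟨some n, hsome n hn⟩,
      a1 ⟨none, hnone⟩, a2 ⟨none, hnone⟩⟩
  · intro h zz ss hsys
    set Z : ℕ → ZMod 2 := fun n => if hn : (some n : Option ℕ) ∈ insertNone (Q ∪ P) then
      zz ⟨some n, hn⟩ else 0 with hZ
    set S : ℕ → ZMod 2 := fun n => if hn : (some n : Option ℕ) ∈ insertNone (Q ∪ P) then
      ss ⟨some n, hn⟩ else 0 with hSd
    have ez : (fun i : {x // x ∈ insertNone (Q ∪ P)} => op (zz ⟨none, hnone⟩) Z i) = zz := by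
      funext i
      obtain ⟨i, hi⟩ := i
      rcases i with _ | p
      · rfl
      · exact dif_pos hi
    have es : (fun i : {x // x ∈ insertNone (Q ∪ P)} => op (ss ⟨none, hnone⟩) S i) = ss := by
      funext i
      obtain ⟨i, hi⟩ := i
      rcases i with _ | p
      · rfl
      · exact dif_pos hi
    have hSQ : ∀ q ∈ Q, S q = 0 := by
      intro q hq
      have hq' := hsome q (Finset.mem_union_left _ hq)
      have h2 : S q = ss ⟨some q, hq'⟩ := dif_pos hq'
      rw [h2]
      apply hsys.sup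
      intro h3
      have h4 : m7 q = 1 := (Finset.mem_filter.1 h3).2
      have := hQ q hq
      omega
    have h2 := (sys_op ht hQ hP Z S (zz ⟨none, hnone⟩) (ss ⟨none, hnone⟩) hSQ).1
      (by rw [ez, es]; exact hsys)
    obtain ⟨a1, a2, a3, a4⟩ := h Z S _ _ hSQ h2.1 h2.2.1 h2.2.2.1 h2.2.2.2.1 h2.2.2.2.2
    refine ⟨fun i => ?_, fun i => ?_⟩
    · rw [← ez]
      obtain ⟨i, hi⟩ := i
      rcases i with _ | p
      · exact a3
      · exact a1 p (by rwa [Finset.some_mem_insertNone] at hi)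
    · rw [← es]
      obtain ⟨i, hi⟩ := i
      rcases i with _ | p
      · exact a4
      · exact a2 p (by rwa [Finset.some_mem_insertNone] at hi)

end

end Pool.Agent.L0h74.EV
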