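import Pool.Agent.L0h23.KD.TR
import Pool.Agent.L0h74.EV.TRC

/-!
# EV: the matrix of the primes of `ℚ(√-7)` and the good sets with the prime two, for `D = 2 m`
-/

set_option autoImplicit false
set_option linter.unusedSectionVars false

open scoped Classical

namespace Pool.Agent.L0h74.EV

open Pool.Agent.Y698 Pool.Agent.Y698.SG
open Pool.Agent.L0h4.TW hiding Dt
open H667R3 Pool.Agent.W192.HK Pool.Agent.TH936.PU
open Pool.Agent.TH936.CM hiding uu
open Pool.Agent.Y703.CQ (nr)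
open Pool.Agent.N973.ND (Pr m7 uu ty nr_rec nr_self RecA)
open Pool.Agent.L0h23.KD (sum_ix brow brow_pf brow_pt brow_q Rel rowz phz Aw bw mP spP_iff inP_iff)

/-- the data of the primes -/
abbrev DT (Q P : Finset ℕ) (ϖ : ℕ → RR) : Prop := Pool.Agent.L0h4.TW.Dt Q P ϖ

/-- the symbols at the two primes above two; `A2` is the symbol of the chosen prime elements at the
first one -/
structure Lam (Q P : Finset ℕ) (A2 : ℕ → ZMod 2) (l lb : ℕ × Bool → ZMod 2) : Prop where
  q : ∀ q ∈ Q, l (q, false) = n2 q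
  qb : ∀ q ∈ Q, lb (q, false) = n2 q
  f : ∀ p ∈ P, l (p, false) = A2 p
  fb : ∀ p ∈ P, lb (p, false) = A2 p + n2 p
  t : ∀ p ∈ P, l (p, true) = A2 p + n2 p
  tb : ∀ p ∈ P, lb (p, true) = A2 p

/-- the parities of the primes -/
structure Par (Q P : Finset ℕ) (n : ℕ × Bool → ZMod 2) : Prop where
  q : ∀ q ∈ Q, n (q, false) = 0
  p : ∀ p ∈ P, ∀ b, n (p, b) = uu p

section
variable {Q P : Finset ℕ} {ϖ : ℕ → RR} {l lb n : ℕ × Bool → ZMod 2} {A2 : ℕ → ZMod 2}

lemma DT.m7Q (h : DT Q P ϖ) : ∀ q ∈ Q, m7 q = 0 := by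
  intro q hq
  have h2 := ((inP_iff q).1 (h.q q hq)).2
  have h3 := Pool.Agent.N973.ND.m7_le q
  omega

lemma DT.m7P (h : DT Q P ϖ) : ∀ p ∈ P, m7 p = 1 := fun p hp => ((spP_iff p).1 (h.p p hp)).2

variable (Q P ϖ l lb n) in
/-- the row of a prime, `D = 2 m` -/
noncomputable def kr (nb : ZMod 2) (x : ℕ × Bool → ZMod 2) (xb xp : ZMod 2) (i : ℕ × Bool) :
    ZMod 2 :=
  brow Q P ϖ x i + (lb i + nb * n i) * (x i + xb) + l i * (x i + xp)

variable (Q P lb) in
/-- the row of the second prime above two, `D = 2 m` -/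
noncomputable def krb (x : ℕ × Bool → ZMod 2) (xb xp : ZMod 2) : ZMod 2 :=
  xb + ∑ j ∈ ix Q P, lb j * (xb + x j) + (xb + xp)

variable (Q P l n) in
/-- the row of the first prime above two, `D = 2 m` -/
noncomputable def krp (nb : ZMod 2) (x : ℕ × Bool → ZMod 2) (xb xp : ZMod 2) : ZMod 2 :=
  (1 + nb) * xp + ∑ j ∈ ix Q P, (l j + nb * n j) * (xp + x j) + (1 + nb) * (xp + xb)

/-- the datum -/
noncomputable def dtE (ϖ : ℕ → RR) (A2 : ℕ → ZMod 2) (t : ℕ) : Dt where
  t := t
  A := Aw ϖ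
  A2 := A2
  b := bw ϖ
  b2 := 1

lemma kr_pf (h : DT Q P ϖ) (hl : Lam Q P A2 l lb) (hn : Par Q P n) (t : ℕ)
    {x : ℕ × Bool → ZMod 2} {Z S : ℕ → ZMod 2} (hr : Rel Q P x Z S) (z s : ZMod 2) {p : ℕ}
    (hp : p ∈ P) : kr Q P ϖ l lb n (if t = 3 then 1 else 0) x z (z + s) (p, false) =
      e1 (dtE ϖ A2 t) (Q ∪ P) Z S z s p := by
  have hx : x (p, false) = Z p := hr.f p (Finset.mem_union_right _ hp)
  unfold kr
  rw [brow_pf h hr hp, hx, hl.f p hp, hl.fb p hp, hn.p p hp]
  show _ = rowz Q P ϖ Z S p + ((n2 p + if t = 3 then uu p else 0) * (z + Z p) + A2 p * s)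
  by_cases ht : t = 3
  · rw [if_pos ht, if_pos ht]
    linear_combination two_self (A2 p * (Z p + z))
  · rw [if_neg ht, if_neg ht]
    linear_combination two_self (A2 p * (Z p + z))

lemma kr_pt (h : DT Q P ϖ) (hl : Lam Q P A2 l lb) (hn : Par Q P n) (t : ℕ)
    {x : ℕ × Bool → ZMod 2} {Z S : ℕ → ZMod 2} (hr : Rel Q P x Z S) (z s : ZMod 2) {p : ℕ}
    (hp : p ∈ P) : kr Q P ϖ l lb n (if t = 3 then 1 else 0) x z (z + s) (p, false) +
      kr Q P ϖ l lb n (if t = 3 then 1 else 0) x z (z + s) (p, true) =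
      e2 (dtE ϖ A2 t) (Q ∪ P) S s p + uu p * Z p := by
  have hx : x (p, false) = Z p := hr.f p (Finset.mem_union_right _ hp)
  have hb := brow_pt h hr hp
  unfold kr
  rw [hx, hr.t p hp, hl.f p hp, hl.fb p hp, hl.t p hp, hl.tb p hp, hn.p p hp, hn.p p hp]
  show _ = phz Q P ϖ S p + (n2 p * s + (n2 p + if t = 3 then uu p else 0) * S p) + uu p * Z p
  by_cases ht : t = 3
  · rw [if_pos ht, if_pos ht]
    linear_combination hb + two_self (A2 p * (Z p + z)) + two_self (A2 p * (Z p + z)) +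
      two_self (n2 p * (Z p + z)) + two_self (uu p * (Z p + z)) + two_self (A2 p * S p) +
      two_self (A2 p * s)
  · rw [if_neg ht, if_neg ht]
    linear_combination hb + two_self (A2 p * (Z p + z)) + two_self (A2 p * (Z p + z)) +
      two_self (n2 p * (Z p + z)) + two_self (A2 p * S p) + two_self (A2 p * s)

lemma kr_q (h : DT Q P ϖ) (hl : Lam Q P A2 l lb) (hn : Par Q P n) (t : ℕ)
    {x : ℕ × Bool → ZMod 2} {Z S : ℕ → ZMod 2} (hr : Rel Q P x Z S) (z s : ZMod 2) {q : ℕ}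
    (hq : q ∈ Q) : kr Q P ϖ l lb n (if t = 3 then 1 else 0) x z (z + s) (q, false) =
      e2 (dtE ϖ A2 t) (Q ∪ P) S s q + (1 + uu q) * Z q := by
  have hx : x (q, false) = Z q := hr.f q (Finset.mem_union_left _ hq)
  unfold kr
  rw [brow_q h hr hq, hx, hl.q q hq, hl.qb q hq, hn.q q hq]
  show _ = phz Q P ϖ S q + (n2 q * s + (n2 q + if t = 3 then uu q else 0) * S q) + (1 + uu q) * Z q
  rw [hr.q q hq]
  linear_combination two_self (n2 q * (Z q + z))

lemma krb_eq (h : DT Q P ϖ) (hl : Lam Q P A2 l lb) (t : ℕ)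
    {x : ℕ × Bool → ZMod 2} {Z S : ℕ → ZMod 2} (hr : Rel Q P x Z S) (z s : ZMod 2) :
    krb Q P lb x z (z + s) = e4 (dtE ϖ A2 t) (Q ∪ P) Z S z s := by
  have h1 : ∑ q ∈ Q, lb (q, false) * (z + x (q, false)) = ∑ q ∈ Q, n2 q * (Z q + z) := by
    refine Finset.sum_congr rfl fun q hq => ?_
    rw [hl.qb q hq, hr.f q (Finset.mem_union_left _ hq), add_comm z]
  have h2 : ∑ p ∈ P, (lb (p, false) * (z + x (p, false)) + lb (p, true) * (z + x (p, true))) =
      ∑ p ∈ P, n2 p * (Z p + z) + ∑ p ∈ P, A2 p * S p := by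
    rw [← Finset.sum_add_distrib]
    refine Finset.sum_congr rfl fun p hp => ?_
    rw [hl.fb p hp, hl.tb p hp, hr.f p (Finset.mem_union_right _ hp), hr.t p hp]
    linear_combination two_self (A2 p * (z + Z p))
  have h3 : ∑ k ∈ Q, A2 k * S k = 0 :=
    Finset.sum_eq_zero fun q hq => by rw [hr.q q hq, mul_zero]
  unfold krb
  rw [sum_ix h.dis, h1, h2]
  show _ = ∑ j ∈ Q ∪ P, n2 j * (Z j + z) + 1 * z + 1 * s + ∑ k ∈ Q ∪ P, A2 k * S k
  rw [Finset.sum_union h.dis, Finset.sum_union h.dis, h3]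
  linear_combination two_self z

lemma krp_eq (h : DT Q P ϖ) (hl : Lam Q P A2 l lb) (hn : Par Q P n) (t : ℕ)
    {x : ℕ × Bool → ZMod 2} {Z S : ℕ → ZMod 2} (hr : Rel Q P x Z S) (z s : ZMod 2) :
    krb Q P lb x z (z + s) + krp Q P l n (if t = 3 then 1 else 0) x z (z + s) =
      e5 (dtE ϖ A2 t) (Q ∪ P) S z s := by
  set nb : ZMod 2 := if t = 3 then 1 else 0 with hnb
  have h1 : ∑ q ∈ Q, (lb (q, false) * (z + x (q, false)) +
      (l (q, false) + nb * n (q, false)) * (z + s + x (q, false))) = ∑ q ∈ Q, n2 q * s := by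
    refine Finset.sum_congr rfl fun q hq => ?_
    rw [hl.qb q hq, hl.q q hq, hn.q q hq]
    linear_combination two_self (n2 q * (z + x (q, false)))
  have h2 : ∑ p ∈ P, ((lb (p, false) * (z + x (p, false)) + lb (p, true) * (z + x (p, true))) +
      ((l (p, false) + nb * n (p, false)) * (z + s + x (p, false)) +
        (l (p, true) + nb * n (p, true)) * (z + s + x (p, true)))) =
      ∑ p ∈ P, n2 p * s + ∑ p ∈ P, S p * (n2 p + if t = 3 then uu p else 0) := by
    rw [← Finset.sum_add_distrib]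
    refine Finset.sum_congr rfl fun p hp => ?_
    rw [hl.fb p hp, hl.tb p hp, hl.f p hp, hl.t p hp, hn.p p hp, hn.p p hp,
      hr.f p (Finset.mem_union_right _ hp), hr.t p hp]
    have h3 : (if t = 3 then uu p else 0) = nb * uu p := by
      rw [hnb]
      split_ifs
      · rw [one_mul]
      · rw [zero_mul]
    rw [h3]
    linear_combination 2 * two_self (A2 p * (z + Z p)) + two_self (n2 p * (z + Z p)) +
      two_self (nb * uu p * (z + s + Z p)) + two_self (A2 p * S p) + two_self (A2 p * s)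
  have h3 : ∑ k ∈ Q, S k * (n2 k + if t = 3 then uu k else 0) = 0 :=
    Finset.sum_eq_zero fun q hq => by rw [hr.q q hq, zero_mul]
  have e : krb Q P lb x z (z + s) + krp Q P l n nb x z (z + s) =
      z + s + (1 + nb) * (z + s) + (1 + nb) * s +
      (∑ q ∈ Q, (lb (q, false) * (z + x (q, false)) +
        (l (q, false) + nb * n (q, false)) * (z + s + x (q, false)))) +
      ∑ p ∈ P, ((lb (p, false) * (z + x (p, false)) + lb (p, true) * (z + x (p, true))) +
      ((l (p, false) + nb * n (p, false)) * (z + s + x (p, false)) +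
        (l (p, true) + nb * n (p, true)) * (z + s + x (p, true)))) := by
    unfold krb krp
    rw [sum_ix h.dis, sum_ix h.dis, Finset.sum_add_distrib (s := Q),
      Finset.sum_add_distrib (s := P)
      (f := fun p => (lb (p, false) * (z + x (p, false)) + lb (p, true) * (z + x (p, true))))]
    linear_combination two_self z + (1 + nb) * two_self z
  rw [e, h1, h2]
  show _ = ∑ i ∈ Q ∪ P, S i * (n2 i + if t = 3 then uu i else 0) +
    (1 + ∑ k ∈ Q ∪ P, n2 k) * s + (if t = 3 then z else 0)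
  rw [Finset.sum_union h.dis, Finset.sum_union h.dis, h3, ← Finset.sum_mul, ← Finset.sum_mul]
  have h4 : (if t = 3 then z else 0) = nb * z := by
    rw [hnb]
    split_ifs
    · rw [one_mul]
    · rw [zero_mul]
  rw [h4]
  linear_combination two_self z + two_self s + nb * two_self s

/-- **The translation for `D = 2 m`.** -/
theorem trE (h : DT Q P ϖ) (hl : Lam Q P A2 l lb) (hn : Par Q P n) {t : ℕ} (ht : t = 2 ∨ t = 3) :
    (∀ (x : ℕ × Bool → ZMod 2) (xb xp : ZMod 2),
      (∀ i ∈ ix Q P, kr Q P ϖ l lb n (if t = 3 then 1 else 0) x xb xp i = 0) →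
      krb Q P lb x xb xp = 0 → krp Q P l n (if t = 3 then 1 else 0) x xb xp = 0 →
      (∀ i ∈ ix Q P, x i = 0) ∧ xb = 0 ∧ xp = 0) ↔ GdE (dtE ϖ A2 t) (Q ∪ P) := by
  rw [gdE_iff (d := dtE ϖ A2 t) ht h.m7Q h.m7P]
  constructor
  · intro hk Z S z s hS h1 h2 h3 h4 h5
    set x : ℕ × Bool → ZMod 2 := fun i => if i.2 then Z i.1 + S i.1 else Z i.1 with hx
    have hr : Rel Q P x Z S := ⟨fun n _ => rfl, fun n _ => rfl, hS⟩
    have hrows : ∀ i ∈ ix Q P, kr Q P ϖ l lb n (if t = 3 then 1 else 0) x z (z + s) i = 0 := by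
      rintro ⟨n', b⟩ hi
      rcases mem_ix.1 hi with ⟨h6, h7⟩ | ⟨h6, h7⟩ | ⟨h6, h7⟩
      · simp only at h6 h7
        subst h7
        rw [kr_q h hl hn t hr z s h6]
        exact h3 _ h6
      · simp only at h6 h7
        subst h7
        rw [kr_pf h hl hn t hr z s h6]
        exact h1 _ h6
      · simp only at h6 h7
        subst h7
        have h8 := kr_pt h hl hn t hr z s h6
        rw [h2 _ h6, kr_pf h hl hn t hr z s h6, h1 _ h6, zero_add] at h8
        exact h8
    have hb : krb Q P lb x z (z + s) = 0 := by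
      rw [krb_eq h hl t hr z s]
      exact h4
    have hp : krp Q P l n (if t = 3 then 1 else 0) x z (z + s) = 0 := by
      have h8 := krp_eq h hl hn t hr z s
      rw [hb, zero_add] at h8
      rw [h8]
      exact h5
    obtain ⟨a1, a2, a3⟩ := hk x z (z + s) hrows hb hp
    have hZ : ∀ n' ∈ Q ∪ P, Z n' = 0 := by
      intro n' hn'
      have : x (n', false) = Z n' := rfl
      rw [← this]
      apply a1
      rcases Finset.mem_union.1 hn' with h6 | h6
      · exact mem_ix.2 (Or.inl ⟨h6, rfl⟩)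
      · exact mem_ix.2 (Or.inr (Or.inl ⟨h6, rfl⟩))
    refine ⟨hZ, fun n' hn' => ?_, a2, by rwa [a2, zero_add] at a3⟩
    rcases Finset.mem_union.1 hn' with h6 | h6
    · exact hS n' h6
    · have h7 : x (n', true) = Z n' + S n' := rfl
      have h8 := a1 (n', true) (mem_ix.2 (Or.inr (Or.inr ⟨h6, rfl⟩)))
      rw [h7, hZ n' hn', zero_add] at h8
      exact h8
  · intro hk x xb xp h1 h2 h3
    set Z : ℕ → ZMod 2 := fun n => x (n, false) with hZ
    set S : ℕ → ZMod 2 := fun n => if n ∈ P then x (n, false) + x (n, true) else 0 with hS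
    have hr : Rel Q P x Z S := by
      refine ⟨fun n _ => rfl, fun p hp => ?_, fun q hq => ?_⟩
      · have : S p = x (p, false) + x (p, true) := if_pos hp
        rw [this]
        linear_combination -two_self (x (p, false))
      · exact if_neg (h.disj hq)
    obtain ⟨s, rfl⟩ : ∃ s, xp = xb + s := ⟨xb + xp, by linear_combination -two_self xb⟩
    obtain ⟨a1, a2, a3, a4⟩ := hk Z S xb s hr.q
      (fun p hp => by
        rw [← kr_pf h hl hn t hr xb s hp]
        exact h1 _ (mem_ix.2 (Or.inr (Or.inl ⟨hp, rfl⟩))))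
      (fun p hp => by
        rw [← kr_pt h hl hn t hr xb s hp, h1 _ (mem_ix.2 (Or.inr (Or.inl ⟨hp, rfl⟩))),
          h1 _ (mem_ix.2 (Or.inr (Or.inr ⟨hp, rfl⟩))), add_zero])
      (fun q hq => by
        rw [← kr_q h hl hn t hr xb s hq]
        exact h1 _ (mem_ix.2 (Or.inl ⟨hq, rfl⟩)))
      (by rw [← krb_eq h hl t hr xb s]; exact h2)
      (by rw [← krp_eq h hl hn t hr xb s, h2, h3, add_zero])
    refine ⟨?_, a3, by rw [a3, a4, add_zero]⟩
    rintro ⟨n', b⟩ hi
    rcases mem_ix.1 hi with ⟨h4, h5⟩ | ⟨h4, h5⟩ | ⟨h4, h5⟩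
    · simp only at h4 h5
      subst h5
      exact a1 n' (Finset.mem_union_left _ h4)
    · simp only at h4 h5
      subst h5
      exact a1 n' (Finset.mem_union_right _ h4)
    · simp only at h4 h5
      subst h5
      rw [hr.t n' h4, a1 n' (Finset.mem_union_right _ h4), a2 n' (Finset.mem_union_right _ h4),
        add_zero]

end

end Pool.Agent.L0h74.EV
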